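import Pool.Agent.Y60.DC.Conn2
import Pool.Agent.Y60.DC.StarRegC
import Pool.Agent.Y60.DC.Dbl
import Pool.Agent.TH444.TW.Fin

/-!
# The class of homomorphisms with unitary kernels
-/

set_option autoImplicit false

namespace Pool.Agent.Y60.DC

open Pool.Agent.H391R2 Pool.Agent.H391R2.T4
open Pool.Agent.TH15.IGP (StepSol Lim)
open Pool.Agent.TH444.TW (Cls RSK infinite_ratFunc infinite_of_hilb exists_sdEquiv)

/-- `π : W' → W` is the projection of a semidirect product `U⁰(R) ⋊ W`, `R` a finite ring of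
characteristic `p` with an involution such that `z + z* = 1` for some `z`, where `W` acts through
a homomorphism `ρ` from `W` to the group of automorphisms of the ring with involution `R`: there are
an isomorphism `ι` of `U⁰(R)` onto the kernel of `π` and a homomorphic section `s` of `π`, and `s w`
acts on the kernel by `ρ w`. -/
def IsUnitary (p : ℕ) [Fact p.Prime] {W W' : Type} [Group W] [Group W'] (π : W' →* W) : Prop :=
  ∃ (R : Type) (_ : Ring R) (_ : Algebra (ZMod p) R) (_ : StarRing R) (_ : Finite R)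
    (h1 : ∃ z : R, z + star z = 1) (ρ : W →* (R ≃+* R)) (ι : unitary0 p R h1 →* W')
    (s : W →* W'),
    (∀ w a, ρ w (star a) = star (ρ w a)) ∧ Function.Injective ι ∧ ι.range = π.ker ∧
    (∀ w, π (s w) = w) ∧
    ∀ (w : W) (x y : unitary0 p R h1), ((y : unitary R) : R) = ρ w ((x : unitary R) : R) →
      s w * ι x = ι y * s w

section step

variable {p : ℕ} [Fact p.Prime] {R : Type} [Ring R] [Algebra (ZMod p) R] [StarRing R]

/-- Automorphisms of the ring with involution act on elements connected to `1`. -/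
theorem connSome_map {b : R} (h : ConnSome p b) (ρ : R ≃+* R)
    (hρ : ∀ a, ρ (star a) = star (ρ a)) : ConnSome p (ρ b) := by
  obtain ⟨A, iA, jA, v, y, hv, h1, h2⟩ := h
  have e1 : rm (ρ : R →+* R) (su v + em b * v) =
      su (rm (ρ : R →+* R) v) + em (ρ b) * rm (ρ : R →+* R) v := by
    rw [map_add, map_mul, rm_em, ← su_rm _ hρ]
    rfl
  refine ⟨A, iA, jA, rm (ρ : R →+* R) v, rm (ρ : R →+* R) y, ?_, ?_, ?_⟩
  · rw [su_rm _ hρ, ← map_add, hv, map_one]
  · rw [← e1, ← map_mul, h1, map_one]
  · rw [← e1, ← map_mul, h2, map_one]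

variable [Finite R] (h1 : ∃ z : R, z + star z = 1)

/-- The map of `U⁰(R)` given by an automorphism of the ring with involution. -/
def u0m (ρ : R ≃+* R) (hρ : ∀ a, ρ (star a) = star (ρ a)) (x : unitary0 p R h1) :
    unitary0 p R h1 :=
  ⟨⟨ρ ((x : unitary R) : R), by
    rw [Unitary.mem_iff]
    obtain ⟨k1, k2⟩ := Unitary.mem_iff.1 (x : unitary R).2
    rw [← hρ, ← map_mul, ← map_mul, k1, k2, map_one]
    exact ⟨rfl, rfl⟩⟩, connSome_map x.2 ρ hρ⟩

theorem coe_u0m (ρ : R ≃+* R) (hρ : ∀ a, ρ (star a) = star (ρ a)) (x : unitary0 p R h1) :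
    ((u0m h1 ρ hρ x : unitary R) : R) = ρ ((x : unitary R) : R) := rfl

theorem symm_star_u (ρ : R ≃+* R) (hρ : ∀ a, ρ (star a) = star (ρ a)) (a : R) :
    ρ.symm (star a) = star (ρ.symm a) := by
  apply ρ.injective
  rw [RingEquiv.apply_symm_apply, hρ, RingEquiv.apply_symm_apply]

/-- The automorphism of `U⁰(R)` given by an automorphism of the ring with involution. -/
def u0E (ρ : R ≃+* R) (hρ : ∀ a, ρ (star a) = star (ρ a)) : MulAut (unitary0 p R h1) where
  toFun := u0m h1 ρ hρ
  invFun := u0m h1 ρ.symm (symm_star_u ρ hρ)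
  left_inv := fun a => Subtype.ext (Subtype.ext (by
    rw [coe_u0m, coe_u0m, RingEquiv.symm_apply_apply]))
  right_inv := fun a => Subtype.ext (Subtype.ext (by
    rw [coe_u0m, coe_u0m, RingEquiv.apply_symm_apply]))
  map_mul' := fun a b => Subtype.ext (Subtype.ext (map_mul ρ _ _))

end step

theorem unitary_rsk (p : ℕ) [Fact p.Prime] (K : Type) [Field K] [CharP K p] {W W' : Type}
    [Group W] [Finite W] [Group W'] (π : W' →* W) (h : IsUnitary p π) : RSK K π := by
  obtain ⟨R, iR, jR, sR, fR, h1, ρ, ι, s, hρ, hι, hr, hs, hc⟩ := h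
  let φ : W →* MulAut (unitary0 p R h1) :=
    { toFun := fun w => u0E h1 (ρ w) (hρ w)
      map_one' := by
        apply MulEquiv.ext
        intro a
        apply Subtype.ext
        apply Subtype.ext
        change ρ 1 _ = _
        rw [map_one]
        rfl
      map_mul' := fun w w' => by
        apply MulEquiv.ext
        intro a
        apply Subtype.ext
        apply Subtype.ext
        change ρ (w * w') _ = ρ w (ρ w' _)
        rw [map_mul]
        rfl }
  obtain ⟨e, he⟩ := exists_sdEquiv φ π ι s hι hr hs fun w x => hc w x (φ w x) rfl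
  have h2 : RSK K (SemidirectProduct.rightHom : unitary0 p R h1 ⋊[φ] W →* W) := by
    intro K' M _ _ _ _ _ _ _ ε
    have hc : CharP K' p := charP_of_injective_algebraMap (algebraMap K K').injective p
    have hfin : Finite (unitary0 p R h1) := inferInstance
    have h3 := starc_reg p R h1 (unitary0 p R h1)
      ((unitary R).subtype.comp (unitary0 p R h1).subtype)
      (fun a b hab => Subtype.ext (Subtype.ext hab))
      (fun b => ⟨fun ⟨n, hn⟩ => hn ▸ ⟨(n : unitary R).2, n.2⟩,
        fun hb => ⟨⟨⟨b, hb.1⟩, hb.2⟩, rfl⟩⟩)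
      K' M (φ.comp ε.toMonoidHom) (ρ.comp ε.toMonoidHom) (fun γ a => hρ _ a) (fun γ n => rfl)
    let q : unitary0 p R h1 ⋊[φ.comp ε.toMonoidHom] (M ≃ₐ[K'] M) →* unitary0 p R h1 ⋊[φ] W :=
      SemidirectProduct.map (MonoidHom.id _) ε.toMonoidHom (fun γ => rfl)
    have hq : Function.Surjective q := by
      rintro ⟨n, w⟩
      exact ⟨⟨n, ε.symm w⟩, SemidirectProduct.ext rfl (ε.apply_symm_apply w)⟩
    refine Pool.Agent.W200.IJ.regSol_quot (L' := M) _ SemidirectProduct.rightHom q hq ?_ ?_ h3
    · intro g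
      rw [Pool.Agent.TH444.TW.restrictNormal_self]
      exact ε.symm_apply_apply _
    · intro σ hσ
      rw [Pool.Agent.TH444.TW.restrictNormal_self] at hσ
      exact ⟨1, map_one _, by rw [map_one, hσ]⟩
  refine RSK.congr h2 e.symm fun x => ?_
  obtain ⟨y, rfl⟩ := e.surjective x
  rw [MulEquiv.symm_apply_apply]
  exact (he y).symm

end Pool.Agent.Y60.DC
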