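import Pool.Agent.Y461.DC.CentA
import Pool.Agent.TH59.WX.UE
import Pool.Agent.Y60.DC.Good
import Pool.Agent.Y60.DC.ClsU

/-!
# Groups whose automorphisms come from a ring with involution
-/

set_option autoImplicit false

namespace Pool.Agent.Y60.DC

open Pool.Agent.Y461.DC (inner_normal conj_map conj_inj)

/-- the retraction onto the complement -/
theorem exists_projT (G : Type) [Group G] (T : Subgroup (MulAut G))
    (hT : IsCompl T (MulAut.conj : G →* MulAut G).range) :
    ∃ π : MulAut G →* MulAut G, (∀ g, π (MulAut.conj g) = 1) ∧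
      (∀ f, ∃ g, MulAut.conj g = f * (π f)⁻¹) ∧ ∀ f, π f ∈ T := by
  have hN : (MulAut.conj : G →* MulAut G).range.Normal := inner_normal G
  set I := (MulAut.conj : G →* MulAut G).range with hI
  have hc : T.IsComplement' I := by
    apply Subgroup.isComplement'_of_disjoint_and_mul_eq_univ hT.disjoint
    rw [← Subgroup.mul_normal, hT.sup_eq_top]
    rfl
  set E := hc.QuotientMulEquiv with hE
  have hEs : ∀ t : T, E.symm t = QuotientGroup.mk (t : MulAut G) := fun t => rfl
  refine ⟨T.subtype.comp (E.toMonoidHom.comp (QuotientGroup.mk' I)), ?_, ?_,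
    fun f => (E (QuotientGroup.mk' I f)).2⟩
  · intro g
    have h1 : (QuotientGroup.mk' I) (MulAut.conj g) = 1 := by
      rw [QuotientGroup.mk'_apply, QuotientGroup.eq_one_iff]
      exact ⟨g, rfl⟩
    rw [MonoidHom.comp_apply, MonoidHom.comp_apply, h1, map_one, map_one]
  · intro f
    set t := E (QuotientGroup.mk' I f) with ht
    have h1 : (QuotientGroup.mk (t : MulAut G) : MulAut G ⧸ I) = QuotientGroup.mk f := by
      rw [← hEs, ht, MulEquiv.symm_apply_apply]
      rfl
    have h2 : f * (t : MulAut G)⁻¹ ∈ I := by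
      rw [← QuotientGroup.eq_one_iff]
      have h3 : ((f * (t : MulAut G)⁻¹ : MulAut G) : MulAut G ⧸ I) =
          (f : MulAut G ⧸ I) * ((t : MulAut G) : MulAut G ⧸ I)⁻¹ := rfl
      rw [h3, h1, mul_inv_cancel]
    obtain ⟨g, hg⟩ := h2
    exact ⟨g, hg⟩

theorem classifyT {X Γ G : Type} [Group X] [Group Γ] [Group G] (hZ : Subgroup.center G = ⊥)
    (T : Subgroup (MulAut G)) (hT : IsCompl T (MulAut.conj : G →* MulAut G).range)
    (α : X →* Γ) (hα : Function.Surjective α) (e : α.ker ≃* G) :
    ∃ (β : Γ →* MulAut G) (Θ : X ≃* G ⋊[β] Γ), (∀ x, (Θ x).right = α x) ∧ ∀ s, β s ∈ T := by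
  obtain ⟨π, hπ1, hπ2, hπ3⟩ := exists_projT G T hT
  have hinj := conj_inj hZ
  have hmem : ∀ (x n : X), n ∈ α.ker → x * n * x⁻¹ ∈ α.ker := fun x n hn =>
    (MonoidHom.normal_ker α).conj_mem n hn x
  set c : X →* MulAut G := (MulAut.congr e).toMonoidHom.comp MulAut.conjNormal with hc
  have hcapp : ∀ (x n : X) (hn : n ∈ α.ker), c x (e ⟨n, hn⟩) = e ⟨x * n * x⁻¹, hmem x n hn⟩ := by
    intro x n hn
    change e (MulAut.conjNormal x (e.symm (e ⟨n, hn⟩))) = _
    rw [MulEquiv.symm_apply_apply]
    congr 1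
  have hcker : ∀ (n : X) (hn : n ∈ α.ker), c n = MulAut.conj (e ⟨n, hn⟩) := by
    intro n hn
    apply MulEquiv.ext
    intro g
    obtain ⟨⟨m, hm⟩, rfl⟩ := e.surjective g
    rw [hcapp, MulAut.conj_apply, ← map_mul, ← map_inv, ← map_mul]
    rfl
  set b : X →* MulAut G := π.comp c with hb
  have hbker : α.ker ≤ b.ker := by
    intro n hn
    rw [MonoidHom.mem_ker, hb, MonoidHom.comp_apply, hcker n hn, hπ1]
  set β : Γ →* MulAut G := α.liftOfSurjective hα ⟨b, hbker⟩ with hβ
  have hβα : ∀ x, β (α x) = b x := fun x =>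
    MonoidHom.liftOfRightInverse_comp_apply α _ (Function.rightInverse_surjInv hα) ⟨b, hbker⟩ x
  choose γ hγ using fun x => hπ2 (c x)
  have hγ' : ∀ x, MulAut.conj (γ x) = c x * (b x)⁻¹ := hγ
  have huniq : ∀ x g, MulAut.conj g = c x * (b x)⁻¹ → γ x = g := by
    intro x g h
    exact hinj ((hγ' x).trans h.symm)
  have hγmul : ∀ x y, γ (x * y) = γ x * b x (γ y) := by
    intro x y
    apply huniq
    rw [map_mul, conj_map, hγ', hγ', map_mul, map_mul]
    group
  have hγker : ∀ (n : X) (hn : n ∈ α.ker) (x : X), γ (n * x) = e ⟨n, hn⟩ * γ x := by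
    intro n hn x
    apply huniq
    have h1 : b n = 1 := hbker hn
    rw [map_mul, ← hcker n hn, hγ', map_mul, map_mul, h1, one_mul, mul_assoc]
  let θ : X →* G ⋊[β] Γ :=
    { toFun := fun x => ⟨γ x, α x⟩
      map_one' := by
        apply SemidirectProduct.ext
        · exact huniq 1 1 (by simp)
        · exact map_one α
      map_mul' := by
        intro x y
        apply SemidirectProduct.ext
        · change γ (x * y) = γ x * β (α x) (γ y)
          rw [hβα, hγmul]
        · exact map_mul α x y }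
  have hθinj : Function.Injective θ := by
    rw [injective_iff_map_eq_one]
    intro x hx
    have h1 : γ x = 1 := congrArg (fun z : G ⋊[β] Γ => z.left) hx
    have h2 : α x = 1 := congrArg (fun z : G ⋊[β] Γ => z.right) hx
    have hxk : x ∈ α.ker := h2
    have h3 := hγker x hxk 1
    rw [mul_one, h1] at h3
    have h4 : γ 1 = 1 := huniq 1 1 (by simp)
    rw [h4, mul_one] at h3
    have h5 : (⟨x, hxk⟩ : α.ker) = 1 := by
      apply e.injective
      rw [← h3, map_one]
    exact congrArg (fun z : α.ker => (z : X)) h5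
  have hθsurj : Function.Surjective θ := by
    rintro ⟨g, s⟩
    obtain ⟨x, rfl⟩ := hα s
    obtain ⟨⟨n, hn⟩, hn2⟩ := e.surjective (g * (γ x)⁻¹)
    refine ⟨n * x, ?_⟩
    apply SemidirectProduct.ext
    · change γ (n * x) = g
      rw [hγker n hn, hn2, inv_mul_cancel_right]
    · change α (n * x) = α x
      have : α n = 1 := hn
      rw [map_mul, this, one_mul]
  refine ⟨β, MulEquiv.ofBijective θ ⟨hθinj, hθsurj⟩, fun x => rfl, fun s => ?_⟩
  obtain ⟨x, rfl⟩ := hα s
  rw [hβα]
  exact hπ3 _


open Pool.Agent.H391R2.T4 (RegSol)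
open Pool.Agent.TH444.TW (RSK)

/-- `T` is a quotient of the group `U⁰(R)`, `R` a finite ring of characteristic `p` with an
involution such that `z + z* = 1` for some `z`, and there is a group `C` of automorphisms of the
ring with involution `R` which induces automorphisms of `T`, such that the automorphisms induced by
`C` form a complement of the inner automorphisms in `Aut T`, isomorphic to `C`. -/
def IsClassical (p : ℕ) [Fact p.Prime] (T : Type) [Group T] : Prop :=
  ∃ (R : Type) (_ : Ring R) (_ : Algebra (ZMod p) R) (_ : StarRing R) (_ : Finite R)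
    (h1 : ∃ z : R, z + star z = 1) (π : unitary0 p R h1 →* T) (C : Type) (_ : Group C)
    (c : C →* MulAut T) (ρ : C →* (R ≃+* R)),
    Function.Surjective π ∧ Function.Injective c ∧
    IsCompl c.range (MulAut.conj : T →* MulAut T).range ∧
    (∀ x a, ρ x (star a) = star (ρ x a)) ∧
    ∀ (x : C) (u v : unitary0 p R h1), ((v : unitary R) : R) = ρ x ((u : unitary R) : R) →
      c x (π u) = π v

/-- All embedding problems whose kernel is a centreless classical group. -/
theorem good_classical (p : ℕ) [Fact p.Prime] (T : Type) [Group T]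
    (hZ : Subgroup.center T = ⊥) (h : IsClassical p T) : GoodKerP p T := by
  obtain ⟨R, iR, jR, sR, fR, h1, π, C, iC, c, ρ, hπ, hc, hT, hρ, hcπ⟩ := h
  intro K L X _ _ _ _ _ _ _ _ α hα ⟨e⟩
  obtain ⟨β, Θ, hΘ, hβ⟩ := classifyT hZ c.range hT α hα e
  refine Pool.Agent.TH59.WX.reg_transport SemidirectProduct.rightHom α Θ hΘ ?_
  -- lift `β` to `C`
  let E : C ≃* c.range := MonoidHom.ofInjective hc
  let b : (L ≃ₐ[K] L) →* C := E.symm.toMonoidHom.comp (β.codRestrict c.range hβ)
  have hb : ∀ γ, c (b γ) = β γ := fun γ => by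
    have h2 : E (b γ) = β.codRestrict c.range hβ γ := E.apply_symm_apply _
    exact congrArg Subtype.val h2
  let φ : (L ≃ₐ[K] L) →* MulAut (unitary0 p R h1) :=
    { toFun := fun γ => u0E h1 (ρ (b γ)) (hρ (b γ))
      map_one' := by
        apply MulEquiv.ext
        intro a
        apply Subtype.ext
        apply Subtype.ext
        change ρ (b 1) _ = _
        rw [map_one, map_one]
        rfl
      map_mul' := fun w w' => by
        apply MulEquiv.ext
        intro a
        apply Subtype.ext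
        apply Subtype.ext
        change ρ (b (w * w')) _ = ρ (b w) (ρ (b w') _)
        rw [map_mul, map_mul]
        rfl }
  have h3 := starc_reg p R h1 (unitary0 p R h1)
    ((unitary R).subtype.comp (unitary0 p R h1).subtype)
    (fun a b hab => Subtype.ext (Subtype.ext hab))
    (fun b => ⟨fun ⟨n, hn⟩ => hn ▸ ⟨(n : unitary R).2, n.2⟩,
      fun hb => ⟨⟨⟨b, hb.1⟩, hb.2⟩, rfl⟩⟩)
    K L φ (ρ.comp b) (fun γ a => hρ _ a) (fun γ n => rfl)
  let q : unitary0 p R h1 ⋊[φ] (L ≃ₐ[K] L) →* T ⋊[β] (L ≃ₐ[K] L) :=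
    SemidirectProduct.map π (MonoidHom.id _) (by
      intro γ
      apply MonoidHom.ext
      intro a
      change π (φ γ a) = β γ (π a)
      rw [← hb]
      exact (hcπ (b γ) a (φ γ a) rfl).symm)
  have hq : Function.Surjective q := by
    rintro ⟨n, w⟩
    obtain ⟨a, rfl⟩ := hπ n
    exact ⟨⟨a, w⟩, rfl⟩
  refine Pool.Agent.W200.IJ.regSol_quot (L' := L) SemidirectProduct.rightHom
    SemidirectProduct.rightHom q hq ?_ ?_ h3
  · intro g
    rw [Pool.Agent.TH444.TW.restrictNormal_self]
    rfl
  · intro σ hσ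
    rw [Pool.Agent.TH444.TW.restrictNormal_self] at hσ
    exact ⟨1, map_one _, by rw [map_one, hσ]⟩

end Pool.Agent.Y60.DC
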