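import Pool.Agent.Y60.DC.SpAll
import Pool.Agent.Y60.DC.Clas

/-!
# Kernels whose composition factors are groups of order `p` and classical groups
-/

set_option autoImplicit false

namespace Pool.Agent.Y60.DC

open Pool.Agent.H391R2.T4 (RegSol)
open Pool.Agent.TH59.WX (Indec)

/-- **The recursion**, for any class `S` of finite simple groups. -/
theorem kern_reg_gen (p : ℕ) [Fact p.Prime] (S : ∀ (T : Type) [Group T], Prop)
    (hiso : ∀ (T T' : Type) [Group T] [Group T'], Nonempty (T ≃* T') → S T → S T')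
    (hsimple : ∀ (T : Type) [Group T], S T → IsSimpleGroup T)
    (hgood : ∀ (T : Type) [Group T], S T →
      Nat.card T = p ∨ (Finite T ∧ Subgroup.center T = ⊥ ∧ GoodKerP p T))
    (n : ℕ) : ∀ (K L X : Type) [Field K] [CharP K p]
    [Infinite K] [Field L] [Algebra K L] [FiniteDimensional K L] [IsGalois K L] [Group X]
    [Finite X] (α : X →* (L ≃ₐ[K] L)), Function.Surjective α → CompIn S α.ker →
    Nat.card α.ker = n → RegSol K L X α := by
  induction n using Nat.strong_induction_on with
  | _ n ih =>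
  intro K L X _ _ _ _ _ _ _ _ _ α hα hc hcard
  by_cases hbot : α.ker = ⊥
  · exact reg_bot K L X α hα hbot
  obtain ⟨A, hA1, hA2, hA3, ⟨T, iT, m, hT, ⟨e⟩⟩, hA5⟩ :=
    Pool.Agent.Y419.DC.cf_holds S (fun T T' _ _ h h' => hiso T T' h h')
      (fun T _ h => hsimple T h) X α.ker hbot hc
  refine reg_two p K L X α A hA2 ?_ ?_
  · intro β hβ
    have hβs : Function.Surjective β := fun σ => by
      obtain ⟨x, rfl⟩ := hα σ
      exact ⟨_, hβ x⟩
    have hmap : β.ker = α.ker.map (QuotientGroup.mk' A) := by
      ext y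
      obtain ⟨x, rfl⟩ := QuotientGroup.mk_surjective y
      rw [MonoidHom.mem_ker, hβ, Subgroup.mem_map]
      constructor
      · intro h
        exact ⟨x, h, rfl⟩
      · rintro ⟨z, hz, hzx⟩
        rw [← hβ, ← show β (QuotientGroup.mk z) = β (QuotientGroup.mk x) from congrArg β hzx, hβ]
        exact hz
    have hq : Function.Surjective ((QuotientGroup.mk' A).subgroupMap α.ker) :=
      MonoidHom.subgroupMap_surjective _ _
    rw [← hmap] at hA5
    refine ih (Nat.card β.ker) ?_ K L (X ⧸ A) β hβs hA5 rfl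
    rw [← hcard, hmap]
    refine lt_of_le_of_ne (Nat.card_le_card_of_surjective _ hq) fun h => ?_
    have hinj : Function.Injective ((QuotientGroup.mk' A).subgroupMap α.ker) :=
      (Function.Surjective.bijective_of_nat_card_le hq (le_of_eq h.symm)).1
    obtain ⟨a, ha, ha1⟩ := A.bot_or_exists_ne_one.resolve_left hA3
    apply ha1
    have h5 : (⟨a, hA2 ha⟩ : α.ker) = 1 := by
      apply hinj
      apply Subtype.ext
      exact (QuotientGroup.eq_one_iff a).2 ha
    exact congrArg Subtype.val h5
  · intro M _ _ _ _ _ _ β hβ hβk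
    rcases hgood T hT with hTp | ⟨hfin, hZ, hg0⟩
    · have hpA : IsPGroup p A := by
        refine IsPGroup.of_card (n := m) ?_
        rw [Nat.card_congr e.toEquiv, Nat.card_pi]
        simp [hTp]
      have hpβ : IsPGroup p β.ker := by
        rw [hβk]
        exact hpA
      exact pgroup_reg p _ (RatFunc K) M X β hβ hpβ rfl
    · have hs : IsSimpleGroup T := hsimple T hT
      have hg : GoodKerP p (∀ _ : Fin m, T) := Pool.Agent.Y563.DC.prodP_holds p (Fin m)
        (fun _ => T) (fun _ => indec_of_simple _ hZ) (fun _ => hs.toNontrivial) (fun _ => hg0)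
      refine hg (RatFunc K) M X β hβ ⟨?_⟩
      exact (MulEquiv.subgroupCongr hβk).trans e

/-- The composition factors which are allowed:
* groups of order `p`,
* `PSL_2(F)`, `F` a field with `p ^ k ≥ 4` elements, `k` odd if `p ≠ 2`,
* `PSL_n(F)`, `F` a finite field of characteristic `p`, `n ≥ 3` prime to `|F| - 1`,
* `PSp_2n(F)`, `F` a field with `p ^ k` elements, where `n ≥ 2` and `k` is odd if `p ≠ 2`, and
  `n ≥ 3` if `p = 2`,
* all simple groups `T` with trivial centre such that `IsClassical p T`. -/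
def FacC (p : ℕ) [Fact p.Prime] (T : Type) [Group T] : Prop :=
  FacS p T ∨ (IsSimpleGroup T ∧ Subgroup.center T = ⊥ ∧ IsClassical p T)

theorem center_iso {T T' : Type} [Group T] [Group T'] (e : T ≃* T')
    (h : Subgroup.center T = ⊥) : Subgroup.center T' = ⊥ := by
  rw [eq_bot_iff]
  intro x hx
  have h1 : e.symm x ∈ Subgroup.center T := by
    rw [Subgroup.mem_center_iff]
    intro g
    apply e.injective
    rw [map_mul, map_mul, e.apply_symm_apply]
    exact Subgroup.mem_center_iff.1 hx (e g)
  rw [h, Subgroup.mem_bot] at h1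
  rw [Subgroup.mem_bot, ← e.apply_symm_apply x, h1, map_one]

theorem conj_iso {T T' : Type} [Group T] [Group T'] (e : T ≃* T') :
    ((MulAut.congr e : MulAut T ≃* MulAut T') : MulAut T →* MulAut T').comp
      (MulAut.conj : T →* MulAut T) = (MulAut.conj : T' →* MulAut T').comp (e : T →* T') := by
  apply MonoidHom.ext
  intro t
  apply MulEquiv.ext
  intro x
  change e (t * e.symm x * t⁻¹) = e t * x * (e t)⁻¹
  rw [map_mul, map_mul, e.apply_symm_apply, map_inv]

theorem IsClassical.iso {p : ℕ} [Fact p.Prime] {T T' : Type} [Group T] [Group T'] (e : T ≃* T')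
    (h : IsClassical p T) : IsClassical p T' := by
  obtain ⟨R, iR, jR, sR, fR, h1, π, C, iC, c, ρ, hπ, hc, hT, hρ, hcπ⟩ := h
  let E : MulAut T ≃* MulAut T' := MulAut.congr e
  refine ⟨R, iR, jR, sR, fR, h1, (e : T →* T').comp π, C, iC, (E : MulAut T →* MulAut T').comp c,
    ρ, e.surjective.comp hπ, E.injective.comp hc, ?_, hρ, fun x u v huv => ?_⟩
  · have h2 : ((E : MulAut T →* MulAut T').comp c).range =
        c.range.map (E : MulAut T →* MulAut T') := by rw [MonoidHom.range_comp]
    have h3 : (MulAut.conj : T' →* MulAut T').range =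
        (MulAut.conj : T →* MulAut T).range.map (E : MulAut T →* MulAut T') := by
      rw [← MonoidHom.range_comp]
      have h4 := conj_iso e
      have h5 : ((MulAut.conj : T' →* MulAut T').comp (e : T →* T')).range =
          (MulAut.conj : T' →* MulAut T').range := by
        rw [MonoidHom.range_comp, MonoidHom.range_eq_top.2 e.surjective, ← MonoidHom.range_eq_map]
      rw [← h5, ← h4]
    rw [h2, h3]
    have h6 := (E.mapSubgroup : Subgroup (MulAut T) ≃o Subgroup (MulAut T')).isCompl hT
    exact h6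
  · change e (c x (e.symm (e (π u)))) = e (π v)
    rw [e.symm_apply_apply, hcπ x u v huv]

theorem FacC.iso (p : ℕ) [Fact p.Prime] (T T' : Type) [Group T] [Group T']
    (e : Nonempty (T ≃* T')) (h : FacC p T) : FacC p T' := by
  rcases h with h | ⟨h1, h2, h3⟩
  · exact Or.inl (FacS.iso p T T' e h)
  · obtain ⟨e⟩ := e
    exact Or.inr ⟨e.symm.isSimpleGroup, center_iso e h2, h3.iso e⟩

theorem FacC.simple (p : ℕ) [Fact p.Prime] (T : Type) [Group T] (h : FacC p T) :
    IsSimpleGroup T := by
  rcases h with h | ⟨h1, -, -⟩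
  · exact facS_simple p T h
  · exact h1

theorem finite_of_classical {p : ℕ} [Fact p.Prime] {T : Type} [Group T] (h : IsClassical p T) :
    Finite T := by
  obtain ⟨R, iR, jR, sR, fR, h1, π, C, iC, c, ρ, hπ, -⟩ := h
  have hfin : Finite (unitary0 p R h1) := inferInstance
  exact Finite.of_surjective π hπ

theorem FacC.good (p : ℕ) [Fact p.Prime] (T : Type) [Group T] (h : FacC p T) :
    Nat.card T = p ∨ (Finite T ∧ Subgroup.center T = ⊥ ∧ GoodKerP p T) := by
  rcases h with ((h | ⟨F, iF, k, h1, h2, h3, ⟨f⟩⟩ | ⟨F, iF, jF, cF, k, h1, h2, ⟨f⟩⟩) |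
      ⟨F, iF, jF, n, k, h1, h2, ⟨f⟩⟩) | ⟨h1, h2, h3⟩
  · exact Or.inl h
  · right
    have hfF : Finite F := (Nat.card_pos_iff.1 (by omega)).2
    have hfin : Finite (Matrix.SpecialLinearGroup (Fin 2) F) := inferInstance
    have hfin2 : Finite (PSL2 F) := Finite.of_surjective _ QuotientGroup.mk_surjective
    refine ⟨Finite.of_equiv _ f.symm.toEquiv, center_iso f.symm (psl_center F h1), ?_⟩
    intro K L X _ _ _ _ _ _ _ _ α hα ⟨e⟩
    exact good_psl Pool.Agent.Y287.DC.aut_holds (Pool.Agent.Y461.DC.compl_holds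
      Pool.Agent.Y287.DC.aut_holds) Pool.Agent.Y461.DC.cent_holds p F k h1 h2 h3 K L X α hα
      ⟨e.trans f⟩
  · right
    have hfin : Finite (SLn k F) := inferInstance
    let f' : T ≃* SLn k F := f.trans (psln_equiv h1 h2).symm
    refine ⟨Finite.of_equiv _ f'.symm.toEquiv, center_iso f'.symm (sln_center h1 h2), ?_⟩
    intro K L X _ _ _ _ _ _ _ _ α hα ⟨e⟩
    exact good_sln autn_all (Pool.Agent.Y419.DCN.compln_holds autn_all)
      Pool.Agent.Y461.DC.cent_holds p F k h1 h2 K L X α hα ⟨e.trans f'⟩
  · right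
    obtain ⟨hcn, hck⟩ := facS_cond h1 h2
    have hfin : Finite (SpM n F) := inferInstance
    have hfin2 : Finite (PSpM n F) := Finite.of_surjective _ QuotientGroup.mk_surjective
    refine ⟨Finite.of_equiv _ f.symm.toEquiv, center_iso f.symm
      (psp_center Pool.Agent.Y665.SPE.eqv_holds Pool.Agent.Y195.DSP.cen_holds), ?_⟩
    intro K L X _ _ _ _ _ _ _ _ α hα ⟨e⟩
    exact good_psp_all p F n k hcn h1 hck K L X α hα ⟨e.trans f⟩
  · exact Or.inr ⟨finite_of_classical h3, h2, good_classical p T h2 h3⟩

/-- Embedding problems over infinite fields of characteristic `p` whose kernel has composition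
factors in `FacC p`. -/
theorem regC_inf (p : ℕ) [Fact p.Prime] (K L X : Type) [Field K] [CharP K p]
    [Infinite K] [Field L] [Algebra K L] [FiniteDimensional K L] [IsGalois K L] [Group X]
    [Finite X] (α : X →* (L ≃ₐ[K] L)) (hα : Function.Surjective α)
    (h : CompIn (FacC p) α.ker) : RegSol K L X α :=
  kern_reg_gen p (fun T _ => FacC p T) (fun T T' _ _ e h => FacC.iso p T T' e h)
    (fun T _ h => FacC.simple p T h) (fun T _ h => FacC.good p T h) _ K L X α hα h rfl

end Pool.Agent.Y60.DC
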