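import Pool.Agent.Y60.DC.RecN
import Pool.Agent.H463R3.PSLn
import Pool.Agent.Y165.DCN.Syl
import Pool.Agent.Y759.DCN.Type
import Pool.Agent.Y362.DCN.Semi
import Pool.Agent.Y195.DCN.Fin
import Pool.Agent.Y331.DCN.AutN
import Pool.Agent.Y419.DCN.ComplN
import Pool.Agent.Y287.DC.Aut
import Pool.Agent.Y419.DC.CF
import Pool.Agent.Y563.DC.Prod
import Pool.Agent.Y461.DC.Compl
import Pool.Agent.Y461.DC.Cent
import Pool.Agent.TH444.TW.Fin

/-!
# The class of epimorphisms in characteristic `p`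
-/

set_option autoImplicit false

namespace Pool.Agent.Y60.DC

open Pool.Agent.H391R2 Pool.Agent.H391R2.T4
open Pool.Agent.TH15.IGP (StepSol Lim)
open Pool.Agent.TH444.TW (Cls RSK infinite_ratFunc infinite_of_hilb)

theorem autn_all : TaskAUTN :=
  Pool.Agent.Y331.DCN.autn_holds Pool.Agent.Y165.DCN.syl_holds Pool.Agent.Y759.DCN.type_holds
    (Pool.Agent.Y195.DCN.fin_holds Pool.Agent.Y362.DCN.semi_holds)

theorem simpleN_all : SimpleN := by
  intro F _ _ n hn
  exact Pool.Agent.H463R3.PSLn.isSimpleGroup_PSL (ι := Fin n) (F := F) (by simpa using hn)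

/-- Embedding problems over infinite fields of characteristic `p` whose kernel has composition
factors in `FacN p`. -/
theorem reg_inf (p : ℕ) [Fact p.Prime] (K L X : Type) [Field K] [CharP K p]
    [Infinite K] [Field L] [Algebra K L] [FiniteDimensional K L] [IsGalois K L] [Group X]
    [Finite X] (α : X →* (L ≃ₐ[K] L)) (hα : Function.Surjective α)
    (h : CompIn (FacN p) α.ker) : RegSol K L X α :=
  kern_regN Pool.Agent.Y287.DC.aut_holds (Pool.Agent.Y461.DC.compl_holds
    Pool.Agent.Y287.DC.aut_holds) Pool.Agent.Y461.DC.cent_holds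
    Pool.Agent.Y563.DC.prodP_holds Pool.Agent.Y419.DC.cf_holds autn_all
    (Pool.Agent.Y419.DCN.compln_holds autn_all) simpleN_all p _ K L X α hα h rfl

/-- The class `ClsP p K` of homomorphisms of groups. -/
inductive ClsP (p : ℕ) (K : Type) [Field K] :
    ∀ {W W' : Type} [Group W] [Group W'], (W' →* W) → Prop
  /-- the class `Cls K` -/
  | base {W W' : Type} [Group W] [Group W'] (π : W' →* W) (h : Cls K π) : ClsP p K π
  /-- arbitrary epimorphisms whose kernel has composition factors in `FacN p` -/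
  | fac {W W' : Type} [Group W] [Group W'] (π : W' →* W) (hs : Function.Surjective π)
      (hfin : Finite π.ker) (h : CompIn (FacN p) π.ker) : ClsP p K π
  /-- compositions -/
  | comp {W W' W'' : Type} [Group W] [Group W'] [Group W''] (π : W' →* W) (q : W'' →* W')
      (hp : ClsP p K π) (hq : ClsP p K q) : ClsP p K (π.comp q)
  /-- quotients -/
  | quot {W W' W'' : Type} [Group W] [Group W'] [Group W''] (π : W' →* W) (q : W'' →* W')
      (hq : Function.Surjective q) (hpq : ClsP p K (π.comp q)) : ClsP p K π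

variable {K : Type} [Field K]

theorem ClsP.main (p : ℕ) [Fact p.Prime] [CharP K p] {W W' : Type} [Group W] [Group W']
    {π : W' →* W} (h : ClsP p K π) : Finite W → Finite W' ∧ RSK K π := by
  induction h with
  | base π h =>
    intro hW
    exact h.main hW
  | fac π hs hfin h =>
    intro hW
    have hW' : Finite _ := Pool.Agent.TH444.TW.finite_of_ker π
    refine ⟨hW', ?_⟩
    intro K' M _ _ _ _ _ _ _ ε
    have hc : CharP K' p := charP_of_injective_algebraMap (algebraMap K K').injective p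
    refine reg_inf p K' M _ _ (ε.symm.surjective.comp hs) ?_
    have h1 : (ε.symm.toMonoidHom.comp π).ker = π.ker := by
      ext x
      rw [MonoidHom.mem_ker, MonoidHom.mem_ker]
      exact map_eq_one_iff ε.symm ε.symm.injective
    rw [h1]
    exact h
  | comp π q hp hq ihp ihq =>
    intro hW
    obtain ⟨h1, h2⟩ := ihp hW
    obtain ⟨h3, h4⟩ := ihq h1
    exact ⟨h3, RSK.comp h2 h4⟩
  | quot π q hq hpq ih =>
    intro hW
    obtain ⟨h1, h2⟩ := ih hW
    exact ⟨Finite.of_surjective q hq, RSK.quot q hq (fun x => rfl) h2⟩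

theorem towerP_finite (p : ℕ) [Fact p.Prime] [CharP K p] (W : ℕ → Type) [∀ i, Group (W i)]
    (π : ∀ i, W (i + 1) →* W i) (hp : ∀ i, ClsP p K (π i)) (h0 : Finite (W 0)) :
    ∀ i, Finite (W i) := by
  intro i
  induction i with
  | zero => exact h0
  | succ i ih => exact ((hp i).main p ih).1

/-- Finite embedding problems. -/
theorem clsP_one (p : ℕ) [Fact p.Prime] (K L X : Type) [Field K] [CharP K p] [Field L]
    [Algebra K L] [FiniteDimensional K L] [IsGalois K L] [Group X] (α : X →* (L ≃ₐ[K] L))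
    (h : ClsP p K α) : Finite X ∧ RegSol K L X α := by
  obtain ⟨h1, h2⟩ := h.main p inferInstance
  refine ⟨h1, ?_⟩
  have h3 := h2.all L (MulEquiv.refl _)
  exact h3

/-- Regular towers over `K(t)`. -/
theorem clsP_regular (p : ℕ) [Fact p.Prime] (K L : Type) [Field K] [CharP K p] [Field L]
    [Algebra K L] [FiniteDimensional K L]
    [IsGalois K L] (W : ℕ → Type) [∀ i, Group (W i)] (π : ∀ i, W (i + 1) →* W i)
    (hp : ∀ i, ClsP p K (π i)) (e₀ : W 0 ≃* (L ≃ₐ[K] L)) :
    ∃ (F : Type) (_ : Field F) (_ : Algebra (RatFunc K) F) (_ : Algebra L F)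
      (_ : Algebra K F) (_ : IsScalarTower K (RatFunc K) F) (_ : IsScalarTower K L F)
      (_ : IsGalois (RatFunc K) F) (γ : (F ≃ₐ[RatFunc K] F) ≃* Lim π),
      (∀ i, IsOpen {σ : F ≃ₐ[RatFunc K] F | (γ σ).1 i = 1}) ∧
      (∀ (σ : F ≃ₐ[RatFunc K] F) (x : L),
        σ (algebraMap L F x) = algebraMap L F (e₀ ((γ σ).1 0) x)) ∧
      ∀ y : F, IsAlgebraic L y → y ∈ Set.range (algebraMap L F) := by
  have hfin := towerP_finite p W π hp (Finite.of_equiv _ e₀.symm.toEquiv)
  refine Pool.Agent.TH377.IG.tower_regular K L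
    (fun Ω _ _ _ _ _ _ j => Pool.Agent.TH377.IG.regStep K L Ω j) W π (fun i => ?_) e₀
  intro M _ _ _ _ ε
  have := infinite_ratFunc K
  exact ((hp i).main p (hfin i)).2 (RatFunc K) M ε

/-- Towers over fields with the specialisation property. -/
theorem clsP_spec (p : ℕ) [Fact p.Prime] {K : Type} [Field K] [CharP K p] [Infinite K]
    (hK : Pool.Agent.TH377.IG.SpecProp K)
    (W : ℕ → Type) [∀ i, Group (W i)] (π : ∀ i, W (i + 1) →* W i) (hp : ∀ i, ClsP p K (π i))
    (L : Type) [Field L] [Algebra K L] [FiniteDimensional K L] [IsGalois K L]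
    (e₀ : W 0 ≃* (L ≃ₐ[K] L)) :
    ∃ (F : Type) (_ : Field F) (_ : Algebra K F) (_ : Algebra L F) (_ : IsScalarTower K L F)
      (_ : IsGalois K F) (γ : (F ≃ₐ[K] F) ≃* Lim π),
      (∀ i, IsOpen {σ : F ≃ₐ[K] F | (γ σ).1 i = 1}) ∧
      ∀ (σ : F ≃ₐ[K] F) (x : L),
        σ (algebraMap L F x) = algebraMap L F (e₀ ((γ σ).1 0) x) := by
  have hfin := towerP_finite p W π hp (Finite.of_equiv _ e₀.symm.toEquiv)
  exact Pool.Agent.TH377.IG.tower_spec hK W π
    (fun i M _ _ _ _ ε => ((hp i).main p (hfin i)).2 K M ε) L e₀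

/-- Towers over Hilbertian fields. -/
theorem clsP_hilb (p : ℕ) [Fact p.Prime] {K : Type} [Field K] [CharP K p] (hK : HilbField K)
    (W : ℕ → Type) [∀ i, Group (W i)] (π : ∀ i, W (i + 1) →* W i) (hp : ∀ i, ClsP p K (π i))
    (L : Type) [Field L] [Algebra K L] [FiniteDimensional K L] [IsGalois K L]
    (e₀ : W 0 ≃* (L ≃ₐ[K] L)) :
    ∃ (F : Type) (_ : Field F) (_ : Algebra K F) (_ : Algebra L F) (_ : IsScalarTower K L F)
      (_ : IsGalois K F) (γ : (F ≃ₐ[K] F) ≃* Lim π),
      (∀ i, IsOpen {σ : F ≃ₐ[K] F | (γ σ).1 i = 1}) ∧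
      ∀ (σ : F ≃ₐ[K] F) (x : L),
        σ (algebraMap L F x) = algebraMap L F (e₀ ((γ σ).1 0) x) := by
  have := infinite_of_hilb hK
  exact clsP_spec p (Pool.Agent.TH377.IG.spec_hilb hK) W π hp L e₀

/-- Proper solutions over fields with the specialisation property. -/
theorem clsP_spec_one (p : ℕ) [Fact p.Prime] {K : Type} [Field K] [CharP K p]
    (hK : Pool.Agent.TH377.IG.SpecProp K) (L X : Type) [Field L]
    [Algebra K L] [FiniteDimensional K L] [IsGalois K L] [Group X] (α : X →* (L ≃ₐ[K] L))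
    (h : ClsP p K α) :
    ∃ (F : Type) (_ : Field F) (_ : Algebra K F) (_ : Algebra L F)
          (_ : IsScalarTower K L F),
          FiniteDimensional K F ∧ IsGalois K F ∧
          ∃ γ : (F ≃ₐ[K] F) ≃* X, ∀ σ : F ≃ₐ[K] F, α (γ σ) = σ.restrictNormal L := by
  obtain ⟨h1, F, i1, i2, i3, i4, i5, i6, i7, i8, γ, hγ, -⟩ := clsP_one p K L X α h
  exact hK L X α ⟨F, i1, i2, i3, i4, i5, i6, i7, i8, γ, hγ⟩

/-- Towers over rational function fields over finite fields. -/
theorem clsP_ratFunc (p : ℕ) [Fact p.Prime] (κ : Type) [Field κ] [Finite κ] [CharP κ p]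
    (W : ℕ → Type) [∀ i, Group (W i)] (π : ∀ i, W (i + 1) →* W i)
    (hp : ∀ i, ClsP p (RatFunc κ) (π i))
    (L : Type) [Field L] [Algebra (RatFunc κ) L] [FiniteDimensional (RatFunc κ) L]
    [IsGalois (RatFunc κ) L] (e₀ : W 0 ≃* (L ≃ₐ[RatFunc κ] L)) :
    ∃ (F : Type) (_ : Field F) (_ : Algebra (RatFunc κ) F) (_ : Algebra L F)
      (_ : IsScalarTower (RatFunc κ) L F) (_ : IsGalois (RatFunc κ) F)
      (γ : (F ≃ₐ[RatFunc κ] F) ≃* Lim π),
      (∀ i, IsOpen {σ : F ≃ₐ[RatFunc κ] F | (γ σ).1 i = 1}) ∧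
      ∀ (σ : F ≃ₐ[RatFunc κ] F) (x : L),
        σ (algebraMap L F x) = algebraMap L F (e₀ ((γ σ).1 0) x) := by
  have := infinite_ratFunc κ
  have := charP_ratFunc κ p
  exact clsP_spec p (Pool.Agent.TH377.IG.spec_ratFunc κ) W π hp L e₀

/-- Groups over `F_p(X)`. -/
theorem occurs_of_compIn (p : ℕ) [Fact p.Prime] (G : Type) [Group G] [Finite G]
    (h : CompIn (FacN p) G) :
    ∃ (L : Type) (_ : Field L) (_ : Algebra (RatFunc (ZMod p)) L),
        FiniteDimensional (RatFunc (ZMod p)) L ∧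
        IsGalois (RatFunc (ZMod p)) L ∧
        Nonempty ((L ≃ₐ[RatFunc (ZMod p)] L) ≃* G) := by
  have := charP_ratFunc (ZMod p) p
  let K := RatFunc (ZMod p)
  let α : G →* (K ≃ₐ[K] K) := 1
  have hα : Function.Surjective α := fun σ => ⟨1, by
    ext x
    exact (σ.commutes x).symm⟩
  have e : G ≃* α.ker := (Subgroup.topEquiv.symm).trans (MulEquiv.subgroupCongr (by
    ext x
    simp [α]))
  obtain ⟨F, i1, i2, -, -, i5, i6, γ, -⟩ := clsP_spec_one p
    (Pool.Agent.TH377.IG.spec_ratFunc (ZMod p)) K G α (ClsP.fac α hα inferInstance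
      (Pool.Agent.Y419.DC.quot (fun T T' _ _ h h' => FacN.iso p T T' h h')
        (fun T _ h => FacN.simple simpleN_all p T h) h _ e.toMonoidHom e.surjective))
  exact ⟨F, i1, i2, i5, i6, ⟨γ⟩⟩

end Pool.Agent.Y60.DC
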