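import Pool.Agent.Y60.DC.Def
import Pool.Agent.Y60.DC.Good

/-!
# Task statements of the project DC, second batch (NOT results)
-/

set_option autoImplicit false

namespace Pool.Agent.Y60.DC

open Pool.Agent.H391R2.T4 (RegSol)

/-- DC-COMPL: the inner automorphisms of `PSL_2(F)` have a complement in the automorphism group, if
`F` has characteristic two or odd degree over its prime field. -/
def TaskCOMPL : Prop :=
  ∀ (F : Type) [Field F] [Finite F] (p k : ℕ), p.Prime → 4 ≤ Nat.card F → Nat.card F = p ^ k →
    (p = 2 ∨ Odd k) →
    ∃ T : Subgroup (MulAut (PSL2 F)), IsCompl T (MulAut.conj : PSL2 F →* MulAut (PSL2 F)).range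

/-- Split embedding problems with kernel `G` and arbitrary action, over infinite fields of
characteristic `p`, have regular solutions. -/
def LocP (p : ℕ) (G : Type) [Group G] : Prop :=
  ∀ (K L : Type) [Field K] [CharP K p] [Infinite K] [Field L] [Algebra K L]
    [FiniteDimensional K L] [IsGalois K L] (β : (L ≃ₐ[K] L) →* MulAut G),
    RegSol K L (G ⋊[β] (L ≃ₐ[K] L)) SemidirectProduct.rightHom

/-- DC-CENT: from split embedding problems to all embedding problems, for groups with trivial
centre whose inner automorphisms have a complement. -/
def TaskCENT : Prop :=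
  ∀ (p : ℕ) (G : Type) [Group G] [Finite G], Subgroup.center G = ⊥ →
    (∃ T : Subgroup (MulAut G), IsCompl T (MulAut.conj : G →* MulAut G).range) →
    LocP p G → GoodKerP p G

end Pool.Agent.Y60.DC
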