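import Pool.Agent.Y60.DC.ClsU
import Pool.Agent.Y60.DC.Stm3
import Pool.Agent.Y60.DC.Comp

/-!
# The class of homomorphisms with unitary kernels: towers
-/

set_option autoImplicit false

namespace Pool.Agent.Y60.DC

open Pool.Agent.H391R2 Pool.Agent.H391R2.T4
open Pool.Agent.TH15.IGP (StepSol Lim)
open Pool.Agent.TH444.TW (Cls RSK infinite_ratFunc infinite_of_hilb exists_sdEquiv pow_rsk powAct
  LocK)

/-- `π : W' → W` is the projection of a semidirect product `A^k ⋊ W`, where `W` acts through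
a homomorphism `ψ : W → Aut(A) ≀ S_k`: there are an isomorphism `ι` of `A^k` onto the kernel
of `π` and a homomorphic section `s` of `π`, and `s w` acts on the kernel by
`x ↦ (c_i (x_(τ⁻¹ i)))_i`, where `ψ w = (c, τ)`. -/
def IsAutPower (A : Type) [Group A] {W W' : Type} [Group W] [Group W'] (π : W' →* W) : Prop :=
  ∃ (k : ℕ) (ψ : W →* Wr (MulAut A) k) (ι : (Fin k → A) →* W') (s : W →* W'),
    Function.Injective ι ∧ ι.range = π.ker ∧ (∀ w, π (s w) = w) ∧
    ∀ w x, s w * ι x = ι (fun i => (ψ w).left i (x ((ψ w).right⁻¹ i))) * s w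

theorem autPower_rsk (p : ℕ) [Fact p.Prime] (K : Type) [Field K] [CharP K p] (A : Type) [Group A]
    [Finite A] (hA : LocP p A) {W W' : Type} [Group W] [Finite W] [Group W'] (π : W' →* W)
    (hp : IsAutPower A π) : RSK K π := by
  obtain ⟨k, ψ, ι, s, hι, hr, hs, hc⟩ := hp
  obtain ⟨e, he⟩ := exists_sdEquiv ((powAct (MonoidHom.id (MulAut A)) k).comp ψ) π ι s hι hr hs
    hc
  have hloc : LocK K (MonoidHom.id (MulAut A)) := by
    intro K' M' _ _ _ _ _ _ _ β
    have hc : CharP K' p := charP_of_injective_algebraMap (algebraMap K K').injective p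
    exact hA K' M' β
  refine RSK.congr (pow_rsk (MonoidHom.id (MulAut A)) ψ hloc) e.symm fun x => ?_
  obtain ⟨y, rfl⟩ := e.surjective x
  rw [MulEquiv.symm_apply_apply]
  exact (he y).symm

end Pool.Agent.Y60.DC
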