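import Pool.Agent.Y60.DC.Lift

/-!
# Split embedding problems with kernel `SL_2(F)` and any action
-/

set_option autoImplicit false

namespace Pool.Agent.Y60.DC

open Pool.Agent.H391R2.T4 (RegSol)
open Matrix (SpecialLinearGroup)

theorem exists_sq (F : Type) [Field F] (hF : 4 ≤ Nat.card F) : ∃ a : F, a ≠ 0 ∧ a ^ 2 ≠ 1 := by
  have : Finite F := (Nat.card_pos_iff.1 (by omega)).2
  obtain ⟨x, hx⟩ : IsCyclic Fˣ := by infer_instance
  refine ⟨x, Units.ne_zero x, fun h ↦ ?_⟩
  grw [Nat.card_eq_card_units_add_one F, ← orderOf_eq_card_of_forall_mem_zpowers hx,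
    orderOf_le_of_pow_eq_one zero_lt_two (Units.ext <| by simpa using h)] at hF
  omega

/-- Two automorphisms of a perfect group which agree modulo the centre are equal. -/
theorem aut_eq_of_quo {G : Type} [Group G] (hG : commutator G = ⊤) (f g : MulAut G)
    (h : ∀ a, (QuotientGroup.mk (f a) : G ⧸ Subgroup.center G) = QuotientGroup.mk (g a)) :
    f = g := by
  have hc : ∀ a, (f a)⁻¹ * g a ∈ Subgroup.center G := fun a => QuotientGroup.eq.1 (h a)
  let c : G →* Subgroup.center G :=
    { toFun := fun a => ⟨(f a)⁻¹ * g a, hc a⟩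
      map_one' := Subtype.ext (by
        change (f 1)⁻¹ * g 1 = 1
        rw [map_one, map_one, inv_one, one_mul])
      map_mul' := fun a b => by
        apply Subtype.ext
        change (f (a * b))⁻¹ * g (a * b) = ((f a)⁻¹ * g a) * ((f b)⁻¹ * g b)
        have h2 := Subgroup.mem_center_iff.1 (hc a) (f b)⁻¹
        rw [map_mul, map_mul, mul_inv_rev]
        calc (f b)⁻¹ * (f a)⁻¹ * (g a * g b) = (f b)⁻¹ * ((f a)⁻¹ * g a) * g b := by
              simp only [mul_assoc]
          _ = ((f a)⁻¹ * g a) * (f b)⁻¹ * g b := by rw [h2]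
          _ = _ := by simp only [mul_assoc] }
  have h1 : commutator G ≤ c.ker := by
    rw [commutator_def, Subgroup.commutator_le]
    intro a _ b _
    rw [MonoidHom.mem_ker, map_commutatorElement, commutatorElement_eq_one_iff_mul_comm]
    exact Subtype.ext (Subgroup.mem_center_iff.1 (c b).2 (c a))
  rw [hG] at h1
  apply MulEquiv.ext
  intro a
  have h2 : c a = 1 := h1 (Subgroup.mem_top a)
  have h3 : (f a)⁻¹ * g a = 1 := congrArg Subtype.val h2
  exact inv_mul_eq_one.1 h3

/-- The automorphism of the quotient by the centre. -/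
def quoAut {G : Type} [Group G] (f : MulAut G) : MulAut (G ⧸ Subgroup.center G) :=
  QuotientGroup.congr (Subgroup.center G) (Subgroup.center G) f
    (Subgroup.characteristic_iff_map_eq.1 inferInstance f)

theorem quoAut_mk {G : Type} [Group G] (f : MulAut G) (a : G) :
    quoAut f (QuotientGroup.mk a) = QuotientGroup.mk (f a) := rfl

/-- **Split embedding problems with kernel `SL_2(F)`.** -/
theorem locS (hA : TaskAUT) (p : ℕ) [Fact p.Prime] (F : Type) [Field F] [Finite F] [CharP F p]
    (hF : 4 ≤ Nat.card F) : LocP p (SpecialLinearGroup (Fin 2) F) := by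
  intro K L _ _ _ _ _ _ _ β
  obtain ⟨a, ha, ha2⟩ := exists_sq F hF
  have hperf : commutator (SpecialLinearGroup (Fin 2) F) = ⊤ :=
    Matrix.SL2.commutator_eq_top ha ha2
  choose lf hlf using exists_islift hA F hF
  let ρ : (L ≃ₐ[K] L) →* (Mt F ≃+* Mt F) :=
    { toFun := fun γ => lf (quoAut (β γ))
      map_one' := by
        refine (hlf _).unique (?_ : IsLift (quoAut (β 1)) 1)
        rw [map_one]
        have h1 : quoAut (1 : MulAut (SpecialLinearGroup (Fin 2) F)) = 1 := by
          apply MulEquiv.ext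
          intro x
          obtain ⟨y, rfl⟩ := QuotientGroup.mk_surjective x
          rfl
        rw [h1]
        exact IsLift.one
      map_mul' := fun γ δ => by
        refine (hlf _).unique (?_ : IsLift (quoAut (β (γ * δ))) _)
        have h1 : quoAut (β (γ * δ)) = quoAut (β γ) * quoAut (β δ) := by
          apply MulEquiv.ext
          intro x
          obtain ⟨y, rfl⟩ := QuotientGroup.mk_surjective x
          rw [map_mul]
          rfl
        rw [h1]
        exact (hlf _).mul (hlf _) }
  have hρ : ∀ γ A, ρ γ (ad A) = ad (ρ γ A) := fun γ => (hlf (quoAut (β γ))).1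
  have h1 : ∀ γ, β γ = slmE (ρ γ) (hρ γ) := fun γ =>
    aut_eq_of_quo hperf _ _ fun a => (quoAut_mk (β γ) a).symm.trans ((hlf (quoAut (β γ))).2 a)
  refine sl_reg p F K L β ρ hρ fun γ n => ?_
  rw [h1 γ]
  rfl

end Pool.Agent.Y60.DC
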