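import Pool.Agent.Y60.DC.RecS
import Pool.Agent.Y60.DC.Cls
import Pool.Agent.Y38.DSP.Gen
import Pool.Agent.Y659.DSP.Syl
import Pool.Agent.Y858.DSP.Syl2
import Pool.Agent.Y329.DSP.Col
import Pool.Agent.Y676.DSP.Ftpg
import Pool.Agent.Y676.DSP.Simple
import Pool.Agent.Y195.DSP.Sim
import Pool.Agent.Y815.DSP.Aut
import Pool.Agent.Y170.DSP.Compl
import Pool.Agent.Y510.DSP.Lift
import Pool.Agent.Y665.SPE.Eqv

/-!
# The symplectic groups: assembly
-/

set_option autoImplicit false

namespace Pool.Agent.Y60.DC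

open Pool.Agent.H391R2.T4 (RegSol)

/-- All automorphisms of central quotients of `Sp_2n(F)` are semilinear similitudes. -/
theorem spLifts_all : SpLifts := fun n F _ _ hn G _ π hπ hk e he f =>
  sp_lifts Pool.Agent.Y665.SPE.eqv_holds Pool.Agent.Y659.DSP.syl_holds
    Pool.Agent.Y858.DSP.syl2_holds
    (Pool.Agent.Y815.DSP.aut_holds Pool.Agent.Y329.DSP.col_holds Pool.Agent.Y676.DSP.ftpg_holds
      Pool.Agent.Y195.DSP.sim_holds (Pool.Agent.Y195.DSP.fin_holds Pool.Agent.Y38.DSP.Gen.gen_holds))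
    Pool.Agent.Y510.DSP.lift_holds n F hn G π hπ hk e he f

/-- Split embedding problems with kernel `Sp_2n(F)`. -/
theorem locSp_all (p : ℕ) [Fact p.Prime] (F : Type) [Field F] [Finite F] [CharP F p] (n : ℕ)
    (hn : SpCond n F) : LocP p (SpM n F) := by
  obtain ⟨e, he⟩ := (Pool.Agent.Y665.SPE.eqv_holds n F).2.1
  refine locSp Pool.Agent.Y665.SPE.eqv_holds Pool.Agent.Y38.DSP.Gen.gen_holds
    Pool.Agent.Y665.SPE.trv_holds Pool.Agent.Y510.DSP.uniq_holds p F n hn.le (SpM n F)
    (MonoidHom.id _) Function.surjective_id (fun s hs => Or.inl ?_)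
    fun f => (spLifts_all n F hn _ (MonoidHom.id _) Function.surjective_id
      (fun s hs => Or.inl ?_) e he f).2
  · exact congrArg Subtype.val hs
  · exact congrArg Subtype.val hs

/-- All embedding problems with kernel `PSp_2n(F)`. -/
theorem good_psp_all (p : ℕ) [Fact p.Prime] (F : Type) [Field F] [Finite F] (n k : ℕ)
    (hn : SpCond n F) (hk : Nat.card F = p ^ k) (hpk : p = 2 ∨ Odd k) : GoodKerP p (PSpM n F) :=
  good_psp Pool.Agent.Y665.SPE.eqv_holds Pool.Agent.Y38.DSP.Gen.gen_holds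
    Pool.Agent.Y665.SPE.trv_holds Pool.Agent.Y510.DSP.uniq_holds Pool.Agent.Y195.DSP.cen_holds
    spLifts_all Pool.Agent.Y170.DSP.compl_holds Pool.Agent.Y461.DC.cent_holds p F n k hn hk hpk

theorem ssimple_all : TaskSSIMPLE :=
  Pool.Agent.Y676.DSP.simple_holds Pool.Agent.Y38.DSP.Gen.gen_holds

theorem facS_simple (p : ℕ) [Fact p.Prime] (T : Type) [Group T] (h : FacS p T) :
    IsSimpleGroup T :=
  FacS.simple simpleN_all Pool.Agent.Y665.SPE.eqv_holds ssimple_all p T h

/-- Embedding problems over infinite fields of characteristic `p` whose kernel has composition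
factors in `FacS p`. -/
theorem regS_inf (p : ℕ) [Fact p.Prime] (K L X : Type) [Field K] [CharP K p]
    [Infinite K] [Field L] [Algebra K L] [FiniteDimensional K L] [IsGalois K L] [Group X]
    [Finite X] (α : X →* (L ≃ₐ[K] L)) (hα : Function.Surjective α)
    (h : CompIn (FacS p) α.ker) : RegSol K L X α :=
  kern_regS Pool.Agent.Y287.DC.aut_holds (Pool.Agent.Y461.DC.compl_holds
    Pool.Agent.Y287.DC.aut_holds) Pool.Agent.Y461.DC.cent_holds
    Pool.Agent.Y563.DC.prodP_holds Pool.Agent.Y419.DC.cf_holds autn_all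
    (Pool.Agent.Y419.DCN.compln_holds autn_all) simpleN_all Pool.Agent.Y665.SPE.eqv_holds
    ssimple_all Pool.Agent.Y195.DSP.cen_holds
    (fun p _ F _ _ n k => good_psp_all p F n k) p _ K L X α hα h rfl

end Pool.Agent.Y60.DC
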