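import Pool.Agent.Y60.DC.ClsU2
import Pool.Agent.Y60.DC.SpAll
import Pool.Agent.Y60.DC.LocS

/-!
# The class of homomorphisms with unitary kernels
-/

set_option autoImplicit false

namespace Pool.Agent.Y60.DC

open Pool.Agent.H391R2 Pool.Agent.H391R2.T4
open Pool.Agent.TH15.IGP (StepSol Lim)
open Pool.Agent.TH444.TW (Cls RSK infinite_ratFunc infinite_of_hilb exists_sdEquiv)

/-- `π : W' → W` is the projection of a semidirect product `Aˣ ⋊ W`, `A` a finite ring of
characteristic `p`, where `W` acts through a homomorphism `ρ` from `W` to the group of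
automorphisms of the ring `A`: there are an isomorphism `ι` of `Aˣ` onto the kernel of `π` and a
homomorphic section `s` of `π`, and `s w` acts on the kernel by `ρ w`. -/
def IsUnits (p : ℕ) [Fact p.Prime] {W W' : Type} [Group W] [Group W'] (π : W' →* W) : Prop :=
  ∃ (A : Type) (_ : Ring A) (_ : Algebra (ZMod p) A) (_ : Finite A) (ρ : W →* (A ≃+* A))
    (ι : Aˣ →* W') (s : W →* W'),
    Function.Injective ι ∧ ι.range = π.ker ∧ (∀ w, π (s w) = w) ∧
    ∀ (w : W) (x y : Aˣ), (y : A) = ρ w (x : A) → s w * ι x = ι y * s w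

/-- Semidirect products with unit groups are semidirect products with unitary groups. -/
theorem units_isUnitary (p : ℕ) [Fact p.Prime] {W W' : Type} [Group W] [Group W'] (π : W' →* W)
    (h : IsUnits p π) : IsUnitary p π := by
  obtain ⟨A, iA, jA, fA, ρ, ι, s, hι, hr, hs, hc⟩ := h
  have hh : ∃ z : Dbl A, z + star z = 1 := ⟨dmk 1 0, dbl_half⟩
  -- automorphisms of the double
  let ρ' : W →* (Dbl A ≃+* Dbl A) :=
    { toFun := fun w =>
        { toFun := fun x => dmk (ρ w (d₁ x)) (ρ w (d₂ x))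
          invFun := fun x => dmk ((ρ w).symm (d₁ x)) ((ρ w).symm (d₂ x))
          left_inv := fun x => dbl_ext ((ρ w).symm_apply_apply _) ((ρ w).symm_apply_apply _)
          right_inv := fun x => dbl_ext ((ρ w).apply_symm_apply _) ((ρ w).apply_symm_apply _)
          map_mul' := fun x y => dbl_ext (map_mul (ρ w) _ _) (map_mul (ρ w) _ _)
          map_add' := fun x y => dbl_ext (map_add (ρ w) _ _) (map_add (ρ w) _ _) }
      map_one' := by
        apply RingEquiv.ext
        intro x
        change dmk (ρ 1 (d₁ x)) (ρ 1 (d₂ x)) = x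
        rw [map_one]
        rfl
      map_mul' := fun w w' => by
        apply RingEquiv.ext
        intro x
        change dmk (ρ (w * w') (d₁ x)) (ρ (w * w') (d₂ x)) =
          dmk (ρ w (ρ w' (d₁ x))) (ρ w (ρ w' (d₂ x)))
        rw [map_mul]
        rfl }
  -- from the unitary group to the units
  let j : unitary0 p (Dbl A) hh →* Aˣ :=
    { toFun := fun x => ⟨d₁ ((x : unitary (Dbl A)) : Dbl A), d₂ ((x : unitary (Dbl A)) : Dbl A),
        ((mem_unitary_dbl _).1 (x : unitary (Dbl A)).2).1,
        ((mem_unitary_dbl _).1 (x : unitary (Dbl A)).2).2⟩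
      map_one' := Units.ext rfl
      map_mul' := fun x y => Units.ext rfl }
  have hj1 : Function.Injective j := by
    intro x y hxy
    apply Subtype.ext
    apply Subtype.ext
    have h1 : d₁ ((x : unitary (Dbl A)) : Dbl A) = d₁ ((y : unitary (Dbl A)) : Dbl A) :=
      congrArg Units.val hxy
    have h2 : d₂ ((x : unitary (Dbl A)) : Dbl A) = d₂ ((y : unitary (Dbl A)) : Dbl A) :=
      congrArg Units.inv hxy
    exact dbl_ext h1 h2
  have hj2 : Function.Surjective j := by
    intro u
    have hu : dmk (u : A) ((u⁻¹ : Aˣ) : A) ∈ unitary (Dbl A) := by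
      rw [mem_unitary_dbl]
      exact ⟨Units.mul_inv u, Units.inv_mul u⟩
    exact ⟨⟨⟨_, hu⟩, (dbl_conn (p := p) _ hu).some⟩, Units.ext rfl⟩
  refine ⟨Dbl A, inferInstance, inferInstance, inferInstance, inferInstance, hh, ρ', ι.comp j, s,
    fun w a => rfl, hι.comp hj1, ?_, hs, fun w x y hxy => ?_⟩
  · rw [← hr]
    ext x
    constructor
    · rintro ⟨y, rfl⟩
      exact ⟨j y, rfl⟩
    · rintro ⟨y, rfl⟩
      obtain ⟨z, rfl⟩ := hj2 y
      exact ⟨z, rfl⟩
  · refine hc w (j x) (j y) ?_
    exact congrArg d₁ hxy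

/-- The class `ClsU p K` of homomorphisms of groups. -/
inductive ClsU (p : ℕ) [Fact p.Prime] (K : Type) [Field K] :
    ∀ {W W' : Type} [Group W] [Group W'], (W' →* W) → Prop
  /-- the class `Cls K` -/
  | base {W W' : Type} [Group W] [Group W'] (π : W' →* W) (h : Cls K π) : ClsU p K π
  /-- `Aˣ ⋊ W → W`, `A` a finite ring of characteristic `p` -/
  | units {W W' : Type} [Group W] [Group W'] (π : W' →* W) (h : IsUnits p π) : ClsU p K π
  /-- `U⁰(R) ⋊ W → W`, `R` a finite ring of characteristic `p` with an involution -/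
  | unitary {W W' : Type} [Group W] [Group W'] (π : W' →* W) (h : IsUnitary p π) : ClsU p K π
  /-- `SL_2(F)^k ⋊ W → W` -/
  | sl2 {W W' : Type} [Group W] [Group W'] (π : W' →* W) (F : Type) [Field F] [Finite F]
      [CharP F p] (hF : 4 ≤ Nat.card F) (h : IsAutPower (Matrix.SpecialLinearGroup (Fin 2) F) π) :
      ClsU p K π
  /-- `SL_n(F)^k ⋊ W → W` -/
  | sln {W W' : Type} [Group W] [Group W'] (π : W' →* W) (F : Type) [Field F] [Finite F]
      [CharP F p] (n : ℕ) (hn : 3 ≤ n) (hc : Nat.Coprime n (Nat.card F - 1))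
      (h : IsAutPower (Matrix.SpecialLinearGroup (Fin n) F) π) : ClsU p K π
  /-- `Sp_2n(F)^k ⋊ W → W` -/
  | sp {W W' : Type} [Group W] [Group W'] (π : W' →* W) (F : Type) [Field F] [Finite F]
      [CharP F p] (n : ℕ) (hn : (p ≠ 2 ∧ 2 ≤ n) ∨ 3 ≤ n)
      (h : IsAutPower (Matrix.symplecticGroup (Fin n) F) π) : ClsU p K π
  /-- compositions -/
  | comp {W W' W'' : Type} [Group W] [Group W'] [Group W''] (π : W' →* W) (q : W'' →* W')
      (hp : ClsU p K π) (hq : ClsU p K q) : ClsU p K (π.comp q)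
  /-- quotients -/
  | quot {W W' W'' : Type} [Group W] [Group W'] [Group W''] (π : W' →* W) (q : W'' →* W')
      (hq : Function.Surjective q) (hpq : ClsU p K (π.comp q)) : ClsU p K π

theorem isAutPower_finite {A : Type} [Group A] [Finite A] {W W' : Type} [Group W] [Finite W]
    [Group W'] (π : W' →* W) (h : IsAutPower A π) : Finite W' := by
  obtain ⟨k, ψ, ι, s, hι, hr, hs, hc⟩ := h
  have h1 : Finite ι.range := Set.finite_range ι
  rw [hr] at h1
  exact Pool.Agent.TH444.TW.finite_of_ker π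

theorem isUnitary_finite {p : ℕ} [Fact p.Prime] {W W' : Type} [Group W] [Finite W]
    [Group W'] (π : W' →* W) (h : IsUnitary p π) : Finite W' := by
  obtain ⟨R, iR, jR, sR, fR, h1, ρ, ι, s, hρ, hι, hr, hs, hc⟩ := h
  have h1 : Finite ι.range := Set.finite_range ι
  rw [hr] at h1
  exact Pool.Agent.TH444.TW.finite_of_ker π

theorem spCond_of {p : ℕ} [hp : Fact p.Prime] (F : Type) [Field F] [CharP F p] {n : ℕ}
    (hn : (p ≠ 2 ∧ 2 ≤ n) ∨ 3 ≤ n) : SpCond n F := by
  rcases hn with ⟨h1, h2⟩ | h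
  · refine Or.inl ⟨fun h => ?_, h2⟩
    have h3 : ((2 : ℕ) : F) = 0 := by exact_mod_cast h
    rw [CharP.cast_eq_zero_iff F p] at h3
    exact h1 ((Nat.prime_dvd_prime_iff_eq hp.out Nat.prime_two).1 h3)
  · exact Or.inr h

variable {K : Type} [Field K]

theorem ClsU.main (p : ℕ) [Fact p.Prime] [CharP K p] {W W' : Type} [Group W] [Group W']
    {π : W' →* W} (h : ClsU p K π) : Finite W → Finite W' ∧ RSK K π := by
  induction h with
  | base π h =>
    intro hW
    exact h.main hW
  | units π h =>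
    intro hW
    have h' := units_isUnitary p π h
    exact ⟨isUnitary_finite π h', unitary_rsk p K π h'⟩
  | unitary π h =>
    intro hW
    exact ⟨isUnitary_finite π h, unitary_rsk p K π h⟩
  | sl2 π F hF h =>
    intro hW
    have hfin : Finite (Matrix.SpecialLinearGroup (Fin 2) F) := inferInstance
    exact ⟨isAutPower_finite π h, autPower_rsk p K _ (locS Pool.Agent.Y287.DC.aut_holds p F hF)
      π h⟩
  | sln π F n hn hc h =>
    intro hW
    have hfin : Finite (Matrix.SpecialLinearGroup (Fin n) F) := inferInstance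
    exact ⟨isAutPower_finite π h, autPower_rsk p K _ (locPN autn_all p F n hn hc) π h⟩
  | sp π F n hn h =>
    intro hW
    have hfin : Finite (SpM n F) := inferInstance
    exact ⟨isAutPower_finite π h, autPower_rsk p K _ (locSp_all p F n (spCond_of F hn)) π h⟩
  | comp π q hp hq ihp ihq =>
    intro hW
    obtain ⟨h1, h2⟩ := ihp hW
    obtain ⟨h3, h4⟩ := ihq h1
    exact ⟨h3, RSK.comp h2 h4⟩
  | quot π q hq hpq ih =>
    intro hW
    obtain ⟨h1, h2⟩ := ih hW
    exact ⟨Finite.of_surjective q hq, RSK.quot q hq (fun x => rfl) h2⟩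

end Pool.Agent.Y60.DC
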