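import Pool.Agent.Y60.DC.Frame
import Pool.Agent.W200.IJ.SC

/-!
# Cocycles attached to elementary abelian kernels
-/

set_option autoImplicit false

namespace Pool.Agent.Y60.DC

section coc

variable {K L G : Type} [Field K] [Field L] [Algebra K L] [FiniteDimensional K L] [IsGalois K L]
    [Group G] (α : G →* (L ≃ₐ[K] L))

/-- A minimal normal elementary abelian `p`-subgroup embeds equivariantly in `L`. -/
theorem exists_lam (p : ℕ) [Fact p.Prime] [CharP K p] (hα : Function.Surjective α)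
    (hcomm : ∀ a b : G, α a = 1 → α b = 1 → a * b = b * a)
    (hexp : ∀ a : G, α a = 1 → a ^ p = 1)
    (hmin : ∀ B : Subgroup G, B.Normal → B ≤ α.ker → B = ⊥ ∨ B = α.ker)
    (hne : α.ker ≠ ⊥) :
    ∃ F : G → L, (∀ x y, α x = 1 → α y = 1 → F (x * y) = F x + F y) ∧
      (∀ g x, α x = 1 → F (g * x * g⁻¹) = α g (F x)) ∧ ∀ x, α x = 1 → F x = 0 → x = 1 := by
  classical
  have hcL : CharP L p := charP_of_injective_algebraMap (algebraMap K L).injective p
  let _ : CommGroup α.ker :=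
    { (inferInstance : Group α.ker) with
      mul_comm := fun x y => Subtype.ext (hcomm x.1 y.1 x.2 y.2) }
  let _ : Module (ZMod p) (Additive α.ker) := AddCommGroup.zmodModule (n := p) fun x =>
    Additive.toMul.injective (Subtype.ext (hexp _ (Additive.toMul x).2))
  obtain ⟨a₀, ha₀, ha₀1⟩ := (α.ker).bot_or_exists_ne_one.resolve_left hne
  obtain ⟨f₀, hf₀⟩ : ∃ f : Module.Dual (ZMod p) (Additive α.ker),
      f (Additive.ofMul ⟨a₀, ha₀⟩) ≠ 0 := by
    by_contra hcon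
    push Not at hcon
    have h1 := (Module.forall_dual_apply_eq_zero_iff (ZMod p)
      (Additive.ofMul (⟨a₀, ha₀⟩ : α.ker))).1 hcon
    exact ha₀1 (congrArg Subtype.val (Additive.ofMul.injective h1))
  let c : ZMod p →+* L := ZMod.castHom (dvd_refl p) L
  have hc : ∀ (γ : L ≃ₐ[K] L) (z : ZMod p), γ (c z) = c z := fun γ z =>
    RingHom.congr_fun (Subsingleton.elim ((γ : L →+* L).comp c) c) z
  let f : G → L := fun x => if h : α x = 1 then c (f₀ (Additive.ofMul ⟨x, h⟩)) else 0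
  have hf : ∀ (x : G) (h : α x = 1), f x = c (f₀ (Additive.ofMul ⟨x, h⟩)) := fun x h => dif_pos h
  have hf1 : ∀ x y, α x = 1 → α y = 1 → f (x * y) = f x + f y := by
    intro x y hx hy
    have hxy : α (x * y) = 1 := by rw [map_mul, hx, hy, mul_one]
    rw [hf x hx, hf y hy, hf _ hxy, ← map_add, ← map_add]
    rfl
  have hf2 : ∀ (γ : L ≃ₐ[K] L) (x : G), γ (f x) = f x := by
    intro γ x
    by_cases h : α x = 1
    · rw [hf x h, hc]
    · have h1 : f x = 0 := dif_neg h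
      rw [h1, map_zero]
  have hker : ∀ (g x : G), α x = 1 → α (g⁻¹ * x * g) = 1 := by
    intro g x hx
    rw [map_mul, map_mul, hx, mul_one, ← map_mul, inv_mul_cancel, map_one]
  have hker' : ∀ (g x : G), α x = 1 → α (g * x * g⁻¹) = 1 := by
    intro g x hx
    rw [map_mul, map_mul, hx, mul_one, ← map_mul, mul_inv_cancel, map_one]
  -- conjugation by elements with the same image
  have hconj : ∀ g h x : G, α g = α h → α x = 1 → g⁻¹ * x * g = h⁻¹ * x * h := by
    intro g h x hgh hx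
    have h1 : α (g * h⁻¹) = 1 := by rw [map_mul, map_inv, hgh, mul_inv_cancel]
    have h2 := hcomm (g * h⁻¹) x h1 hx
    have h3 : x * g = (g * h⁻¹) * x * h := by rw [h2]; group
    calc g⁻¹ * x * g = g⁻¹ * (x * g) := by group
      _ = g⁻¹ * ((g * h⁻¹) * x * h) := by rw [h3]
      _ = h⁻¹ * x * h := by group
  let r : (L ≃ₐ[K] L) → G := Function.surjInv hα
  have hr : ∀ τ, α (r τ) = τ := Function.surjInv_eq hα
  let lam : L → G → L := fun l x => ∑ τ : L ≃ₐ[K] L, f ((r τ)⁻¹ * x * r τ) * τ l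
  have hlam1 : ∀ l x y, α x = 1 → α y = 1 → lam l (x * y) = lam l x + lam l y := by
    intro l x y hx hy
    change ∑ τ : L ≃ₐ[K] L, f ((r τ)⁻¹ * (x * y) * r τ) * τ l = _
    have h1 : ∀ τ, f ((r τ)⁻¹ * (x * y) * r τ) =
        f ((r τ)⁻¹ * x * r τ) + f ((r τ)⁻¹ * y * r τ) := by
      intro τ
      rw [← hf1 _ _ (hker _ _ hx) (hker _ _ hy)]
      congr 1
      group
    simp only [h1, add_mul, Finset.sum_add_distrib]
    rfl
  have hlam2 : ∀ l g x, α x = 1 → lam l (g * x * g⁻¹) = α g (lam l x) := by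
    intro l g x hx
    change ∑ τ : L ≃ₐ[K] L, f ((r τ)⁻¹ * (g * x * g⁻¹) * r τ) * τ l =
      α g (∑ τ : L ≃ₐ[K] L, f ((r τ)⁻¹ * x * r τ) * τ l)
    rw [map_sum, ← Equiv.sum_comp (Equiv.mulLeft (α g))]
    refine Finset.sum_congr rfl fun τ _ => ?_
    rw [map_mul, hf2]
    congr 1
    · congr 1
      have h1 := hconj (g⁻¹ * r (α g * τ)) (r τ) x (by
        rw [map_mul, map_inv, hr, hr, inv_mul_cancel_left]) hx
      rw [← h1]
      change (r (α g * τ))⁻¹ * (g * x * g⁻¹) * r (α g * τ) = _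
      group
  obtain ⟨l, hl⟩ : ∃ l, lam l a₀ ≠ 0 := by
    by_contra hcon
    push Not at hcon
    obtain ⟨ω, ω', hω⟩ := Pool.Agent.W200.IJ.exists_dual K L
    apply hf₀
    apply c.injective
    rw [map_zero, ← hf a₀ ha₀]
    have h1 : ∑ i, ω i * lam (ω' i) a₀ = 0 :=
      Finset.sum_eq_zero fun i _ => by rw [hcon, mul_zero]
    have h2 : ∑ i, ω i * lam (ω' i) a₀ =
        ∑ τ : L ≃ₐ[K] L, f ((r τ)⁻¹ * a₀ * r τ) * ∑ i, ω i * τ (ω' i) := by
      change ∑ i, ω i * ∑ τ : L ≃ₐ[K] L, f ((r τ)⁻¹ * a₀ * r τ) * τ (ω' i) = _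
      simp only [Finset.mul_sum]
      rw [Finset.sum_comm]
      refine Finset.sum_congr rfl fun τ _ => Finset.sum_congr rfl fun i _ => by ring
    have h3 : ∀ τ : L ≃ₐ[K] L, ∑ i, ω i * τ (ω' i) = if (1 : L ≃ₐ[K] L) = τ then 1 else 0 :=
      fun τ => hω 1 τ
    have h4 : ∑ τ : L ≃ₐ[K] L, f ((r τ)⁻¹ * a₀ * r τ) * ∑ i, ω i * τ (ω' i) =
        f ((r 1)⁻¹ * a₀ * r 1) := by
      simp only [h3, mul_ite, mul_one, mul_zero, Finset.sum_ite_eq, Finset.mem_univ, if_true]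
    have h5 : (r 1)⁻¹ * a₀ * r 1 = a₀ := by
      have h6 := hconj (r 1) 1 a₀ (by rw [hr, map_one]) ha₀
      rw [h6]
      group
    rw [h2, h4, h5] at h1
    exact h1
  refine ⟨lam l, hlam1 l, hlam2 l, ?_⟩
  have hone : lam l 1 = 0 := by
    have h1 := hlam1 l 1 1 (map_one α) (map_one α)
    rw [mul_one] at h1
    exact left_eq_add.1 h1
  let B : Subgroup G :=
    { carrier := {x | α x = 1 ∧ lam l x = 0}
      mul_mem' := by
        rintro x y ⟨h1, h2⟩ ⟨h3, h4⟩
        exact ⟨by rw [map_mul, h1, h3, mul_one], by rw [hlam1 l x y h1 h3, h2, h4, add_zero]⟩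
      one_mem' := ⟨map_one α, hone⟩
      inv_mem' := by
        rintro x ⟨h1, h2⟩
        have h3 : α x⁻¹ = 1 := by rw [map_inv, h1, inv_one]
        refine ⟨h3, ?_⟩
        have h4 := hlam1 l x⁻¹ x h3 h1
        rw [inv_mul_cancel, hone, h2, add_zero] at h4
        exact h4.symm }
  have hBn : B.Normal := ⟨by
    rintro x ⟨h1, h2⟩ g
    exact ⟨hker' g x h1, by rw [hlam2 l g x h1, h2, map_zero]⟩⟩
  have hB : B = ⊥ := by
    refine (hmin B hBn fun x hx => hx.1).resolve_right ?_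
    intro h
    have h1 : a₀ ∈ B := by rw [h]; exact ha₀
    exact hl h1.2
  intro x hx h
  have h1 : x ∈ B := ⟨hx, h⟩
  rwa [hB, Subgroup.mem_bot] at h1

variable {α} in
/-- The map extends to a cocycle. -/
theorem exists_coc (hα : Function.Surjective α) {F : G → L}
    (h1 : ∀ x y, α x = 1 → α y = 1 → F (x * y) = F x + F y)
    (h2 : ∀ g x, α x = 1 → F (g * x * g⁻¹) = α g (F x)) :
    ∃ b : G → L, (∀ g h, b (g * h) = b g + α g (b h)) ∧ ∀ x, α x = 1 → b x = F x := by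
  classical
  obtain ⟨c, hc⟩ := Algebra.trace_surjective K L 1
  have hc1 : ∑ τ : L ≃ₐ[K] L, τ c = 1 := by
    rw [← trace_eq_sum_automorphisms, hc, map_one]
  let r : (L ≃ₐ[K] L) → G := Function.surjInv hα
  have hr : ∀ τ, α (r τ) = τ := Function.surjInv_eq hα
  have hk : ∀ g τ, α (g * r τ * (r (α g * τ))⁻¹) = 1 := by
    intro g τ
    rw [map_mul, map_mul, map_inv, hr, hr, mul_inv_cancel]
  refine ⟨fun g => ∑ τ : L ≃ₐ[K] L, (α g * τ) c * F (g * r τ * (r (α g * τ))⁻¹), ?_, ?_⟩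
  · intro g h
    have e1 : ∀ τ : L ≃ₐ[K] L, F (g * h * r τ * (r (α (g * h) * τ))⁻¹) =
        α g (F (h * r τ * (r (α h * τ))⁻¹)) +
          F (g * r (α h * τ) * (r (α g * (α h * τ)))⁻¹) := by
      intro τ
      rw [← h2 g _ (hk h τ), ← h1 _ _ (by
        rw [map_mul, map_mul, hk, mul_one, ← map_mul, mul_inv_cancel, map_one]) (hk g _)]
      congr 1
      rw [map_mul, mul_assoc (α g)]
      group
    change ∑ τ : L ≃ₐ[K] L, (α (g * h) * τ) c * F (g * h * r τ * (r (α (g * h) * τ))⁻¹) =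
      ∑ τ : L ≃ₐ[K] L, (α g * τ) c * F (g * r τ * (r (α g * τ))⁻¹) +
        α g (∑ τ : L ≃ₐ[K] L, (α h * τ) c * F (h * r τ * (r (α h * τ))⁻¹))
    simp only [e1, mul_add, Finset.sum_add_distrib]
    rw [add_comm, map_sum]
    congr 1
    · rw [← Equiv.sum_comp (Equiv.mulLeft (α h))
        (fun τ => (α g * τ) c * F (g * r τ * (r (α g * τ))⁻¹))]
      refine Finset.sum_congr rfl fun τ _ => ?_
      rw [map_mul, mul_assoc]
      rfl
    · refine Finset.sum_congr rfl fun τ _ => ?_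
      rw [map_mul, map_mul]
      rfl
  · intro x hx
    have e1 : ∀ τ : L ≃ₐ[K] L, x * r τ * (r (α x * τ))⁻¹ = x := by
      intro τ
      rw [hx, one_mul, mul_inv_cancel_right]
    change ∑ τ : L ≃ₐ[K] L, (α x * τ) c * F (x * r τ * (r (α x * τ))⁻¹) = F x
    simp only [e1]
    rw [← Finset.sum_mul, hx]
    simp only [one_mul]
    rw [hc1, one_mul]

variable {α} in
/-- Additive form of Hilbert's Theorem 90. -/
theorem exists_cob (hα : Function.Surjective α) {D : G → L}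
    (h1 : ∀ g h, D (g * h) = D g + α g (D h)) (h2 : ∀ x, α x = 1 → D x = 0) :
    ∃ d : L, ∀ g, α g d = d + D g := by
  classical
  obtain ⟨c, hc⟩ := Algebra.trace_surjective K L 1
  have hc1 : ∑ τ : L ≃ₐ[K] L, τ c = 1 := by
    rw [← trace_eq_sum_automorphisms, hc, map_one]
  let r : (L ≃ₐ[K] L) → G := Function.surjInv hα
  have hr : ∀ τ, α (r τ) = τ := Function.surjInv_eq hα
  have h3 : ∀ g h, α g = α h → D g = D h := by
    intro g h hgh
    have h4 : α (g⁻¹ * h) = 1 := by rw [map_mul, map_inv, hgh, inv_mul_cancel]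
    have h5 := h1 g (g⁻¹ * h)
    rw [mul_inv_cancel_left, h2 _ h4, map_zero, add_zero] at h5
    exact h5.symm
  refine ⟨-∑ τ : L ≃ₐ[K] L, D (r τ) * τ c, fun g => ?_⟩
  have e1 : ∀ τ, D (r (α g * τ)) = D g + α g (D (r τ)) := by
    intro τ
    rw [← h1]
    exact h3 _ _ (by rw [hr, map_mul, hr])
  rw [map_neg, map_sum, ← Equiv.sum_comp (Equiv.mulLeft (α g)) (fun τ => D (r τ) * τ c)]
  have e2 : ∑ τ : L ≃ₐ[K] L, D (r (Equiv.mulLeft (α g) τ)) * (Equiv.mulLeft (α g) τ) c =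
      D g + ∑ τ : L ≃ₐ[K] L, α g (D (r τ) * τ c) := by
    have e3 : ∀ τ : L ≃ₐ[K] L, D (r (Equiv.mulLeft (α g) τ)) * (Equiv.mulLeft (α g) τ) c =
        D g * (α g * τ) c + α g (D (r τ) * τ c) := by
      intro τ
      change D (r (α g * τ)) * (α g * τ) c = _
      rw [e1, add_mul, map_mul]
      rfl
    have e4 : ∑ τ : L ≃ₐ[K] L, (α g * τ) c = 1 := by
      rw [← hc1]
      exact Equiv.sum_comp (Equiv.mulLeft (α g)) (fun τ : L ≃ₐ[K] L => τ c)
    simp only [e3, Finset.sum_add_distrib]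
    rw [← Finset.mul_sum, e4, mul_one]
  rw [e2]
  ring

end coc

end Pool.Agent.Y60.DC
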