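import Pool.Agent.Y60.DC.Conn

/-!
# The connected unitary group is a group
-/

set_option autoImplicit false

open TensorProduct

namespace Pool.Agent.Y60.DC

section grp

variable {p : ℕ} [Fact p.Prime] {R : Type} [Ring R] [Algebra (ZMod p) R] [StarRing R]

theorem ConnSome.star {b : R} (hb : b ∈ unitary R) (h : ConnSome p b) :
    ConnSome p (star b) := by
  obtain ⟨A, iA, jA, v, y, hv, h1, h2⟩ := h
  have e1 : (em (Star.star b) : A ⊗[ZMod p] R) * em b = 1 := by rw [← map_mul, hb.1, map_one]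
  have e2 : (em b : A ⊗[ZMod p] R) * em (Star.star b) = 1 := by rw [← map_mul, hb.2, map_one]
  have e3 : v + em (Star.star b) * su v = em (Star.star b) * (su v + em b * v) := by
    rw [mul_add, ← mul_assoc, e1, one_mul, add_comm]
  refine ⟨A, iA, jA, su v, y * em b, ?_, ?_, ?_⟩
  · rw [su_su, add_comm]
    exact hv
  · rw [su_su, e3]
    calc em (Star.star b) * (su v + em b * v) * (y * em b) =
        em (Star.star b) * ((su v + em b * v) * y) * em b := by simp only [mul_assoc]
      _ = 1 := by rw [h1, mul_one, e1]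
  · rw [su_su, e3]
    calc y * em b * (em (Star.star b) * (su v + em b * v)) =
        y * (em b * em (Star.star b)) * (su v + em b * v) := by simp only [mul_assoc]
      _ = 1 := by rw [e2, mul_one, h2]

theorem ConnSome.one : ConnSome p (1 : R) ∨ ¬ ∃ z : R, z + Star.star z = 1 := by
  by_cases h : ∃ z : R, z + Star.star z = 1
  · left
    obtain ⟨z, hz⟩ := h
    have e1 : (em z : ZMod p ⊗[ZMod p] R) + su (em z) = 1 := by
      rw [su_em, ← map_add, hz, map_one]
    refine ⟨ZMod p, inferInstance, inferInstance, em z, 1, e1, ?_, ?_⟩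
    · rw [mul_one, map_one, one_mul, add_comm, e1]
    · rw [one_mul, map_one, one_mul, add_comm, e1]
  · exact Or.inr h

variable [Finite R]

theorem ConnSome.mul (h1 : ∃ z : R, z + Star.star z = 1) {b b' : R} (hb : b ∈ unitary R)
    (hb' : b' ∈ unitary R) (h : ConnSome p b) (h' : ConnSome p b') : ConnSome p (b * b') := by
  obtain ⟨m, Q, hQ1, hQ2⟩ := conn_data (p := p) h1
  obtain ⟨z₀, hz₀⟩ := h1
  let A := AlgebraicClosure (ZMod p)
  -- three polynomials which are not zero
  have hgen : ∀ c : R, ConnSome p c → nm (su Q + em c * Q) ≠ 0 := by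
    rintro c ⟨A', iA, jA, v, y, hv, hy, -⟩
    obtain ⟨e, he⟩ := hQ2 A' v hv
    intro h0
    have h2 := nm_ne hy
    rw [← he, su_tm, ← tm_em ((MvPolynomial.aeval e : MvPolynomial (Fin m) (ZMod p) →ₐ[ZMod p] A') :
      MvPolynomial (Fin m) (ZMod p) →+* A') c, ← map_mul, ← map_add, nm_tm, h0, map_zero] at h2
    exact h2 rfl
  have hN1 : nm (su Q) ≠ 0 := by
    obtain ⟨v, y, hv, hy⟩ := pointA (p := p) (A := A) z₀ hz₀
    obtain ⟨e, he⟩ := hQ2 A v hv
    intro h0
    have h2 := nm_ne hy
    rw [← he, su_tm, nm_tm, h0, map_zero] at h2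
    exact h2 rfl
  obtain ⟨e, he⟩ := exists_point (p := p) (nm (su Q) * (nm (su Q + em b * Q) *
    nm (su Q + em (Star.star b') * Q))) (mul_ne_zero hN1 (mul_ne_zero (hgen b h)
      (hgen _ (h'.star hb')))) A
  let θ : MvPolynomial (Fin m) (ZMod p) →+* A :=
    ((MvPolynomial.aeval e : MvPolynomial (Fin m) (ZMod p) →ₐ[ZMod p] A) :
      MvPolynomial (Fin m) (ZMod p) →+* A)
  have hθ : ∀ z, (MvPolynomial.aeval e : _ →ₐ[ZMod p] A) z = θ z := fun z => rfl
  rw [map_mul, map_mul, hθ, hθ, hθ] at he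
  obtain ⟨v, hv⟩ : ∃ v : A ⊗[ZMod p] R, v = tm θ Q := ⟨_, rfl⟩
  have hvs : v + su v = 1 := by rw [hv, su_tm, ← map_add, hQ1, map_one]
  have hun : ∀ z : MvPolynomial (Fin m) (ZMod p) ⊗[ZMod p] R, θ (nm z) ≠ 0 →
      ∃ w, tm θ z * w = 1 ∧ w * tm θ z = 1 := fun z hz => unit_of_nm _ (by rwa [nm_tm])
  obtain ⟨I, hI1, hI2⟩ := hun _ (left_ne_zero_of_mul he)
  obtain ⟨J, hJ1, hJ2⟩ := hun _ (left_ne_zero_of_mul (right_ne_zero_of_mul he))
  obtain ⟨J', hJ1', hJ2'⟩ := hun _ (right_ne_zero_of_mul (right_ne_zero_of_mul he))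
  rw [← su_tm, ← hv] at hI1 hI2
  rw [map_add, map_mul, ← su_tm, tm_em, ← hv] at hJ1 hJ2 hJ1' hJ2'
  have hsv : su v = 1 - v := eq_sub_of_add_eq' hvs
  have hvc : v * su v = su v * v := by rw [hsv, mul_sub, sub_mul, mul_one, one_mul]
  have hsI1 : su I * v = 1 := by
    have h := congrArg su hI1
    rwa [su_mul, su_su, su_one] at h
  have hsI2 : v * su I = 1 := by
    have h := congrArg su hI2
    rwa [su_mul, su_su, su_one] at h
  have hvI : v * I = I * v := by
    calc v * I = (I * su v) * (v * I) := by rw [hI2, one_mul]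
      _ = I * (v * su v) * I := by rw [hvc]; simp only [mul_assoc]
      _ = I * v * (su v * I) := by simp only [mul_assoc]
      _ = I * v := by rw [hI1, mul_one]
  -- the element of norm one
  obtain ⟨Y, hY⟩ : ∃ Y : A ⊗[ZMod p] R, Y = v * I := ⟨_, rfl⟩
  have hsY : su Y = su I * su v := by rw [hY, su_mul]
  have hYs : Y * su Y = 1 := by
    rw [hsY, hY, hvI]
    calc I * v * (su I * su v) = I * (v * su I) * su v := by simp only [mul_assoc]
      _ = 1 := by rw [hsI2, mul_one, hI2]
  have hsYY : su Y * Y = 1 := by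
    rw [hsY, hY]
    calc su I * su v * (v * I) = su I * (v * su v) * I := by rw [hvc]; simp only [mul_assoc]
      _ = (su I * v) * (su v * I) := by simp only [mul_assoc]
      _ = 1 := by rw [hsI1, hI1, mul_one]
  have e1 : (em (Star.star b') : A ⊗[ZMod p] R) * em b' = 1 := by rw [← map_mul, hb'.1, map_one]
  have e2 : (em b' : A ⊗[ZMod p] R) * em (Star.star b') = 1 := by rw [← map_mul, hb'.2, map_one]
  obtain ⟨X, hX⟩ : ∃ X : A ⊗[ZMod p] R, X = em (Star.star b') * Y := ⟨_, rfl⟩
  have hsX : su X = su Y * em b' := by rw [hX, su_mul, su_em, star_star]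
  have hX1 : X * su X = 1 := by
    rw [hsX, hX]
    calc em (Star.star b') * Y * (su Y * em b') = em (Star.star b') * (Y * su Y) * em b' := by
          simp only [mul_assoc]
      _ = 1 := by rw [hYs, mul_one, e1]
  have hX2 : su X * X = 1 := by
    rw [hsX, hX]
    calc su Y * em b' * (em (Star.star b') * Y) = su Y * (em b' * em (Star.star b')) * Y := by
          simp only [mul_assoc]
      _ = 1 := by rw [e2, mul_one, hsYY]
  obtain ⟨D, hD1, hD2⟩ : ∃ D, (1 + X) * D = 1 ∧ D * (1 + X) = 1 := by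
    have g1 : 1 + X = (su v + em (Star.star b') * v) * I := by
      rw [add_mul, hI1, hX, hY, mul_assoc]
    refine ⟨su v * J', ?_, ?_⟩
    · rw [g1, mul_assoc, ← mul_assoc I, hI2, one_mul, hJ1']
    · rw [g1, mul_assoc, ← mul_assoc J', hJ2', one_mul, hI1]
  obtain ⟨k5, k6, -⟩ := cayW su su_mul (fun a b => map_add su a b) su_su 1 X D
      (fun w => by rw [one_mul, mul_one]) su_one hX1 hX2 hD1 hD2
  rw [one_mul] at k5 k6
  have hDX : D * X = X * D := by
    calc D * X = D * X * ((1 + X) * D) := by rw [hD1, mul_one]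
      _ = D * (X * (1 + X)) * D := by simp only [mul_assoc]
      _ = D * ((1 + X) * X) * D := by rw [mul_add, add_mul, mul_one, one_mul]
      _ = D * (1 + X) * X * D := by simp only [mul_assoc]
      _ = X * D := by rw [hD2, one_mul]
  have e3 : em (b * b') * X = em b * Y := by
    rw [hX, ← mul_assoc, map_mul, mul_assoc (em b), e2, mul_one]
  have e4 : su (D * X) + em (b * b') * (D * X) = (su v + em b * v) * (I * D) := by
    rw [k5, hDX, ← mul_assoc, e3]
    calc D + em b * Y * D = (su v * I + em b * (v * I)) * D := by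
          rw [hI1, ← hY, add_mul, one_mul]
      _ = _ := by simp only [add_mul, mul_assoc]
  refine ⟨A, inferInstance, inferInstance, D * X, (1 + X) * su v * J, k6, ?_, ?_⟩
  · rw [e4]
    calc (su v + em b * v) * (I * D) * ((1 + X) * su v * J) =
        (su v + em b * v) * (I * ((D * (1 + X)) * su v)) * J := by simp only [mul_assoc]
      _ = 1 := by rw [hD2, one_mul, hI2, mul_one, hJ1]
  · rw [e4]
    calc (1 + X) * su v * J * ((su v + em b * v) * (I * D)) =
        (1 + X) * (su v * ((J * (su v + em b * v)) * I)) * D := by simp only [mul_assoc]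
      _ = 1 := by rw [hJ2, one_mul, hI1, mul_one, hD1]

end grp

/-- The connected unitary group. -/
def unitary0 (p : ℕ) [Fact p.Prime] (R : Type) [Ring R] [Algebra (ZMod p) R] [StarRing R]
    [Finite R] (h1 : ∃ z : R, z + star z = 1) : Subgroup (unitary R) where
  carrier := {b | ConnSome p (b : R)}
  mul_mem' := fun {a b} ha hb => ConnSome.mul h1 a.2 b.2 ha hb
  one_mem' := by
    rcases ConnSome.one (p := p) (R := R) with h | h
    · exact h
    · exact absurd h1 h
  inv_mem' := fun {a} ha => ConnSome.star a.2 ha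

end Pool.Agent.Y60.DC
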