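import Mathlib

/-!
# Composition factors

Definitions for the project DC (embedding problems in the defining characteristic).
-/

set_option autoImplicit false

namespace Pool.Agent.Y60.DC

/-- `CompIn S N`: the group `N` has a finite composition series all of whose factors belong to the
class `S` (a class of groups): `N` is trivial, or `N` has a normal subgroup `M` with such a series
for which `N / M` belongs to `S`. -/
inductive CompIn (S : ∀ (T : Type) [Group T], Prop) : ∀ (N : Type) [Group N], Prop
  /-- the trivial group -/
  | one (N : Type) [Group N] (h : Subsingleton N) : CompIn S N
  /-- one more factor on top -/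
  | ext (N : Type) [Group N] (M : Subgroup N) [M.Normal] (hM : CompIn S M) (hS : S (N ⧸ M)) :
      CompIn S N

/-- The group `PSL_2(F)`. -/
abbrev PSL2 (F : Type) [Field F] : Type := Matrix.ProjectiveSpecialLinearGroup (Fin 2) F

end Pool.Agent.Y60.DC
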