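import Pool.Agent.Y60.DC.Comp

/-!
# Generic elements of `U ⊗ Mat_2(F)`
-/

set_option autoImplicit false

open TensorProduct Polynomial

namespace Pool.Agent.Y60.DC

section gen

variable {p : ℕ} [Fact p.Prime] {F : Type} [Field F] [Finite F] [Algebra (ZMod p) F]
  {K U : Type} [Field K] [Field U] [Algebra K U] [Algebra (ZMod p) U]

/-- Functions which are polynomial along lines and defined over the algebraic elements. -/
def Gd (K : Type) {p : ℕ} {R U : Type} [Field K] [Field U] [Algebra K U] [Fact p.Prime]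
    [Ring R] [Algebra (ZMod p) R] [Algebra (ZMod p) U] (G : (U ⊗[ZMod p] R) → U) : Prop :=
  (∀ c w, ∃ P : U[X], ∀ x : U, G (c + x • w) = P.eval x) ∧
    ∀ σ : U ≃ₐ[K] U, (∀ z, IsAlgebraic K z → σ z = z) → ∀ z, G (tm (σ : U →+* U) z) = σ (G z)

variable {G G' : (U ⊗[ZMod p] Mt F) → U}

theorem Gd.add (h : Gd K G) (h' : Gd K G') : Gd K fun z => G z + G' z := by
  refine ⟨fun c w => ?_, fun σ hσ z => ?_⟩
  · obtain ⟨P, hP⟩ := h.1 c w
    obtain ⟨P', hP'⟩ := h'.1 c w
    exact ⟨P + P', fun x => by beta_reduce; rw [hP, hP', eval_add]⟩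
  · beta_reduce; rw [h.2 σ hσ, h'.2 σ hσ, map_add]

theorem Gd.mul (h : Gd K G) (h' : Gd K G') : Gd K fun z => G z * G' z := by
  refine ⟨fun c w => ?_, fun σ hσ z => ?_⟩
  · obtain ⟨P, hP⟩ := h.1 c w
    obtain ⟨P', hP'⟩ := h'.1 c w
    exact ⟨P * P', fun x => by beta_reduce; rw [hP, hP', eval_mul]⟩
  · beta_reduce; rw [h.2 σ hσ, h'.2 σ hσ, map_mul]

theorem Gd.neg (h : Gd K G) : Gd K fun z => -G z := by
  refine ⟨fun c w => ?_, fun σ hσ z => ?_⟩
  · obtain ⟨P, hP⟩ := h.1 c w
    exact ⟨-P, fun x => by beta_reduce; rw [hP, eval_neg]⟩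
  · beta_reduce; rw [h.2 σ hσ, map_neg]

theorem Gd.pow (h : Gd K G) (n : ℕ) : Gd K fun z => G z ^ n := by
  refine ⟨fun c w => ?_, fun σ hσ z => ?_⟩
  · obtain ⟨P, hP⟩ := h.1 c w
    exact ⟨P ^ n, fun x => by beta_reduce; rw [hP, eval_pow]⟩
  · beta_reduce; rw [h.2 σ hσ, map_pow]

theorem Gd.const (u : U) (hu : IsAlgebraic K u) : Gd K fun _ : U ⊗[ZMod p] Mt F => u := by
  refine ⟨fun c w => ⟨C u, fun x => by rw [eval_C]⟩, fun σ hσ z => (hσ u hu).symm⟩

theorem Gd.sub (h : Gd K G) (h' : Gd K G') : Gd K fun z => G z - G' z := by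
  have h1 := h.add h'.neg
  simpa only [sub_eq_add_neg] using h1

theorem alg_ε (ε : F →+* U) (f : F) : IsAlgebraic K (ε f) := by
  have := Fintype.ofFinite F
  refine ⟨X ^ Fintype.card F - X, FiniteField.X_pow_card_sub_X_ne_zero K Fintype.one_lt_card, ?_⟩
  rw [map_sub, map_pow, aeval_X, ← map_pow, FiniteField.pow_card, sub_self]

theorem Gd.entry (ε : F →+* U) (i j : Fin 2) :
    Gd K fun z : U ⊗[ZMod p] Mt F => pc ε z i j := by
  refine ⟨fun c w => ⟨C (pc ε c i j) + X * C (pc ε w i j), fun x => ?_⟩, fun σ hσ z => ?_⟩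
  · beta_reduce
    rw [map_add, map_smul, eval_add, eval_mul, eval_C, eval_C, eval_X]
    rfl
  · have h1 : (σ : U →+* U).comp ε = ε := RingHom.ext fun f => hσ _ (alg_ε ε f)
    have h2 := pc_tm (σ : U →+* U) ε z
    rw [h1] at h2
    beta_reduce
    rw [h2]
    rfl

/-- Matrix valued functions. -/
def GM (K : Type) {p : ℕ} {F U : Type} [Field K] [Field U] [Algebra K U] [Fact p.Prime]
    [Field F] [Algebra (ZMod p) F] [Algebra (ZMod p) U]
    (M : (U ⊗[ZMod p] Mt F) → Mt U) : Prop := ∀ i j, Gd K fun z => M z i j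

variable {M M' : (U ⊗[ZMod p] Mt F) → Mt U}

theorem GM.mul (h : GM K M) (h' : GM K M') : GM K fun z => M z * M' z := by
  intro i j
  have h1 := ((h i 0).mul (h' 0 j)).add ((h i 1).mul (h' 1 j))
  simpa only [Matrix.mul_apply, Fin.sum_univ_two] using h1

theorem GM.ad (h : GM K M) : GM K fun z => ad (M z) := by
  intro i j
  fin_cases i <;> fin_cases j
  · exact h 1 1
  · exact (h 0 1).neg
  · exact (h 1 0).neg
  · exact h 0 0

theorem GM.const (A : Mt U) (hA : ∀ i j, IsAlgebraic K (A i j)) :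
    GM K fun _ : U ⊗[ZMod p] Mt F => A := fun i j => Gd.const _ (hA i j)

theorem GM.frob [CharP U p] (h : GM K M) : GM K fun z => (M z).map (frobenius U p) := fun i j =>
  (h i j).pow p

theorem GM.pc (ε : F →+* U) : GM K fun z : U ⊗[ZMod p] Mt F => pc ε z := fun i j =>
  Gd.entry ε i j

theorem GM.trace (h : GM K M) : Gd K fun z => (M z).trace := by
  have h1 := (h 0 0).add (h 1 1)
  simpa only [Matrix.trace_fin_two] using h1

theorem GM.det (h : GM K M) : Gd K fun z => (M z).det := by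
  have h1 := ((h 0 0).mul (h 1 1)).sub ((h 0 1).mul (h 1 0))
  simpa only [Matrix.det_fin_two] using h1

end gen

section gen2

variable {p : ℕ} [Fact p.Prime] {R : Type} [Ring R] [Algebra (ZMod p) R] [Finite R]
  {K U : Type} [Field K] [Field U] [IsAlgClosed U] [Algebra K U] [Algebra (ZMod p) U]
  (A : Module.Basis (Fin (Module.finrank (ZMod p) R)) U (U ⊗[ZMod p] R))
  (hA1 : ∀ j, InH (algebraicClosure K U).toSubfield (A j))
  (hA2 : ∀ z, InH (algebraicClosure K U).toSubfield z → ∀ j, A.repr z j ∈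
    (algebraicClosure K U).toSubfield)
  {u : Fin (Module.finrank (ZMod p) R) → U} (hu : IsTranscendenceBasis K u)

include hA1 in
theorem tm_A (σ : U ≃ₐ[K] U) (hσ : ∀ z, IsAlgebraic K z → σ z = z) (j) :
    tm (σ : U →+* U) (A j) = A j := by
  apply cf_ext
  intro i
  rw [cf_tm]
  exact hσ _ (mem_algebraicClosure_iff.1 (hA1 j i))

include hA1 hA2 hu in
/-- Translations and homotheties of the generic element. -/
theorem shift (c : U ⊗[ZMod p] R) (hc : InH (algebraicClosure K U).toSubfield c) (x : K)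
    (hx : x ≠ 0) : ∃ σ : U ≃ₐ[K] U, (∀ z, IsAlgebraic K z → σ z = z) ∧
      tm (σ : U →+* U) (∑ j, u j • A j) = c + algebraMap K U x • ∑ j, u j • A j := by
  let C := algebraicClosure K U
  let u' : Fin (Module.finrank (ZMod p) R) → U := fun j => A.repr c j + algebraMap K U x * u j
  have hCu : IsTranscendenceBasis C u := tb_up hu
  have hx' : algebraMap K U x ≠ 0 := by
    rw [ne_eq, map_eq_zero_iff _ (algebraMap K U).injective]
    exact hx
  have hCu' : IsTranscendenceBasis C u' := by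
    refine tb_of_alg hCu _ fun j => ?_
    have h1 : algebraMap C U ⟨A.repr c j, hA2 c hc j⟩ = A.repr c j := rfl
    have h2 : (algebraMap C U (algebraMap K C x))⁻¹ *
        (u' j - algebraMap C U ⟨A.repr c j, hA2 c hc j⟩) = u j := by
      have h3 : algebraMap C U (algebraMap K C x) = algebraMap K U x :=
        (IsScalarTower.algebraMap_apply K C U x).symm
      rw [h1, h3]
      change (algebraMap K U x)⁻¹ * (A.repr c j + algebraMap K U x * u j - A.repr c j) = u j
      rw [add_sub_cancel_left, inv_mul_cancel_left₀ hx']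
    have h4 : u j ∈ IntermediateField.adjoin C (Set.range u') := by
      rw [← h2]
      exact mul_mem (inv_mem (IntermediateField.algebraMap_mem _ _))
        (sub_mem (IntermediateField.subset_adjoin C _ ⟨j, rfl⟩)
          (IntermediateField.algebraMap_mem _ _))
    exact isAlgebraic_algebraMap (⟨u j, h4⟩ : IntermediateField.adjoin C (Set.range u'))
  obtain ⟨σ, hσ⟩ := exists_iso C U U _ hCu hCu'
  have hfix : ∀ z, IsAlgebraic K z → (σ.restrictScalars K) z = z := fun z hz =>
    σ.commutes ⟨z, mem_algebraicClosure_iff.2 hz⟩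
  refine ⟨σ.restrictScalars K, hfix, ?_⟩
  rw [map_sum, Finset.smul_sum]
  conv_rhs => rw [← A.sum_repr c]
  rw [← Finset.sum_add_distrib]
  refine Finset.sum_congr rfl fun j _ => ?_
  rw [tm_smul, tm_A A hA1 _ hfix, smul_smul, ← add_smul]
  congr 1
  exact hσ j

include hA1 hA2 hu in
/-- A function of the class which does not vanish at a point does not vanish at the generic
element. -/
theorem gen_ne [Infinite K] {G : (U ⊗[ZMod p] R) → U} (hG : Gd K G) (c : U ⊗[ZMod p] R)
    (hc : InH (algebraicClosure K U).toSubfield c) (h : G c ≠ 0) : G (∑ j, u j • A j) ≠ 0 := by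
  intro h0
  obtain ⟨P, hP⟩ := hG.1 c (∑ j, u j • A j)
  have h1 : ∀ x : K, x ≠ 0 → P.eval (algebraMap K U x) = 0 := by
    intro x hx
    obtain ⟨σ, hσ, h2⟩ := shift A hA1 hA2 hu c hc x hx
    rw [← hP, ← h2, hG.2 σ hσ, h0, map_zero]
  have h2 : P = 0 := by
    apply Polynomial.eq_zero_of_infinite_isRoot
    have h3 : (algebraMap K U '' {x | x ≠ 0}) ⊆ {x | P.IsRoot x} := by
      rintro _ ⟨x, hx, rfl⟩
      exact h1 x hx
    refine Set.Infinite.mono h3 (Set.Infinite.image (algebraMap K U).injective.injOn ?_)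
    have h4 : ({x | x ≠ 0} : Set K) = ({0} : Set K)ᶜ := rfl
    rw [h4]
    exact (Set.finite_singleton 0).infinite_compl
  apply h
  have h5 := hP 0
  rw [zero_smul, add_zero, h2, eval_zero] at h5
  exact h5

end gen2

end Pool.Agent.Y60.DC
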