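import Pool.Agent.Y60.DC.Sl
import Pool.Agent.Y60.DC.Stm
import Pool.Agent.Y60.DC.Stm3
import Pool.Agent.TH444.TW.RS

/-!
# Lifting automorphisms of `PSL_2(F)` to the ring of matrices
-/

set_option autoImplicit false

namespace Pool.Agent.Y60.DC

open Pool.Agent.H391R2.T4 (RegSol)
open Matrix (SpecialLinearGroup)

section lift

variable {F : Type} [Field F]

theorem mk_eq (A B : SpecialLinearGroup (Fin 2) F)
    (h : (QuotientGroup.mk A : PSL2 F) = QuotientGroup.mk B) :
    ∃ r : F, r ^ 2 = 1 ∧ (B : Mt F) = r • (A : Mt F) := by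
  have h1 := QuotientGroup.eq.1 h
  obtain ⟨r, hr, hr2⟩ := Matrix.SpecialLinearGroup.mem_center_iff.1 h1
  rw [Fintype.card_fin] at hr
  refine ⟨r, hr, ?_⟩
  have h3 : (B : Mt F) = (A : Mt F) * ((A⁻¹ * B : SpecialLinearGroup (Fin 2) F) : Mt F) := by
    have h4 : B = A * (A⁻¹ * B) := by group
    conv_lhs => rw [h4]
    exact Matrix.SpecialLinearGroup.coe_mul A (A⁻¹ * B)
  rw [h3, ← hr2]
  ext i j
  fin_cases i <;> fin_cases j <;> simp [mul_comm]

/-- The map of `SL_2` given by an automorphism of the ring of matrices. -/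
def slm (ρ : Mt F ≃+* Mt F) (h : ∀ A, ρ (ad A) = ad (ρ A)) (n : SpecialLinearGroup (Fin 2) F) :
    SpecialLinearGroup (Fin 2) F :=
  ⟨ρ (n : Mt F), det_of_ad _ (by rw [← h, ← map_mul, (ad_of_det _ n.2).2, map_one])⟩

theorem coe_slm (ρ : Mt F ≃+* Mt F) (h : ∀ A, ρ (ad A) = ad (ρ A))
    (n : SpecialLinearGroup (Fin 2) F) : ((slm ρ h n : SpecialLinearGroup (Fin 2) F) : Mt F) =
      ρ (n : Mt F) := rfl

theorem symm_ad (ρ : Mt F ≃+* Mt F) (h : ∀ A, ρ (ad A) = ad (ρ A)) (A : Mt F) :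
    ρ.symm (ad A) = ad (ρ.symm A) := by
  apply ρ.injective
  rw [RingEquiv.apply_symm_apply, h, RingEquiv.apply_symm_apply]

/-- The automorphism of `SL_2` given by an automorphism of the ring of matrices. -/
def slmE (ρ : Mt F ≃+* Mt F) (h : ∀ A, ρ (ad A) = ad (ρ A)) :
    MulAut (SpecialLinearGroup (Fin 2) F) where
  toFun := slm ρ h
  invFun := slm ρ.symm (symm_ad ρ h)
  left_inv := fun a => Subtype.ext (by
    rw [coe_slm, coe_slm, RingEquiv.symm_apply_apply])
  right_inv := fun a => Subtype.ext (by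
    rw [coe_slm, coe_slm, RingEquiv.apply_symm_apply])
  map_mul' := fun a b => Subtype.ext (map_mul ρ (a : Mt F) (b : Mt F))

/-- Automorphisms of the ring of matrices which are trivial on `PSL_2` are trivial. -/
theorem lift_triv (ψ : Mt F ≃+* Mt F) (h : ∀ A, ψ (ad A) = ad (ψ A))
    (hm : ∀ A : SpecialLinearGroup (Fin 2) F,
      (QuotientGroup.mk (slm ψ h A) : PSL2 F) = QuotientGroup.mk A) (A : Mt F) : ψ A = A := by
  have key : ∀ A : SpecialLinearGroup (Fin 2) F, (A : Mt F).trace = 2 → ψ (A : Mt F) = A := by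
    intro A hA
    obtain ⟨r, hr, hr2⟩ := mk_eq A (slm ψ h A) (hm A).symm
    rw [coe_slm] at hr2
    have h1 : (A : Mt F) + ad (A : Mt F) = (2 : F) • (1 : Mt F) := by
      rw [add_ad, hA]
    have h2 : ψ (A : Mt F) + ad (ψ (A : Mt F)) = (2 : F) • (1 : Mt F) := by
      rw [← h, ← map_add, h1, two_smul, map_add, map_one]
    rw [hr2, ad_smul, ← smul_add, h1, smul_smul] at h2
    have h3 : r * 2 = 2 := by
      have h4 := congrFun (congrFun h2 0) 0
      simpa using h4
    have h5 : r = 1 := by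
      have h6 : (r - 1) ^ 2 = 0 := by linear_combination hr - h3
      have h7 := pow_eq_zero_iff (two_ne_zero) |>.1 h6
      exact sub_eq_zero.1 h7
    rw [hr2, h5, one_smul]
  have h01 : ∀ x : F, ψ !![0, x; 0, 0] = !![0, x; 0, 0] := by
    intro x
    have h1 := key ⟨!![1, x; 0, 1], by simp [Matrix.det_fin_two]⟩ (by
      simp [Matrix.trace_fin_two]; norm_num)
    have h2 : (!![1, x; 0, 1] : Mt F) = 1 + !![0, x; 0, 0] := by
      ext i j
      fin_cases i <;> fin_cases j <;> simp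
    change ψ !![1, x; 0, 1] = !![1, x; 0, 1] at h1
    rw [h2, map_add, map_one] at h1
    exact add_left_cancel h1
  have h10 : ∀ x : F, ψ !![0, 0; x, 0] = !![0, 0; x, 0] := by
    intro x
    have h1 := key ⟨!![1, 0; x, 1], by simp [Matrix.det_fin_two]⟩ (by
      simp [Matrix.trace_fin_two]; norm_num)
    have h2 : (!![1, 0; x, 1] : Mt F) = 1 + !![0, 0; x, 0] := by
      ext i j
      fin_cases i <;> fin_cases j <;> simp
    change ψ !![1, 0; x, 1] = !![1, 0; x, 1] at h1
    rw [h2, map_add, map_one] at h1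
    exact add_left_cancel h1
  have h4 : A = !![0, A 0 0; 0, 0] * !![0, 0; 1, 0] + !![0, A 0 1; 0, 0] +
      !![0, 0; A 1 0, 0] + !![0, 0; A 1 1, 0] * !![0, 1; 0, 0] := by
    ext i j
    fin_cases i <;> fin_cases j <;> simp [Matrix.mul_apply, Fin.sum_univ_two]
  rw [h4]
  simp only [map_add, map_mul, h01, h10]

/-- The lifts. -/
def IsLift (f : MulAut (PSL2 F)) (ρ : Mt F ≃+* Mt F) : Prop :=
  ∃ h : ∀ A, ρ (ad A) = ad (ρ A), ∀ A : SpecialLinearGroup (Fin 2) F,
    f (QuotientGroup.mk A) = QuotientGroup.mk (slm ρ h A)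

theorem IsLift.unique {f : MulAut (PSL2 F)} {ρ ρ' : Mt F ≃+* Mt F} (h : IsLift f ρ)
    (h' : IsLift f ρ') : ρ = ρ' := by
  obtain ⟨h1, h2⟩ := h
  obtain ⟨h1', h2'⟩ := h'
  have h3 : ∀ A, ρ.symm (ad A) = ad (ρ.symm A) := by
    intro A
    apply ρ.injective
    rw [RingEquiv.apply_symm_apply, h1, RingEquiv.apply_symm_apply]
  have h4 : ∀ A, (ρ'.trans ρ.symm) (ad A) = ad ((ρ'.trans ρ.symm) A) := by
    intro A
    rw [RingEquiv.trans_apply, RingEquiv.trans_apply, h1', h3]
  have h5 := lift_triv (ρ'.trans ρ.symm) h4 (by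
    intro A
    apply f.injective
    rw [h2, h2']
    congr 1
    apply Subtype.ext
    rw [coe_slm, coe_slm, coe_slm, RingEquiv.trans_apply, RingEquiv.apply_symm_apply])
  apply RingEquiv.ext
  intro A
  have h6 := h5 A
  rw [RingEquiv.trans_apply] at h6
  conv_lhs => rw [← h6]
  rw [RingEquiv.apply_symm_apply]

theorem IsLift.one : IsLift (1 : MulAut (PSL2 F)) (1 : Mt F ≃+* Mt F) :=
  ⟨fun _ => rfl, fun _ => rfl⟩

theorem IsLift.mul {f f' : MulAut (PSL2 F)} {ρ ρ' : Mt F ≃+* Mt F} (h : IsLift f ρ)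
    (h' : IsLift f' ρ') : IsLift (f * f') (ρ * ρ') := by
  obtain ⟨h1, h2⟩ := h
  obtain ⟨h1', h2'⟩ := h'
  have h3 : ∀ A, (ρ * ρ') (ad A) = ad ((ρ * ρ') A) := by
    intro A
    change ρ (ρ' (ad A)) = ad (ρ (ρ' A))
    rw [h1', h1]
  refine ⟨h3, fun A => ?_⟩
  rw [MulAut.mul_apply, h2', h2]
  rfl

end lift

/-- Every automorphism of `PSL_2(F)` has a lift. -/
theorem exists_islift (hA : TaskAUT) (F : Type) [Field F] [Finite F] (hF : 4 ≤ Nat.card F)
    (f : MulAut (PSL2 F)) : ∃ ρ : Mt F ≃+* Mt F, IsLift f ρ := by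
  obtain ⟨g, φ, h⟩ := hA F hF f
  have hg1 : g.1 * (g⁻¹).1 = 1 := Units.mul_inv g
  have hg2 : (g⁻¹).1 * g.1 = 1 := Units.inv_mul g
  let ρ : Mt F ≃+* Mt F :=
    { toFun := fun A => g.1 * A.map φ * (g⁻¹).1
      invFun := fun A => ((g⁻¹).1 * A * g.1).map φ.symm
      left_inv := fun A => by
        change ((g⁻¹).1 * (g.1 * A.map φ * (g⁻¹).1) * g.1).map φ.symm = A
        have h1 : (g⁻¹).1 * (g.1 * A.map φ * (g⁻¹).1) * g.1 = A.map φ := by
          rw [mul_assoc, mul_assoc (g.1 * A.map φ), hg2, mul_one, ← mul_assoc, hg2, one_mul]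
        rw [h1]
        ext i j
        simp
      right_inv := fun A => by
        change g.1 * (((g⁻¹).1 * A * g.1).map φ.symm).map φ * (g⁻¹).1 = A
        have h1 : (((g⁻¹).1 * A * g.1).map φ.symm).map φ = (g⁻¹).1 * A * g.1 := by
          ext i j
          simp only [Matrix.map_apply, RingEquiv.apply_symm_apply]
        rw [h1, mul_assoc, mul_assoc ((g⁻¹).1 * A), hg1, mul_one, ← mul_assoc, hg1, one_mul]
      map_mul' := fun A B => by
        change g.1 * (A * B).map φ * (g⁻¹).1 =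
          (g.1 * A.map φ * (g⁻¹).1) * (g.1 * B.map φ * (g⁻¹).1)
        have h1 : (A * B).map φ = A.map φ * B.map φ := Matrix.map_mul
        rw [h1]
        calc g.1 * (A.map φ * B.map φ) * (g⁻¹).1 = g.1 * A.map φ * (1 * B.map φ) * (g⁻¹).1 := by
              rw [one_mul, mul_assoc g.1 (A.map φ) (B.map φ)]
          _ = _ := by rw [← hg2]; simp only [mul_assoc]
      map_add' := fun A B => by
        change g.1 * (A + B).map φ * (g⁻¹).1 =
          g.1 * A.map φ * (g⁻¹).1 + g.1 * B.map φ * (g⁻¹).1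
        have h1 : (A + B).map φ = A.map φ + B.map φ := Matrix.map_add φ (map_add φ) A B
        rw [h1, mul_add, add_mul] }
  have hρ : ∀ A, ρ A = g.1 * A.map φ * (g⁻¹).1 := fun _ => rfl
  have htr : ∀ A : Mt F, (ρ A).trace = φ A.trace := by
    intro A
    rw [hρ, Matrix.trace_mul_comm, ← mul_assoc, hg2, one_mul, Matrix.trace_fin_two,
      Matrix.trace_fin_two, map_add]
    rfl
  have hsm : ∀ r : F, ρ (r • (1 : Mt F)) = φ r • (1 : Mt F) := by
    intro r
    have h1 : (r • (1 : Mt F)).map φ = φ r • (1 : Mt F) := by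
      ext i j
      fin_cases i <;> fin_cases j <;> simp
    rw [hρ, h1, mul_smul_comm, mul_one, smul_mul_assoc, hg1]
  have had : ∀ A, ρ (ad A) = ad (ρ A) := by
    intro A
    have h1 : ad A = A.trace • (1 : Mt F) - A := by rw [← add_ad, add_sub_cancel_left]
    have h2 : ad (ρ A) = (ρ A).trace • (1 : Mt F) - ρ A := by
      rw [← add_ad, add_sub_cancel_left]
    rw [h1, h2, map_sub, hsm, htr]
  refine ⟨ρ, had, fun A => h A _ ?_⟩
  rw [coe_slm, hρ, mul_assoc, hg2, mul_one]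

/-- **Split embedding problems with kernel `PSL_2(F)`.** -/
theorem locP (hA : TaskAUT) (p : ℕ) [Fact p.Prime] (F : Type) [Field F] [Finite F] [CharP F p]
    (hF : 4 ≤ Nat.card F) : LocP p (PSL2 F) := by
  intro K L _ _ _ _ _ _ _ β
  choose lf hlf using exists_islift hA F hF
  let ρ : (L ≃ₐ[K] L) →* (Mt F ≃+* Mt F) :=
    { toFun := fun γ => lf (β γ)
      map_one' := by
        rw [map_one]
        exact (hlf 1).unique IsLift.one
      map_mul' := fun γ δ => by
        rw [map_mul]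
        exact (hlf _).unique ((hlf _).mul (hlf _)) }
  have hρ : ∀ γ A, ρ γ (ad A) = ad (ρ γ A) := fun γ => (hlf (β γ)).1
  let φ : (L ≃ₐ[K] L) →* MulAut (SpecialLinearGroup (Fin 2) F) :=
    { toFun := fun γ => slmE (ρ γ) (hρ γ)
      map_one' := by
        apply MulEquiv.ext
        intro a
        apply Subtype.ext
        change ρ 1 (a : Mt F) = a
        rw [map_one]
        rfl
      map_mul' := fun γ δ => by
        apply MulEquiv.ext
        intro a
        apply Subtype.ext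
        change ρ (γ * δ) (a : Mt F) = ρ γ (ρ δ (a : Mt F))
        rw [map_mul]
        rfl }
  have h1 := sl_reg p F K L φ ρ hρ fun γ n => rfl
  let q : SpecialLinearGroup (Fin 2) F ⋊[φ] (L ≃ₐ[K] L) →* PSL2 F ⋊[β] (L ≃ₐ[K] L) :=
    SemidirectProduct.map (QuotientGroup.mk' _) (MonoidHom.id _) (by
      intro γ
      apply MonoidHom.ext
      intro a
      change (QuotientGroup.mk (slm (ρ γ) (hρ γ) a) : PSL2 F) = β γ (QuotientGroup.mk a)
      exact ((hlf (β γ)).2 a).symm)
  have hq : Function.Surjective q := by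
    rintro ⟨n, γ⟩
    obtain ⟨a, rfl⟩ := QuotientGroup.mk_surjective n
    exact ⟨⟨a, γ⟩, rfl⟩
  refine Pool.Agent.W200.IJ.regSol_quot (L' := L) SemidirectProduct.rightHom
    SemidirectProduct.rightHom q hq ?_ ?_ h1
  · intro g
    rw [Pool.Agent.TH444.TW.restrictNormal_self]
    rfl
  · intro σ hσ
    rw [Pool.Agent.TH444.TW.restrictNormal_self] at hσ
    exact ⟨1, map_one _, by rw [map_one, hσ]⟩

end Pool.Agent.Y60.DC
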