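import Pool.Agent.Y60.DC.PStep
import Pool.Agent.TH444.TW.RComp

/-!
# Embedding problems whose kernel is a `p`-group, in characteristic `p`
-/

set_option autoImplicit false

namespace Pool.Agent.Y60.DC

open Pool.Agent.H391R2.T4 (RegSol)

/-- A nontrivial normal `p`-subgroup contains a minimal normal subgroup which is elementary
abelian. -/
theorem exists_min_normal (p : ℕ) [Fact p.Prime] {X : Type} [Group X] [Finite X]
    (P : Subgroup X) [hPn : P.Normal] (hP : IsPGroup p P) (hne : P ≠ ⊥) :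
    ∃ A : Subgroup X, A.Normal ∧ A ≤ P ∧ A ≠ ⊥ ∧ (∀ a ∈ A, ∀ b ∈ A, a * b = b * a) ∧
      (∀ a ∈ A, a ^ p = 1) ∧ ∀ B : Subgroup X, B.Normal → B ≤ A → B = ⊥ ∨ B = A := by
  classical
  let Z : Subgroup X :=
    { carrier := {z | z ∈ P ∧ (∀ x ∈ P, z * x = x * z) ∧ z ^ p = 1}
      mul_mem' := by
        rintro y z ⟨h1, h2, h3⟩ ⟨h4, h5, h6⟩
        refine ⟨mul_mem h1 h4, fun x hx => ?_, ?_⟩
        · rw [mul_assoc, h5 x hx, ← mul_assoc, h2 x hx, mul_assoc]
        · have hc : Commute y z := h2 z h4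
          rw [hc.mul_pow, h3, h6, mul_one]
      one_mem' := ⟨one_mem _, fun x _ => by rw [one_mul, mul_one], one_pow _⟩
      inv_mem' := by
        rintro y ⟨h1, h2, h3⟩
        refine ⟨inv_mem h1, fun x hx => ?_, ?_⟩
        · have hc : Commute y x := h2 x hx
          exact hc.inv_left
        · rw [inv_pow, h3, inv_one] }
  have hZn : Z.Normal := ⟨by
    rintro z ⟨h1, h2, h3⟩ g
    refine ⟨hPn.conj_mem z h1 g, fun x hx => ?_, ?_⟩
    · have h4 : g⁻¹ * x * g ∈ P := by
        have := hPn.conj_mem x hx g⁻¹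
        rwa [inv_inv] at this
      have h5 := h2 _ h4
      calc g * z * g⁻¹ * x = g * (z * (g⁻¹ * x * g)) * g⁻¹ := by group
        _ = g * ((g⁻¹ * x * g) * z) * g⁻¹ := by rw [h5]
        _ = x * (g * z * g⁻¹) := by group
    · rw [conj_pow, h3, mul_one, mul_inv_cancel]⟩
  have hZne : Z ≠ ⊥ := by
    have hnt : Nontrivial P := (Subgroup.nontrivial_iff_ne_bot P).2 hne
    have h1 : Nontrivial (Subgroup.center P) := hP.center_nontrivial
    have h2 : IsPGroup p (Subgroup.center P) := hP.to_subgroup _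
    obtain ⟨z, hz⟩ : ∃ z : Subgroup.center P, orderOf z = p := by
      have h3 : p ∣ Nat.card (Subgroup.center P) := by
        rcases h2.exists_card_eq with ⟨n, hn⟩
        rw [hn]
        refine dvd_pow_self p ?_
        rintro rfl
        rw [pow_zero] at hn
        have h4 := Finite.one_lt_card_iff_nontrivial.2 h1
        omega
      exact exists_prime_orderOf_dvd_card' p h3
    intro h
    have h5 : ((z : P) : X) ∈ Z := by
      refine ⟨(z : P).2, fun x hx => ?_, ?_⟩
      · have h6 := Subgroup.mem_center_iff.1 z.2 ⟨x, hx⟩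
        exact (congrArg Subtype.val h6).symm
      · have h7 : z ^ p = 1 := by rw [← hz]; exact pow_orderOf_eq_one z
        have h8 := congrArg (fun w : Subgroup.center P => ((w : P) : X)) h7
        exact h8
    rw [h, Subgroup.mem_bot] at h5
    have h9 : z = 1 := Subtype.ext (Subtype.ext h5)
    rw [h9, orderOf_one] at hz
    exact (Fact.out : p.Prime).one_lt.ne hz
  let S : Set (Subgroup X) := {B | B.Normal ∧ B ≤ Z ∧ B ≠ ⊥}
  obtain ⟨A, hA⟩ := (Set.toFinite S).exists_minimal ⟨Z, hZn, le_rfl, hZne⟩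
  obtain ⟨⟨hA1, hA2, hA3⟩, hA4⟩ := hA
  refine ⟨A, hA1, fun a ha => (hA2 ha).1, hA3, fun a ha b hb => (hA2 ha).2.1 b (hA2 hb).1,
    fun a ha => (hA2 ha).2.2, fun B hB hBA => ?_⟩
  by_cases h : B = ⊥
  · exact Or.inl h
  · exact Or.inr (le_antisymm hBA (hA4 ⟨hB, hBA.trans hA2, h⟩ hBA))

theorem charP_ratFunc (K : Type) [Field K] (p : ℕ) [CharP K p] : CharP (RatFunc K) p :=
  charP_of_injective_algebraMap (algebraMap K (RatFunc K)).injective p

/-- Solutions in two steps. -/
theorem reg_two (p : ℕ) (K L X : Type) [Field K] [CharP K p] [Infinite K] [Field L] [Algebra K L]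
    [FiniteDimensional K L] [IsGalois K L] [Group X] [Finite X] (α : X →* (L ≃ₐ[K] L))
    (A : Subgroup X) [hAn : A.Normal] (hA : A ≤ α.ker)
    (h1 : ∀ β : (X ⧸ A) →* (L ≃ₐ[K] L), (∀ x, β (QuotientGroup.mk x) = α x) →
      RegSol K L (X ⧸ A) β)
    (h2 : ∀ (M : Type) [Field M] [Algebra (RatFunc K) M] [FiniteDimensional (RatFunc K) M]
      [IsGalois (RatFunc K) M] [CharP (RatFunc K) p] [Infinite (RatFunc K)]
      (β : X →* (M ≃ₐ[RatFunc K] M)), Function.Surjective β → β.ker = A →
      RegSol (RatFunc K) M X β) : RegSol K L X α := by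
  let β : (X ⧸ A) →* (L ≃ₐ[K] L) := QuotientGroup.lift A α fun x hx => hA hx
  have hβ : ∀ x, β (QuotientGroup.mk x) = α x := fun x => rfl
  have h3 := h1 β hβ
  have h4 := Pool.Agent.TH444.TW.reg_comp K L (X ⧸ A) X β (QuotientGroup.mk' A) h3 (by
    intro M _ _ _ _ γ₁
    have := charP_ratFunc K p
    have : Infinite (RatFunc K) := Infinite.of_injective _ (algebraMap K (RatFunc K)).injective
    refine h2 M _ (γ₁.symm.surjective.comp (QuotientGroup.mk'_surjective A)) ?_
    ext x
    rw [MonoidHom.mem_ker]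
    change γ₁.symm (QuotientGroup.mk' A x) = 1 ↔ _
    rw [map_eq_one_iff _ γ₁.symm.injective]
    exact QuotientGroup.eq_one_iff x)
  exact h4

/-- Trivial kernels. -/
theorem reg_bot (K L X : Type) [Field K] [Infinite K] [Field L] [Algebra K L]
    [FiniteDimensional K L] [IsGalois K L] [Group X] [Finite X] (α : X →* (L ≃ₐ[K] L))
    (hα : Function.Surjective α) (h : α.ker = ⊥) : RegSol K L X α := by
  refine Pool.Agent.W200.IJ.taskA_empty K L X α ((MonoidHom.ker_eq_bot_iff α).1 h) ?_
  intro x hx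
  rw [IsGalois.mem_range_algebraMap_iff_fixed]
  intro σ
  obtain ⟨g, rfl⟩ := hα σ
  exact hx g

/-- **Kernels which are `p`-groups.** -/
theorem pgroup_reg (p : ℕ) [Fact p.Prime] (n : ℕ) : ∀ (K L X : Type) [Field K] [CharP K p]
    [Infinite K] [Field L] [Algebra K L] [FiniteDimensional K L] [IsGalois K L] [Group X]
    [Finite X] (α : X →* (L ≃ₐ[K] L)), Function.Surjective α → IsPGroup p α.ker →
    Nat.card α.ker = n → RegSol K L X α := by
  induction n using Nat.strong_induction_on with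
  | _ n ih =>
  intro K L X _ _ _ _ _ _ _ _ _ α hα hp hcard
  by_cases hbot : α.ker = ⊥
  · exact reg_bot K L X α hα hbot
  obtain ⟨A, hA1, hA2, hA3, hA4, hA5, hA6⟩ := exists_min_normal p α.ker hp hbot
  refine reg_two p K L X α A hA2 ?_ ?_
  · intro β hβ
    have hβs : Function.Surjective β := fun σ => by
      obtain ⟨x, rfl⟩ := hα σ
      exact ⟨_, hβ x⟩
    have hmap : β.ker = α.ker.map (QuotientGroup.mk' A) := by
      ext y
      obtain ⟨x, rfl⟩ := QuotientGroup.mk_surjective y
      rw [MonoidHom.mem_ker, hβ, Subgroup.mem_map]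
      constructor
      · intro h
        exact ⟨x, h, rfl⟩
      · rintro ⟨z, hz, hzx⟩
        rw [← hβ, ← show β (QuotientGroup.mk z) = β (QuotientGroup.mk x) from congrArg β hzx, hβ]
        exact hz
    have hq : Function.Surjective ((QuotientGroup.mk' A).subgroupMap α.ker) :=
      MonoidHom.subgroupMap_surjective _ _
    have hpq : IsPGroup p β.ker := by
      rw [hmap]
      exact hp.of_surjective _ hq
    refine ih (Nat.card β.ker) ?_ K L (X ⧸ A) β hβs hpq rfl
    rw [← hcard, hmap]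
    refine lt_of_le_of_ne (Nat.card_le_card_of_surjective _ hq) fun h => ?_
    have hinj : Function.Injective ((QuotientGroup.mk' A).subgroupMap α.ker) :=
      (Function.Surjective.bijective_of_nat_card_le hq (le_of_eq h.symm)).1
    obtain ⟨a, ha, ha1⟩ := A.bot_or_exists_ne_one.resolve_left hA3
    apply ha1
    have h5 : (⟨a, hA2 ha⟩ : α.ker) = 1 := by
      apply hinj
      apply Subtype.ext
      exact (QuotientGroup.eq_one_iff a).2 ha
    exact congrArg Subtype.val h5
  · intro M _ _ _ _ _ _ β hβ hβk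
    have h3 : ∀ a, β a = 1 → a ∈ A := fun a ha => by rw [← hβk]; exact ha
    refine pstep (RatFunc K) M X β hβ p (fun a b ha hb => hA4 a (h3 a ha) b (h3 b hb))
      (fun a ha => hA5 a (h3 a ha)) (fun B hB hBk => ?_) (by rw [hβk]; exact hA3)
    rw [hβk] at hBk ⊢
    exact hA6 B hB hBk

end Pool.Agent.Y60.DC
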