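import Pool.Agent.Y60.DC.Coc
import Pool.Agent.Y60.DC.AddPoly

/-!
# Embedding problems whose kernel is a minimal normal elementary abelian `p`-subgroup
-/

set_option autoImplicit false

namespace Pool.Agent.Y60.DC

open Pool.Agent.H391R2.T4 (RegSol)

/-- Embedding problems over infinite fields of characteristic `p`, whose kernel is a minimal normal
subgroup and an elementary abelian `p`-group, have regular solutions. -/
theorem pstep (K L G : Type) [Field K] [Infinite K] [Field L] [Algebra K L]
    [FiniteDimensional K L] [IsGalois K L] [Group G] [Finite G] (α : G →* (L ≃ₐ[K] L))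
    (hα : Function.Surjective α) (p : ℕ) [Fact p.Prime] [CharP K p]
    (hcomm : ∀ a b : G, α a = 1 → α b = 1 → a * b = b * a)
    (hexp : ∀ a : G, α a = 1 → a ^ p = 1)
    (hmin : ∀ B : Subgroup G, B.Normal → B ≤ α.ker → B = ⊥ ∨ B = α.ker)
    (hne : α.ker ≠ ⊥) : RegSol K L G α := by
  classical
  obtain ⟨F, hF1, hF2, hF3⟩ := exists_lam α p hα hcomm hexp hmin hne
  obtain ⟨b, hb1, hb2⟩ := exists_coc hα hF1 hF2
  obtain ⟨U, iU, icU, aKU, aLU, tU, y', hy'⟩ := exists_univ K L Unit
  let y : U := y' ()
  have hone : F 1 = 0 := by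
    have h1 := hF1 1 1 (map_one α) (map_one α)
    rw [mul_one] at h1
    exact left_eq_add.1 h1
  -- the additive polynomial
  let _ : CommGroup α.ker :=
    { (inferInstance : Group α.ker) with
      mul_comm := fun x y => Subtype.ext (hcomm x.1 y.1 x.2 y.2) }
  have hfinK : Fintype (Additive α.ker) := Fintype.ofFinite _
  let f : Additive α.ker →+ L :=
    { toFun := fun a => F (Additive.toMul a : α.ker)
      map_zero' := hone
      map_add' := fun a c => hF1 _ _ (Additive.toMul a).2 (Additive.toMul c).2 }
  have hf : ∀ a, f a = F (Additive.toMul a : α.ker) := fun _ => rfl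
  have hfinj : Function.Injective f := by
    rw [injective_iff_map_eq_zero]
    intro a ha
    exact Additive.toMul.injective (Subtype.ext (hF3 _ (Additive.toMul a).2 ha))
  let P : L → L := fun z => ∏ a, (z - f a)
  have hP0 : P 0 = 0 := Finset.prod_eq_zero (Finset.mem_univ (0 : Additive α.ker)) (by
    rw [map_zero, sub_zero])
  have hPadd : ∀ z w, P (z + w) = P z + P w := fun z w => addpoly f hfinj z w
  have hPf : ∀ x, α x = 1 → P (F x) = 0 := fun x hx =>
    Finset.prod_eq_zero (Finset.mem_univ (Additive.ofMul (⟨x, hx⟩ : α.ker))) (sub_self _)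
  let fU : Additive α.ker →+ U := ((algebraMap L U : L →+* U) : L →+ U).comp f
  have hfU : ∀ a, fU a = algebraMap L U (f a) := fun _ => rfl
  have hfUinj : Function.Injective fU := (algebraMap L U).injective.comp hfinj
  let PU : U → U := fun z => ∏ a, (z - fU a)
  have hPUadd : ∀ z w, PU (z + w) = PU z + PU w := fun z w => addpoly fU hfUinj z w
  have hPUf : ∀ x, α x = 1 → PU (algebraMap L U (F x)) = 0 := fun x hx =>
    Finset.prod_eq_zero (Finset.mem_univ (Additive.ofMul (⟨x, hx⟩ : α.ker))) (sub_self _)
  have hPUL : ∀ z, PU (algebraMap L U z) = algebraMap L U (P z) := by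
    intro z
    change ∏ a, (algebraMap L U z - fU a) = algebraMap L U (∏ a, (z - f a))
    rw [map_prod]
    refine Finset.prod_congr rfl fun a _ => ?_
    rw [map_sub]
    rfl
  -- conjugation permutes the roots
  let cj : G → (Additive α.ker ≃ Additive α.ker) := fun g =>
    { toFun := fun a => Additive.ofMul ⟨g * (Additive.toMul a : α.ker) * g⁻¹,
        α.normal_ker.conj_mem _ (Additive.toMul a).2 g⟩
      invFun := fun a => Additive.ofMul ⟨g⁻¹ * (Additive.toMul a : α.ker) * g⁻¹⁻¹,
        α.normal_ker.conj_mem _ (Additive.toMul a).2 g⁻¹⟩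
      left_inv := fun a => by
        apply Additive.toMul.injective
        apply Subtype.ext
        change g⁻¹ * (g * (Additive.toMul a : α.ker) * g⁻¹) * g⁻¹⁻¹ = _
        group
      right_inv := fun a => by
        apply Additive.toMul.injective
        apply Subtype.ext
        change g * (g⁻¹ * (Additive.toMul a : α.ker) * g⁻¹⁻¹) * g⁻¹ = _
        group }
  have hcj : ∀ g a, f (cj g a) = α g (f a) := fun g a => hF2 g _ (Additive.toMul a).2
  have hPg : ∀ g z, P (α g z) = α g (P z) := by
    intro g z
    change ∏ a, (α g z - f a) = α g (∏ a, (z - f a))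
    rw [map_prod, ← Equiv.prod_comp (cj g)]
    refine Finset.prod_congr rfl fun a _ => ?_
    rw [hcj, map_sub]
  have hPUσ : ∀ (σ : U ≃ₐ[K] U) (g : G), (∀ l, σ (algebraMap L U l) = algebraMap L U (α g l)) →
      ∀ z, PU (σ z) = σ (PU z) := by
    intro σ g hσ z
    change ∏ a, (σ z - fU a) = σ (∏ a, (z - fU a))
    rw [map_prod, ← Equiv.prod_comp (cj g)]
    refine Finset.prod_congr rfl fun a _ => ?_
    rw [hfU, hcj, map_sub, hfU, hσ]
  -- the constant `d`
  obtain ⟨d, hd⟩ := exists_cob hα (D := fun g => P (b g)) (fun g h => by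
    change P (b (g * h)) = P (b g) + α g (P (b h))
    rw [hb1, hPadd, hPg]) (fun x hx => by
    change P (b x) = 0
    rw [hb2 x hx, hPf x hx])
  let x : Unit → U := fun _ => PU y - algebraMap L U d
  have hy : IsTranscendenceBasis K (fun _ : Unit => y) := hy'
  -- `x` is a transcendence basis
  have hx : IsTranscendenceBasis K x := by
    refine tb_of_alg hy x fun _ => ?_
    rw [← mem_hull]
    let Q : Polynomial U := ∏ a, (Polynomial.X - Polynomial.C (fU a)) -
      Polynomial.C (algebraMap L U d + x ())
    have hQm : (∏ a, (Polynomial.X - Polynomial.C (fU a))).Monic :=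
      Polynomial.monic_prod_of_monic _ _ fun a _ => Polynomial.monic_X_sub_C _
    have hQd : (∏ a, (Polynomial.X - Polynomial.C (fU a))).natDegree =
        Fintype.card (Additive α.ker) := by
      rw [Polynomial.natDegree_prod_of_monic _ _ fun a _ => Polynomial.monic_X_sub_C _]
      simp only [Polynomial.natDegree_X_sub_C, Finset.sum_const, Finset.card_univ, smul_eq_mul,
        mul_one]
    have hLh : ∀ l : L, algebraMap L U l ∈ hull K x := fun l => hull_alg x _
      ((Algebra.IsAlgebraic.isAlgebraic (R := K) l).algebraMap)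
    refine hull_closed x Q ?_ ?_ y ?_
    · intro h
      have h1 : (∏ a, (Polynomial.X - Polynomial.C (fU a))) =
          Polynomial.C (algebraMap L U d + x ()) := sub_eq_zero.1 h
      have h2 := congrArg Polynomial.natDegree h1
      rw [hQd, Polynomial.natDegree_C] at h2
      exact absurd h2 Fintype.card_ne_zero
    · let H := hull K x
      have h1 : (∏ a, (Polynomial.X - Polynomial.C (fU a))) ∈
          Polynomial.lifts (algebraMap H U) := by
        refine Subsemiring.prod_mem _ fun a _ => ?_
        refine (Polynomial.mem_lifts _).2 ⟨Polynomial.X - Polynomial.C ⟨fU a, hLh (f a)⟩, ?_⟩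
        rw [Polynomial.map_sub, Polynomial.map_X, Polynomial.map_C]
        rfl
      intro n
      change (_ - _ : Polynomial U).coeff n ∈ _
      rw [Polynomial.coeff_sub]
      refine sub_mem ?_ ?_
      · obtain ⟨c, hc⟩ := (Polynomial.lifts_iff_coeff_lifts _).1 h1 n
        rw [← hc]
        exact c.2
      · rw [Polynomial.coeff_C]
        split_ifs
        · exact add_mem (hLh d) (hull_x x ())
        · exact zero_mem _
    · change (_ - _ : Polynomial U).eval y = 0
      rw [Polynomial.eval_sub, Polynomial.eval_prod, Polynomial.eval_C]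
      simp only [Polynomial.eval_sub, Polynomial.eval_X, Polynomial.eval_C]
      change PU y - (algebraMap L U d + (PU y - algebraMap L U d)) = 0
      ring
  let bL := Module.finBasis K L
  refine frame K L G α hα U Unit x hx
    (fun σ g => (∀ l, σ (algebraMap L U l) = algebraMap L U (α g l)) ∧
      σ y = y + algebraMap L U (b g)) ?_ ?_ ?_ (fun σ g h => h.1)
    (Set.insert y (Set.range fun i => algebraMap L U (bL i)))
    ((Set.finite_range _).insert y) ?_ ?_
  · -- existence
    intro σ hσ
    obtain ⟨g₀, hg₀⟩ := hα (σ.restrictNormal L)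
    have h1 : ∀ l, σ (algebraMap L U l) = algebraMap L U (α g₀ l) := by
      intro l
      rw [hg₀, AlgEquiv.restrictNormal_commutes]
    have h2 : PU (σ y - y - algebraMap L U (b g₀)) = 0 := by
      have h3 : PU (σ y) = PU y + algebraMap L U (P (b g₀)) := by
        rw [hPUσ σ g₀ h1]
        have h4 : PU y = x () + algebraMap L U d := by
          change PU y = PU y - algebraMap L U d + algebraMap L U d
          ring
        have h5 : σ (PU y) = x () + algebraMap L U (α g₀ d) := by
          rw [h4, map_add, hσ (), h1]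
        rw [h5, hd, map_add]
        rw [h4]
        ring
      have h6 : PU (σ y) = PU (σ y - y - algebraMap L U (b g₀)) +
          (PU y + PU (algebraMap L U (b g₀))) := by
        rw [← hPUadd, ← hPUadd]
        congr 1
        ring
      rw [h3, hPUL] at h6
      linear_combination -h6
    obtain ⟨a, -, ha⟩ := Finset.prod_eq_zero_iff.1 h2
    refine ⟨(Additive.toMul a : α.ker) * g₀, fun l => ?_, ?_⟩
    · rw [map_mul, (Additive.toMul a).2, one_mul, h1]
    · have h7 : α (Additive.toMul a : α.ker) = 1 := (Additive.toMul a).2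
      rw [hb1, hb2 _ h7, h7, map_add]
      have h8 : σ y - y - algebraMap L U (b g₀) = algebraMap L U (f a) := sub_eq_zero.1 ha
      rw [hf] at h8
      have h9 : (1 : L ≃ₐ[K] L) (b g₀) = b g₀ := rfl
      rw [h9, ← h8]
      ring
  · -- uniqueness
    rintro σ g h ⟨h1, h2⟩ ⟨h3, h4⟩
    have h5 : α g = α h := by
      ext l
      apply (algebraMap L U).injective
      rw [← h1, ← h3]
    have h6 : b g = b h := by
      apply (algebraMap L U).injective
      rw [h2] at h4
      exact add_left_cancel h4
    have h7 : α (g⁻¹ * h) = 1 := by rw [map_mul, map_inv, h5, inv_mul_cancel]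
    have h8 := hb1 g (g⁻¹ * h)
    rw [mul_inv_cancel_left, hb2 _ h7, ← h6] at h8
    have h9 : α g (F (g⁻¹ * h)) = 0 := left_eq_add.1 h8
    rw [map_eq_zero_iff _ (α g).injective] at h9
    exact inv_mul_eq_one.1 (hF3 _ h7 h9)
  · -- products
    rintro σ τ g h ⟨h1, h2⟩ ⟨h3, h4⟩
    refine ⟨fun l => ?_, ?_⟩
    · rw [AlgEquiv.mul_apply, h3, h1, map_mul]
      rfl
    · rw [AlgEquiv.mul_apply, h4, map_add, h2, h1, hb1, map_add]
      ring
  · -- finiteness
    intro σ hσ hS
    have hb1' : b 1 = 0 := by rw [hb2 1 (map_one α), hone]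
    refine ⟨fun l => ?_, ?_⟩
    · rw [map_one]
      change σ (algebraMap L U l) = algebraMap L U l
      rw [← bL.sum_repr l, map_sum, map_sum]
      refine Finset.sum_congr rfl fun i _ => ?_
      rw [Algebra.smul_def, map_mul, map_mul, hS _ (Or.inr ⟨i, rfl⟩),
        ← IsScalarTower.algebraMap_apply K L U, AlgEquiv.commutes]
    · rw [hS y (Or.inl rfl), hb1', map_zero, add_zero]
  · -- the kernel
    intro g hg
    let C := algebraicClosure K U
    have hCy : IsTranscendenceBasis C (fun _ : Unit => y) := tb_up hy
    let v : U := algebraMap L U (F g)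
    have hv : v ∈ C := by
      rw [mem_algebraicClosure_iff]
      exact (Algebra.IsAlgebraic.isAlgebraic (R := K) (F g)).algebraMap
    have hCy' : IsTranscendenceBasis C (fun _ : Unit => y + v) := by
      refine tb_of_alg hCy _ fun _ => ?_
      have h1 : y ∈ IntermediateField.adjoin C (Set.range fun _ : Unit => y + v) := by
        have h2 : (y + v) - algebraMap C U ⟨v, hv⟩ = y := add_sub_cancel_right y v
        have h3 : (y + v) - algebraMap C U ⟨v, hv⟩ ∈
            IntermediateField.adjoin C (Set.range fun _ : Unit => y + v) :=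
          sub_mem (IntermediateField.subset_adjoin C _ ⟨(), rfl⟩)
            (IntermediateField.algebraMap_mem _ _)
        rwa [h2] at h3
      exact isAlgebraic_algebraMap (⟨y, h1⟩ :
        IntermediateField.adjoin C (Set.range fun _ : Unit => y + v))
    obtain ⟨σ, hσ⟩ := exists_iso C U U Unit hCy hCy'
    have hfix : ∀ z, IsAlgebraic K z → σ z = z := fun z hz =>
      σ.commutes ⟨z, mem_algebraicClosure_iff.2 hz⟩
    have hfixL : ∀ l, σ (algebraMap L U l) = algebraMap L U l := fun l =>
      hfix _ ((Algebra.IsAlgebraic.isAlgebraic (R := K) l).algebraMap)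
    have hσy : σ y = y + v := hσ ()
    have hσL : ∀ l, (σ.restrictScalars K) (algebraMap L U l) = algebraMap L U (α g l) := by
      intro l
      rw [hg]
      exact hfixL l
    refine ⟨σ.restrictScalars K, hfix, fun i => ?_, hσL, ?_⟩
    · change σ (PU y - algebraMap L U d) = PU y - algebraMap L U d
      rw [map_sub, hfixL]
      have h3 := hPUσ (σ.restrictScalars K) g hσL y
      have h4 : σ (PU y) = PU (y + v) := by
        rw [← hσy]
        exact h3.symm
      rw [h4, hPUadd, hPUf g hg, add_zero]
    · change σ y = _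
      rw [hσy, hb2 g hg]

end Pool.Agent.Y60.DC
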