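import Pool.Agent.Y60.DC.Lift
import Pool.Agent.Y60.DC.PGrp
import Pool.Agent.Y60.DC.Good

/-!
# Kernels with composition factors `Z/p` and `PSL_2(F)`: the recursion
-/

set_option autoImplicit false

namespace Pool.Agent.Y60.DC

open Pool.Agent.H391R2.T4 (RegSol)
open Pool.Agent.TH59.WX (Indec)
open Matrix (SpecialLinearGroup)

theorem psl_center (F : Type) [Field F] (hF : 4 ≤ Nat.card F) :
    Subgroup.center (PSL2 F) = ⊥ := by
  have hs : IsSimpleGroup (PSL2 F) := Matrix.ProjectiveSpecialLinearGroup.rank_two_simple hF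
  rcases hs.eq_bot_or_eq_top_of_normal (Subgroup.center (PSL2 F)) inferInstance with h | h
  · exact h
  · exfalso
    let A : SpecialLinearGroup (Fin 2) F := ⟨!![1, 1; 0, 1], by simp [Matrix.det_fin_two]⟩
    let B : SpecialLinearGroup (Fin 2) F := ⟨!![1, 0; 1, 1], by simp [Matrix.det_fin_two]⟩
    have h1 : (QuotientGroup.mk A : PSL2 F) ∈ Subgroup.center (PSL2 F) := by
      rw [h]
      exact Subgroup.mem_top _
    have h2 := Subgroup.mem_center_iff.1 h1 (QuotientGroup.mk B)
    obtain ⟨r, -, hr⟩ := mk_eq (B * A) (A * B) h2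
    have h3 : ((A * B : SpecialLinearGroup (Fin 2) F) : Mt F) = !![2, 1; 1, 1] := by
      rw [Matrix.SpecialLinearGroup.coe_mul]
      change (!![1, 1; 0, 1] : Mt F) * !![1, 0; 1, 1] = _
      ext i j
      fin_cases i <;> fin_cases j <;> simp [Matrix.mul_apply, Fin.sum_univ_two]
      norm_num
    have h4 : ((B * A : SpecialLinearGroup (Fin 2) F) : Mt F) = !![1, 1; 1, 2] := by
      rw [Matrix.SpecialLinearGroup.coe_mul]
      change (!![1, 0; 1, 1] : Mt F) * !![1, 1; 0, 1] = _
      ext i j
      fin_cases i <;> fin_cases j <;> simp [Matrix.mul_apply, Fin.sum_univ_two]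
      norm_num
    rw [h3, h4] at hr
    have h5 := congrFun (congrFun hr 0) 1
    have h6 := congrFun (congrFun hr 0) 0
    simp at h5 h6
    rw [← h5] at h6
    have h7 : (1 : F) = 0 := by linear_combination h6
    exact one_ne_zero h7

theorem indec_of_simple (T : Type) [Group T] [hs : IsSimpleGroup T]
    (h : Subgroup.center T = ⊥) : Indec T := by
  intro A B hAB hT
  have hn : A.Normal := by
    refine ⟨fun n hn g => ?_⟩
    obtain ⟨a, ha, b, hb, rfl⟩ := hT g
    have h1 : a * b * n * (a * b)⁻¹ = a * n * a⁻¹ := by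
      have h2 : n * b = b * n := hAB n hn b hb
      calc a * b * n * (a * b)⁻¹ = a * (b * n) * b⁻¹ * a⁻¹ := by group
        _ = a * (n * b) * b⁻¹ * a⁻¹ := by rw [h2]
        _ = a * n * a⁻¹ := by group
    rw [h1]
    exact mul_mem (mul_mem ha hn) (inv_mem ha)
  rcases hs.eq_bot_or_eq_top_of_normal A hn with h1 | h1
  · exact Or.inl h1
  · right
    rw [eq_bot_iff, ← h]
    intro b hb
    rw [Subgroup.mem_center_iff]
    intro g
    exact hAB g (by rw [h1]; exact Subgroup.mem_top _) b hb

/-- **All embedding problems with kernel `PSL_2(F)`.** -/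
theorem good_psl (hA : TaskAUT) (hC : TaskCOMPL) (hE : TaskCENT) (p : ℕ) [hp : Fact p.Prime]
    (F : Type) [Field F] [Finite F] (k : ℕ) (hF : 4 ≤ Nat.card F) (hk : Nat.card F = p ^ k)
    (hpk : p = 2 ∨ Odd k) : GoodKerP p (PSL2 F) := by
  have hft : Fintype F := Fintype.ofFinite F
  have hchar : CharP F p := charP_of_card_eq_prime_pow (f := k) (by
    rw [← Nat.card_eq_fintype_card, hk])
  have hfin : Finite (SpecialLinearGroup (Fin 2) F) := inferInstance
  have hfin2 : Finite (PSL2 F) := Finite.of_surjective _ QuotientGroup.mk_surjective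
  exact hE p (PSL2 F) (psl_center F hF) (hC F p k hp.out hF hk hpk) (locP hA p F hF)

/-- The composition factors which are allowed: groups of order `p`, and the groups `PSL_2(F)`,
`F` a field with `p ^ k ≥ 4` elements, `k` odd if `p ≠ 2`. -/
def Fac (p : ℕ) (T : Type) [Group T] : Prop :=
  Nat.card T = p ∨ ∃ (F : Type) (_ : Field F) (k : ℕ), 4 ≤ Nat.card F ∧ Nat.card F = p ^ k ∧
    (p = 2 ∨ Odd k) ∧ Nonempty (T ≃* PSL2 F)

theorem Fac.iso (p : ℕ) (T T' : Type) [Group T] [Group T'] (e : Nonempty (T ≃* T'))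
    (h : Fac p T) : Fac p T' := by
  obtain ⟨e⟩ := e
  rcases h with h | ⟨F, iF, k, h1, h2, h3, ⟨f⟩⟩
  · exact Or.inl (by rw [← h]; exact (Nat.card_congr e.toEquiv).symm)
  · exact Or.inr ⟨F, iF, k, h1, h2, h3, ⟨e.symm.trans f⟩⟩

theorem Fac.simple (p : ℕ) [hp : Fact p.Prime] (T : Type) [Group T] (h : Fac p T) :
    IsSimpleGroup T := by
  rcases h with h | ⟨F, iF, k, h1, h2, h3, ⟨f⟩⟩
  · exact isSimpleGroup_of_prime_card h
  · have hs : IsSimpleGroup (PSL2 F) := Matrix.ProjectiveSpecialLinearGroup.rank_two_simple h1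
    exact f.isSimpleGroup

/-- **The main theorem over infinite fields.** -/
theorem kern_reg (hA : TaskAUT) (hC : TaskCOMPL) (hE : TaskCENT) (hP : TaskPROD) (hF : TaskCF)
    (p : ℕ) [Fact p.Prime] (n : ℕ) : ∀ (K L X : Type) [Field K] [CharP K p]
    [Infinite K] [Field L] [Algebra K L] [FiniteDimensional K L] [IsGalois K L] [Group X]
    [Finite X] (α : X →* (L ≃ₐ[K] L)), Function.Surjective α → CompIn (Fac p) α.ker →
    Nat.card α.ker = n → RegSol K L X α := by
  induction n using Nat.strong_induction_on with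
  | _ n ih =>
  intro K L X _ _ _ _ _ _ _ _ _ α hα hc hcard
  by_cases hbot : α.ker = ⊥
  · exact reg_bot K L X α hα hbot
  obtain ⟨A, hA1, hA2, hA3, ⟨T, iT, m, hT, ⟨e⟩⟩, hA5⟩ :=
    hF (Fac p) (fun T T' _ _ h h' => Fac.iso p T T' h h') (fun T _ h => Fac.simple p T h) X α.ker
      hbot hc
  refine reg_two p K L X α A hA2 ?_ ?_
  · intro β hβ
    have hβs : Function.Surjective β := fun σ => by
      obtain ⟨x, rfl⟩ := hα σ
      exact ⟨_, hβ x⟩
    have hmap : β.ker = α.ker.map (QuotientGroup.mk' A) := by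
      ext y
      obtain ⟨x, rfl⟩ := QuotientGroup.mk_surjective y
      rw [MonoidHom.mem_ker, hβ, Subgroup.mem_map]
      constructor
      · intro h
        exact ⟨x, h, rfl⟩
      · rintro ⟨z, hz, hzx⟩
        rw [← hβ, ← show β (QuotientGroup.mk z) = β (QuotientGroup.mk x) from congrArg β hzx, hβ]
        exact hz
    have hq : Function.Surjective ((QuotientGroup.mk' A).subgroupMap α.ker) :=
      MonoidHom.subgroupMap_surjective _ _
    rw [← hmap] at hA5
    refine ih (Nat.card β.ker) ?_ K L (X ⧸ A) β hβs hA5 rfl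
    rw [← hcard, hmap]
    refine lt_of_le_of_ne (Nat.card_le_card_of_surjective _ hq) fun h => ?_
    have hinj : Function.Injective ((QuotientGroup.mk' A).subgroupMap α.ker) :=
      (Function.Surjective.bijective_of_nat_card_le hq (le_of_eq h.symm)).1
    obtain ⟨a, ha, ha1⟩ := A.bot_or_exists_ne_one.resolve_left hA3
    apply ha1
    have h5 : (⟨a, hA2 ha⟩ : α.ker) = 1 := by
      apply hinj
      apply Subtype.ext
      exact (QuotientGroup.eq_one_iff a).2 ha
    exact congrArg Subtype.val h5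
  · intro M _ _ _ _ _ _ β hβ hβk
    rcases hT with hT | ⟨F, iF, k, h1, h2, h3, ⟨f⟩⟩
    · have hpA : IsPGroup p A := by
        refine IsPGroup.of_card (n := m) ?_
        rw [Nat.card_congr e.toEquiv, Nat.card_pi]
        simp [hT]
      have hpβ : IsPGroup p β.ker := by
        rw [hβk]
        exact hpA
      exact pgroup_reg p _ (RatFunc K) M X β hβ hpβ rfl
    · have hfF : Finite F := (Nat.card_pos_iff.1 (by omega)).2
      have hs : IsSimpleGroup (PSL2 F) := Matrix.ProjectiveSpecialLinearGroup.rank_two_simple h1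
      have hfin : Finite (SpecialLinearGroup (Fin 2) F) := inferInstance
      have hfin2 : Finite (PSL2 F) := Finite.of_surjective _ QuotientGroup.mk_surjective
      have hg : GoodKerP p (∀ _ : Fin m, PSL2 F) := hP p (Fin m) (fun _ => PSL2 F)
        (fun _ => indec_of_simple _ (psl_center F h1)) (fun _ => hs.toNontrivial)
        (fun _ => good_psl hA hC hE p F k h1 h2 h3)
      refine hg (RatFunc K) M X β hβ ⟨?_⟩
      exact (MulEquiv.subgroupCongr hβk).trans (e.trans (MulEquiv.piCongrRight fun _ => f))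

end Pool.Agent.Y60.DC
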