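import Pool.Agent.Y60.DC.LiftN
import Pool.Agent.Y60.DC.Rec

/-!
# Kernels with composition factors `Z/p`, `PSL_2(F)` and `PSL_n(F)`
-/

set_option autoImplicit false

namespace Pool.Agent.Y60.DC

open Pool.Agent.H391R2.T4 (RegSol)
open Pool.Agent.TH59.WX (Indec)
open Matrix

/-- The group `PSL_n(F)`. -/
abbrev PSLn (n : ℕ) (F : Type) [Field F] : Type := Matrix.ProjectiveSpecialLinearGroup (Fin n) F

section cen

variable {F : Type} [Field F] [Finite F] {n : ℕ}

theorem sln_center (hn : 3 ≤ n) (hc : Nat.Coprime n (Nat.card F - 1)) :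
    Subgroup.center (SLn n F) = ⊥ := by
  classical
  have hft : Fintype F := Fintype.ofFinite F
  rw [eq_bot_iff]
  intro A hA
  obtain ⟨r, hr, hrA⟩ := Matrix.SpecialLinearGroup.mem_center_iff.1 hA
  rw [Fintype.card_fin] at hr
  have hr0 : r ≠ 0 := by
    rintro rfl
    rw [zero_pow (by omega)] at hr
    exact zero_ne_one hr
  have hr1 : r ^ (Nat.card F - 1) = 1 := by
    rw [Nat.card_eq_fintype_card]
    exact FiniteField.pow_card_sub_one_eq_one r hr0
  have h1 : r = 1 := by
    have h2 := orderOf_dvd_of_pow_eq_one hr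
    have h3 := orderOf_dvd_of_pow_eq_one hr1
    have h4 : orderOf r ∣ 1 := by
      rw [← hc]
      exact Nat.dvd_gcd h2 h3
    exact orderOf_eq_one_iff.1 (Nat.dvd_one.1 h4)
  rw [Subgroup.mem_bot]
  apply Subtype.ext
  rw [← hrA, h1, map_one]
  rfl

/-- `PSL_n(F)` is `SL_n(F)`. -/
noncomputable def psln_equiv (hn : 3 ≤ n) (hc : Nat.Coprime n (Nat.card F - 1)) :
    SLn n F ≃* PSLn n F :=
  MulEquiv.ofBijective (QuotientGroup.mk' (Subgroup.center (SLn n F))) ⟨by
    rw [← MonoidHom.ker_eq_bot_iff, QuotientGroup.ker_mk', sln_center hn hc],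
    QuotientGroup.mk'_surjective _⟩

end cen

/-- **All embedding problems with kernel `SL_n(F)`.** -/
theorem good_sln (hA : TaskAUTN) (hC : TaskCOMPLN) (hE : TaskCENT) (p : ℕ) [hp : Fact p.Prime]
    (F : Type) [Field F] [Finite F] [CharP F p] (n : ℕ) (hn : 3 ≤ n)
    (hc : Nat.Coprime n (Nat.card F - 1)) : GoodKerP p (SLn n F) := by
  have hfin : Finite (SLn n F) := inferInstance
  exact hE p (SLn n F) (sln_center hn hc) (hC F n hn hc) (locPN hA p F n hn hc)

/-- The composition factors which are allowed: groups of order `p`, the simple groups `PSL_2(F)`,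
`F` a field with `p ^ k ≥ 4` elements, `k` odd if `p ≠ 2`, and the simple groups `PSL_n(F)`, `n ≥ 3`
prime to `|F| - 1`, `F` a finite field of characteristic `p`. -/
def FacN (p : ℕ) (T : Type) [Group T] : Prop :=
  Nat.card T = p ∨
  (∃ (F : Type) (_ : Field F) (k : ℕ), 4 ≤ Nat.card F ∧ Nat.card F = p ^ k ∧
    (p = 2 ∨ Odd k) ∧ Nonempty (T ≃* PSL2 F)) ∨
  ∃ (F : Type) (_ : Field F) (_ : Finite F) (_ : CharP F p) (n : ℕ), 3 ≤ n ∧
    Nat.Coprime n (Nat.card F - 1) ∧ Nonempty (T ≃* PSLn n F)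

theorem FacN.iso (p : ℕ) (T T' : Type) [Group T] [Group T'] (e : Nonempty (T ≃* T'))
    (h : FacN p T) : FacN p T' := by
  obtain ⟨e⟩ := e
  rcases h with h | ⟨F, iF, k, h1, h2, h3, ⟨f⟩⟩ | ⟨F, iF, jF, cF, n, h1, h2, ⟨f⟩⟩
  · exact Or.inl (by rw [← h]; exact (Nat.card_congr e.toEquiv).symm)
  · exact Or.inr (Or.inl ⟨F, iF, k, h1, h2, h3, ⟨e.symm.trans f⟩⟩)
  · exact Or.inr (Or.inr ⟨F, iF, jF, cF, n, h1, h2, ⟨e.symm.trans f⟩⟩)

/-- Simplicity of `PSL_n(F)`. -/
def SimpleN : Prop := ∀ (F : Type) [Field F] [Finite F] (n : ℕ), 3 ≤ n → IsSimpleGroup (PSLn n F)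

theorem FacN.simple (hS : SimpleN) (p : ℕ) [hp : Fact p.Prime] (T : Type) [Group T]
    (h : FacN p T) : IsSimpleGroup T := by
  rcases h with h | ⟨F, iF, k, h1, h2, h3, ⟨f⟩⟩ | ⟨F, iF, jF, cF, n, h1, h2, ⟨f⟩⟩
  · exact isSimpleGroup_of_prime_card h
  · have hs : IsSimpleGroup (PSL2 F) := Matrix.ProjectiveSpecialLinearGroup.rank_two_simple h1
    exact f.isSimpleGroup
  · have hs : IsSimpleGroup (PSLn n F) := hS F n h1
    exact f.isSimpleGroup

/-- **The main theorem over infinite fields.** -/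
theorem kern_regN (hA : TaskAUT) (hC : TaskCOMPL) (hE : TaskCENT) (hP : TaskPROD) (hF : TaskCF)
    (hAN : TaskAUTN) (hCN : TaskCOMPLN) (hS : SimpleN)
    (p : ℕ) [Fact p.Prime] (n : ℕ) : ∀ (K L X : Type) [Field K] [CharP K p]
    [Infinite K] [Field L] [Algebra K L] [FiniteDimensional K L] [IsGalois K L] [Group X]
    [Finite X] (α : X →* (L ≃ₐ[K] L)), Function.Surjective α → CompIn (FacN p) α.ker →
    Nat.card α.ker = n → RegSol K L X α := by
  induction n using Nat.strong_induction_on with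
  | _ n ih =>
  intro K L X _ _ _ _ _ _ _ _ _ α hα hc hcard
  by_cases hbot : α.ker = ⊥
  · exact reg_bot K L X α hα hbot
  obtain ⟨A, hA1, hA2, hA3, ⟨T, iT, m, hT, ⟨e⟩⟩, hA5⟩ :=
    hF (FacN p) (fun T T' _ _ h h' => FacN.iso p T T' h h') (fun T _ h => FacN.simple hS p T h)
      X α.ker hbot hc
  refine reg_two p K L X α A hA2 ?_ ?_
  · intro β hβ
    have hβs : Function.Surjective β := fun σ => by
      obtain ⟨x, rfl⟩ := hα σ
      exact ⟨_, hβ x⟩
    have hmap : β.ker = α.ker.map (QuotientGroup.mk' A) := by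
      ext y
      obtain ⟨x, rfl⟩ := QuotientGroup.mk_surjective y
      rw [MonoidHom.mem_ker, hβ, Subgroup.mem_map]
      constructor
      · intro h
        exact ⟨x, h, rfl⟩
      · rintro ⟨z, hz, hzx⟩
        rw [← hβ, ← show β (QuotientGroup.mk z) = β (QuotientGroup.mk x) from congrArg β hzx, hβ]
        exact hz
    have hq : Function.Surjective ((QuotientGroup.mk' A).subgroupMap α.ker) :=
      MonoidHom.subgroupMap_surjective _ _
    rw [← hmap] at hA5
    refine ih (Nat.card β.ker) ?_ K L (X ⧸ A) β hβs hA5 rfl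
    rw [← hcard, hmap]
    refine lt_of_le_of_ne (Nat.card_le_card_of_surjective _ hq) fun h => ?_
    have hinj : Function.Injective ((QuotientGroup.mk' A).subgroupMap α.ker) :=
      (Function.Surjective.bijective_of_nat_card_le hq (le_of_eq h.symm)).1
    obtain ⟨a, ha, ha1⟩ := A.bot_or_exists_ne_one.resolve_left hA3
    apply ha1
    have h5 : (⟨a, hA2 ha⟩ : α.ker) = 1 := by
      apply hinj
      apply Subtype.ext
      exact (QuotientGroup.eq_one_iff a).2 ha
    exact congrArg Subtype.val h5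
  · intro M _ _ _ _ _ _ β hβ hβk
    rcases hT with hT | ⟨F, iF, k, h1, h2, h3, ⟨f⟩⟩ | ⟨F, iF, jF, cF, k, h1, h2, ⟨f⟩⟩
    · have hpA : IsPGroup p A := by
        refine IsPGroup.of_card (n := m) ?_
        rw [Nat.card_congr e.toEquiv, Nat.card_pi]
        simp [hT]
      have hpβ : IsPGroup p β.ker := by
        rw [hβk]
        exact hpA
      exact pgroup_reg p _ (RatFunc K) M X β hβ hpβ rfl
    · have hfF : Finite F := (Nat.card_pos_iff.1 (by omega)).2
      have hs : IsSimpleGroup (PSL2 F) := Matrix.ProjectiveSpecialLinearGroup.rank_two_simple h1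
      have hfin : Finite (SpecialLinearGroup (Fin 2) F) := inferInstance
      have hfin2 : Finite (PSL2 F) := Finite.of_surjective _ QuotientGroup.mk_surjective
      have hg : GoodKerP p (∀ _ : Fin m, PSL2 F) := hP p (Fin m) (fun _ => PSL2 F)
        (fun _ => indec_of_simple _ (psl_center F h1)) (fun _ => hs.toNontrivial)
        (fun _ => good_psl hA hC hE p F k h1 h2 h3)
      refine hg (RatFunc K) M X β hβ ⟨?_⟩
      exact (MulEquiv.subgroupCongr hβk).trans (e.trans (MulEquiv.piCongrRight fun _ => f))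
    · have hs0 : IsSimpleGroup (PSLn k F) := hS F k h1
      have hs : IsSimpleGroup (SLn k F) := (psln_equiv h1 h2).isSimpleGroup
      have hfin : Finite (SLn k F) := inferInstance
      have hg : GoodKerP p (∀ _ : Fin m, SLn k F) := hP p (Fin m) (fun _ => SLn k F)
        (fun _ => indec_of_simple _ (sln_center h1 h2)) (fun _ => hs.toNontrivial)
        (fun _ => good_sln hAN hCN hE p F k h1 h2)
      refine hg (RatFunc K) M X β hβ ⟨?_⟩
      exact (MulEquiv.subgroupCongr hβk).trans (e.trans (MulEquiv.piCongrRight fun _ =>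
        f.trans (psln_equiv h1 h2).symm))

end Pool.Agent.Y60.DC
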