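import Pool.Agent.Y60.DC.SpLoc

/-!
# The projective symplectic group
-/

set_option autoImplicit false

open TensorProduct Matrix

namespace Pool.Agent.Y60.DC

/-- The group `PSp_2n(F)`. -/
abbrev PSpM (n : ℕ) (F : Type) [Field F] : Type :=
  ↥(Matrix.symplecticGroup (Fin n) F) ⧸ Subgroup.center ↥(Matrix.symplecticGroup (Fin n) F)

section grp

variable {n : ℕ} {F : Type} [Field F]

theorem sp_comm_pm (hE : TaskSEQV) (hC : TaskSCEN) (s : SpM n F)
    (h : ∀ t : SpM n F, (s : M₀ n F) * (t : M₀ n F) = (t : M₀ n F) * (s : M₀ n F) ∨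
      (s : M₀ n F) * (t : M₀ n F) = -((t : M₀ n F) * (s : M₀ n F))) :
    (s : M₀ n F) = 1 ∨ (s : M₀ n F) = -1 := by
  obtain ⟨hB, ⟨e, he⟩, -, -, -⟩ := hE n F
  have h1 := hC F (V₀ n F) (spB n F) hB (e s) (fun t => by
    obtain ⟨T, rfl⟩ := e.surjective t
    rcases h T with h | h
    · left
      intro x
      rw [he, he, he, he, Matrix.mulVec_mulVec, Matrix.mulVec_mulVec, h]
    · right
      intro x
      rw [he, he, he, he, Matrix.mulVec_mulVec, Matrix.mulVec_mulVec, h, Matrix.neg_mulVec])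
  rcases h1 with h1 | h1
  · left
    apply Matrix.ext_of_mulVec_single
    intro i
    rw [← he, h1, Matrix.one_mulVec]
  · right
    apply Matrix.ext_of_mulVec_single
    intro i
    rw [← he, h1, Matrix.neg_mulVec, Matrix.one_mulVec]

theorem center_pm (hE : TaskSEQV) (hC : TaskSCEN) (s : SpM n F)
    (h : s ∈ Subgroup.center (SpM n F)) : (s : M₀ n F) = 1 ∨ (s : M₀ n F) = -1 :=
  sp_comm_pm hE hC s fun t => Or.inl (congrArg Subtype.val (Subgroup.mem_center_iff.1 h t)).symm

theorem pm_center (s : SpM n F) (h : (s : M₀ n F) = 1 ∨ (s : M₀ n F) = -1) :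
    s ∈ Subgroup.center (SpM n F) := by
  rw [Subgroup.mem_center_iff]
  intro t
  apply Subtype.ext
  change (t : M₀ n F) * (s : M₀ n F) = (s : M₀ n F) * (t : M₀ n F)
  rcases h with h | h
  · rw [h, mul_one, one_mul]
  · rw [h, mul_neg, neg_mul, mul_one, one_mul]

theorem psp_ker (hE : TaskSEQV) (hC : TaskSCEN) :
    KerPM (QuotientGroup.mk' (Subgroup.center (SpM n F))) := by
  intro s hs
  exact center_pm hE hC s ((QuotientGroup.eq_one_iff s).1 hs)

theorem psp_center (hE : TaskSEQV) (hC : TaskSCEN) : Subgroup.center (PSpM n F) = ⊥ := by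
  rw [eq_bot_iff]
  intro x hx
  obtain ⟨s, rfl⟩ := QuotientGroup.mk_surjective x
  rw [Subgroup.mem_bot, QuotientGroup.eq_one_iff]
  apply pm_center
  apply sp_comm_pm hE hC
  intro t
  have h1 := Subgroup.mem_center_iff.1 hx (QuotientGroup.mk t)
  have h2 : (QuotientGroup.mk (t * s) : PSpM n F) = QuotientGroup.mk (s * t) := h1
  have h3 := center_pm hE hC _ (QuotientGroup.eq.1 h2)
  have h4 : (s : M₀ n F) * (t : M₀ n F) = (t : M₀ n F) * (s : M₀ n F) *
      (((t * s)⁻¹ * (s * t) : SpM n F) : M₀ n F) :=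
    congrArg Subtype.val (show s * t = (t * s) * ((t * s)⁻¹ * (s * t)) by
      rw [mul_inv_cancel_left])
  rcases h3 with h3 | h3
  · left
    rw [h4, h3, mul_one]
  · right
    rw [h4, h3, mul_neg, mul_one]

/-- Kernels as isometries. -/
theorem isQuo_of_kerPM {G : Type} [Group G] (π : SpM n F →* G) (hπ : Function.Surjective π)
    (hk : KerPM π) (e : SpM n F ≃* SpV (spB n F))
    (he : ∀ (A : SpM n F) (x : V₀ n F), (e A).1 x = (A : M₀ n F) *ᵥ x) :
    IsQuo (spB n F) (π.comp e.symm.toMonoidHom) where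
  surj := hπ.comp e.symm.surjective
  ker s hs := by
    obtain ⟨A, rfl⟩ := e.surjective s
    have h1 : π A = 1 := by
      have h2 : π (e.symm (e A)) = 1 := hs
      rwa [e.symm_apply_apply] at h2
    rcases hk A h1 with h | h
    · left
      intro x
      rw [he, h, Matrix.one_mulVec]
    · right
      intro x
      rw [he, h, Matrix.neg_mulVec, Matrix.one_mulVec]

end grp

/-- The conditions on `n` and `F`. -/
def SpCond (n : ℕ) (F : Type) [Field F] : Prop := ((2 : F) ≠ 0 ∧ 2 ≤ n) ∨ 3 ≤ n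

/-- All automorphisms of central quotients of `Sp_2n(F)` lift. -/
theorem sp_lifts (hE : TaskSEQV) (hS : TaskSSYL) (hS2 : TaskSSYL2) (hA : TaskSAUT)
    (hL : TaskSLIFT) (n : ℕ) (F : Type) [Field F] [Finite F] (hn : SpCond n F) (G : Type) [Group G]
    (π : SpM n F →* G) (hπ : Function.Surjective π) (hk : KerPM π)
    (e : SpM n F ≃* SpV (spB n F))
    (he : ∀ (A : SpM n F) (x : V₀ n F), (e A).1 x = (A : M₀ n F) *ᵥ x) (f : MulAut G) :
    SAut (spB n F) (π.comp e.symm.toMonoidHom) f ∧ ∃ ρ, IsLiftS π f ρ := by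
  have hB := (hE n F).1
  have hQ := isQuo_of_kerPM π hπ hk e he
  have hd : Module.finrank F (V₀ n F) = n + n := by
    rw [Module.finrank_fintype_fun_eq_card]
    simp
  have hT : ∀ f : MulAut G, TvPres (spB n F) (π.comp e.symm.toMonoidHom) f := by
    intro f
    by_cases h2 : (2 : F) = 0
    · have h3 : 3 ≤ n := by
        rcases hn with h | h
        · exact absurd h2 h.1
        · exact h
      exact hS2 F (V₀ n F) (spB n F) hB h2 (by omega) G _ hQ f
    · exact hS F (V₀ n F) (spB n F) hB h2 G _ hQ f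
  have h2n : 2 ≤ n := by
    rcases hn with h | h
    · exact h.2
    · omega
  have h1 : SAut (spB n F) (π.comp e.symm.toMonoidHom) f :=
    hA F (V₀ n F) (spB n F) hB (by omega) G _ hQ f (hT f) (hT f⁻¹)
  exact ⟨h1, hL n F (by omega) G π e he hQ f h1⟩

end Pool.Agent.Y60.DC
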