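import Pool.Agent.Y60.DC.RecN
import Pool.Agent.Y60.DC.SpGrp

/-!
# Kernels with composition factors `Z/p`, `PSL_2(F)`, `PSL_n(F)` and `PSp_2n(F)`
-/

set_option autoImplicit false

namespace Pool.Agent.Y60.DC

open Pool.Agent.H391R2.T4 (RegSol)
open Pool.Agent.TH59.WX (Indec)
open Matrix

/-- The lifting property of all automorphisms, in the form used below. -/
def SpLifts : Prop :=
  ∀ (n : ℕ) (F : Type) [Field F] [Finite F], SpCond n F → ∀ (G : Type) [Group G]
    (π : SpM n F →* G), Function.Surjective π → KerPM π → ∀ (e : SpM n F ≃* SpV (spB n F)),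
    (∀ (A : SpM n F) (x : V₀ n F), (e A).1 x = (A : M₀ n F) *ᵥ x) → ∀ f : MulAut G,
    SAut (spB n F) (π.comp e.symm.toMonoidHom) f ∧ ∃ ρ, IsLiftS π f ρ

theorem SpCond.le {n : ℕ} {F : Type} [Field F] (h : SpCond n F) : 1 ≤ n := by
  rcases h with h | h
  · omega
  · omega

/-- The groups `PSp_2n(F)` are simple. -/
theorem psp_simple (hE : TaskSEQV) (hS : TaskSSIMPLE) {n : ℕ} {F : Type} [Field F] [Finite F]
    (hn : SpCond n F) : IsSimpleGroup (PSpM n F) := by
  obtain ⟨hB, ⟨e, he⟩, -, -, -⟩ := hE n F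
  have hd : Module.finrank F (V₀ n F) = n + n := by
    rw [Module.finrank_fintype_fun_eq_card]
    simp
  have hd2 : (2 : F) ≠ 0 ∧ 4 ≤ Module.finrank F (V₀ n F) ∨ 6 ≤ Module.finrank F (V₀ n F) := by
    rcases hn with h | h
    · exact Or.inl ⟨h.1, by omega⟩
    · exact Or.inr (by omega)
  have hpm : ∀ s : SpM n F, ((∀ x, (e s).1 x = x) ∨ ∀ x, (e s).1 x = -x) →
      (s : M₀ n F) = 1 ∨ (s : M₀ n F) = -1 := by
    intro s h
    rcases h with h | h
    · left
      apply Matrix.ext_of_mulVec_single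
      intro i
      rw [← he, h, Matrix.one_mulVec]
    · right
      apply Matrix.ext_of_mulVec_single
      intro i
      rw [← he, h, Matrix.neg_mulVec, Matrix.one_mulVec]
  have hnt : Nontrivial (PSpM n F) := by
    let i₀ : Fin n := ⟨0, hn.le⟩
    let T : M₀ n F := fromBlocks 1 0 (Matrix.diagonal fun _ => 1) 1
    have hT : T ∈ SpM n F := by
      rw [mem_sp_iff]
      unfold sad Matrix.J
      simp [T, Matrix.fromBlocks_multiply, Matrix.fromBlocks_transpose, Matrix.fromBlocks_neg,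
        ← Matrix.fromBlocks_one]
    refine ⟨QuotientGroup.mk ⟨T, hT⟩, 1, fun h => ?_⟩
    have h1 : (⟨T, hT⟩ : SpM n F) ∈ Subgroup.center (SpM n F) := (QuotientGroup.eq_one_iff _).1 h
    have h2 := Subgroup.mem_center_iff.1 h1 ⟨Matrix.J (Fin n) F, SymplecticGroup.J_mem _ _⟩
    have h3 : Matrix.J (Fin n) F * T = T * Matrix.J (Fin n) F := congrArg Subtype.val h2
    have h4 := congrFun (congrFun h3 (Sum.inl i₀)) (Sum.inl i₀)
    unfold Matrix.J at h4
    simp [T, Matrix.fromBlocks_multiply] at h4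
  refine ⟨fun N hN => ?_⟩
  let q : SpM n F →* PSpM n F := QuotientGroup.mk' (Subgroup.center (SpM n F))
  let N' : Subgroup (SpV (spB n F)) := (N.comap q).map e.toMonoidHom
  have hN' : N'.Normal := (hN.comap q).map e.toMonoidHom e.surjective
  rcases hS F (V₀ n F) (spB n F) hB hd2 N' hN' with h | h
  · left
    rw [eq_bot_iff]
    intro x hx
    obtain ⟨s, rfl⟩ := QuotientGroup.mk_surjective x
    have h1 := hpm s (h (e s) ⟨s, hx, rfl⟩)
    rw [Subgroup.mem_bot, QuotientGroup.eq_one_iff]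
    exact pm_center s h1
  · right
    rw [eq_top_iff]
    intro x _
    obtain ⟨s, rfl⟩ := QuotientGroup.mk_surjective x
    have h1 : e s ∈ N' := by
      rw [h]
      exact Subgroup.mem_top _
    obtain ⟨t, ht, hts⟩ := h1
    have h2 : t = s := e.injective hts
    rw [← h2]
    exact ht

/-- **All embedding problems with kernel `PSp_2n(F)`.** -/
theorem good_psp (hE : TaskSEQV) (hG : TaskSGEN) (hT : TaskSTRV) (hU : TaskSUNIQ)
    (hCen : TaskSCEN) (hL : SpLifts) (hC : TaskSCOMPL) (hCE : TaskCENT) (p : ℕ)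
    [hp : Fact p.Prime] (F : Type) [Field F] [Finite F] (n k : ℕ) (hn : SpCond n F)
    (hk : Nat.card F = p ^ k) (hpk : p = 2 ∨ Odd k) : GoodKerP p (PSpM n F) := by
  have hft : Fintype F := Fintype.ofFinite F
  have hchar : CharP F p := charP_of_card_eq_prime_pow (f := k) (by
    rw [← Nat.card_eq_fintype_card, hk])
  obtain ⟨e, he⟩ := (hE n F).2.1
  have hfin : Finite (SpM n F) := inferInstance
  have hfin2 : Finite (PSpM n F) := Finite.of_surjective _ QuotientGroup.mk_surjective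
  let π : SpM n F →* PSpM n F := QuotientGroup.mk' (Subgroup.center (SpM n F))
  have hπ : Function.Surjective π := QuotientGroup.mk'_surjective _
  have hkπ : KerPM π := psp_ker hE hCen
  refine hCE p (PSpM n F) (psp_center hE hCen) ?_ ?_
  · exact hC n F p k hn.le hp.out hk hpk (PSpM n F) (π.comp e.symm.toMonoidHom)
      (isQuo_of_kerPM π hπ hkπ e he) fun f => (hL n F hn _ π hπ hkπ e he f).1
  · exact locSp hE hG hT hU p F n hn.le (PSpM n F) π hπ hkπ
      fun f => (hL n F hn _ π hπ hkπ e he f).2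

/-- The composition factors which are allowed: groups of order `p`, the simple groups `PSL_2(F)`,
`F` a field with `p ^ k ≥ 4` elements, `k` odd if `p ≠ 2`, the simple groups `PSL_n(F)`, `n ≥ 3`
prime to `|F| - 1`, `F` a finite field of characteristic `p`, and the simple groups `PSp_2n(F)`,
`F` a field with `p ^ k` elements, where `n ≥ 2` and `k` is odd if `p ≠ 2`, and `n ≥ 3` if
`p = 2`. -/
def FacS (p : ℕ) (T : Type) [Group T] : Prop :=
  FacN p T ∨ ∃ (F : Type) (_ : Field F) (_ : Finite F) (n k : ℕ), Nat.card F = p ^ k ∧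
    ((p ≠ 2 ∧ 2 ≤ n ∧ Odd k) ∨ (p = 2 ∧ 3 ≤ n)) ∧ Nonempty (T ≃* PSpM n F)

theorem two_ne {p : ℕ} [hp : Fact p.Prime] {F : Type} [Field F] [Finite F] {k : ℕ}
    (hk : Nat.card F = p ^ k) (h2 : p ≠ 2) : (2 : F) ≠ 0 := by
  have hft : Fintype F := Fintype.ofFinite F
  have hchar : CharP F p := charP_of_card_eq_prime_pow (f := k) (by
    rw [← Nat.card_eq_fintype_card, hk])
  intro h
  have h3 : ((2 : ℕ) : F) = 0 := by exact_mod_cast h
  rw [CharP.cast_eq_zero_iff F p] at h3
  exact h2 ((Nat.prime_dvd_prime_iff_eq hp.out Nat.prime_two).1 h3)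

theorem facS_cond {p : ℕ} [hp : Fact p.Prime] {F : Type} [Field F] [Finite F] {n k : ℕ}
    (hk : Nat.card F = p ^ k) (h : (p ≠ 2 ∧ 2 ≤ n ∧ Odd k) ∨ (p = 2 ∧ 3 ≤ n)) :
    SpCond n F ∧ (p = 2 ∨ Odd k) := by
  rcases h with ⟨h1, h2, h3⟩ | ⟨h1, h2⟩
  · exact ⟨Or.inl ⟨two_ne hk h1, h2⟩, Or.inr h3⟩
  · exact ⟨Or.inr h2, Or.inl h1⟩

theorem FacS.iso (p : ℕ) (T T' : Type) [Group T] [Group T'] (e : Nonempty (T ≃* T'))
    (h : FacS p T) : FacS p T' := by
  rcases h with h | ⟨F, iF, jF, n, k, h1, h2, ⟨f⟩⟩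
  · exact Or.inl (FacN.iso p T T' e h)
  · obtain ⟨e⟩ := e
    exact Or.inr ⟨F, iF, jF, n, k, h1, h2, ⟨e.symm.trans f⟩⟩

theorem FacS.simple (hS : SimpleN) (hE : TaskSEQV) (hSS : TaskSSIMPLE) (p : ℕ)
    [hp : Fact p.Prime] (T : Type) [Group T] (h : FacS p T) : IsSimpleGroup T := by
  rcases h with h | ⟨F, iF, jF, n, k, h1, h2, ⟨f⟩⟩
  · exact FacN.simple hS p T h
  · have hs : IsSimpleGroup (PSpM n F) := psp_simple hE hSS (facS_cond h1 h2).1
    exact f.isSimpleGroup

/-- **The main theorem over infinite fields.** -/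
theorem kern_regS (hA : TaskAUT) (hC : TaskCOMPL) (hE : TaskCENT) (hP : TaskPROD) (hF : TaskCF)
    (hAN : TaskAUTN) (hCN : TaskCOMPLN) (hS : SimpleN) (hSE : TaskSEQV) (hSS : TaskSSIMPLE)
    (hCen : TaskSCEN)
    (hGood : ∀ (p : ℕ) [Fact p.Prime] (F : Type) [Field F] [Finite F] (n k : ℕ), SpCond n F →
      Nat.card F = p ^ k → (p = 2 ∨ Odd k) → GoodKerP p (PSpM n F))
    (p : ℕ) [Fact p.Prime] (n : ℕ) : ∀ (K L X : Type) [Field K] [CharP K p]
    [Infinite K] [Field L] [Algebra K L] [FiniteDimensional K L] [IsGalois K L] [Group X]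
    [Finite X] (α : X →* (L ≃ₐ[K] L)), Function.Surjective α → CompIn (FacS p) α.ker →
    Nat.card α.ker = n → RegSol K L X α := by
  induction n using Nat.strong_induction_on with
  | _ n ih =>
  intro K L X _ _ _ _ _ _ _ _ _ α hα hc hcard
  by_cases hbot : α.ker = ⊥
  · exact reg_bot K L X α hα hbot
  obtain ⟨A, hA1, hA2, hA3, ⟨T, iT, m, hT, ⟨e⟩⟩, hA5⟩ :=
    hF (FacS p) (fun T T' _ _ h h' => FacS.iso p T T' h h')
      (fun T _ h => FacS.simple hS hSE hSS p T h) X α.ker hbot hc
  refine reg_two p K L X α A hA2 ?_ ?_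
  · intro β hβ
    have hβs : Function.Surjective β := fun σ => by
      obtain ⟨x, rfl⟩ := hα σ
      exact ⟨_, hβ x⟩
    have hmap : β.ker = α.ker.map (QuotientGroup.mk' A) := by
      ext y
      obtain ⟨x, rfl⟩ := QuotientGroup.mk_surjective y
      rw [MonoidHom.mem_ker, hβ, Subgroup.mem_map]
      constructor
      · intro h
        exact ⟨x, h, rfl⟩
      · rintro ⟨z, hz, hzx⟩
        rw [← hβ, ← show β (QuotientGroup.mk z) = β (QuotientGroup.mk x) from congrArg β hzx, hβ]
        exact hz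
    have hq : Function.Surjective ((QuotientGroup.mk' A).subgroupMap α.ker) :=
      MonoidHom.subgroupMap_surjective _ _
    rw [← hmap] at hA5
    refine ih (Nat.card β.ker) ?_ K L (X ⧸ A) β hβs hA5 rfl
    rw [← hcard, hmap]
    refine lt_of_le_of_ne (Nat.card_le_card_of_surjective _ hq) fun h => ?_
    have hinj : Function.Injective ((QuotientGroup.mk' A).subgroupMap α.ker) :=
      (Function.Surjective.bijective_of_nat_card_le hq (le_of_eq h.symm)).1
    obtain ⟨a, ha, ha1⟩ := A.bot_or_exists_ne_one.resolve_left hA3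
    apply ha1
    have h5 : (⟨a, hA2 ha⟩ : α.ker) = 1 := by
      apply hinj
      apply Subtype.ext
      exact (QuotientGroup.eq_one_iff a).2 ha
    exact congrArg Subtype.val h5
  · intro M _ _ _ _ _ _ β hβ hβk
    rcases hT with (hT | ⟨F, iF, k, h1, h2, h3, ⟨f⟩⟩ | ⟨F, iF, jF, cF, k, h1, h2, ⟨f⟩⟩) |
      ⟨F, iF, jF, n', k, h1, h2, ⟨f⟩⟩
    · have hpA : IsPGroup p A := by
        refine IsPGroup.of_card (n := m) ?_
        rw [Nat.card_congr e.toEquiv, Nat.card_pi]
        simp [hT]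
      have hpβ : IsPGroup p β.ker := by
        rw [hβk]
        exact hpA
      exact pgroup_reg p _ (RatFunc K) M X β hβ hpβ rfl
    · have hfF : Finite F := (Nat.card_pos_iff.1 (by omega)).2
      have hs : IsSimpleGroup (PSL2 F) := Matrix.ProjectiveSpecialLinearGroup.rank_two_simple h1
      have hfin : Finite (SpecialLinearGroup (Fin 2) F) := inferInstance
      have hfin2 : Finite (PSL2 F) := Finite.of_surjective _ QuotientGroup.mk_surjective
      have hg : GoodKerP p (∀ _ : Fin m, PSL2 F) := hP p (Fin m) (fun _ => PSL2 F)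
        (fun _ => indec_of_simple _ (psl_center F h1)) (fun _ => hs.toNontrivial)
        (fun _ => good_psl hA hC hE p F k h1 h2 h3)
      refine hg (RatFunc K) M X β hβ ⟨?_⟩
      exact (MulEquiv.subgroupCongr hβk).trans (e.trans (MulEquiv.piCongrRight fun _ => f))
    · have hs0 : IsSimpleGroup (PSLn k F) := hS F k h1
      have hs : IsSimpleGroup (SLn k F) := (psln_equiv h1 h2).isSimpleGroup
      have hfin : Finite (SLn k F) := inferInstance
      have hg : GoodKerP p (∀ _ : Fin m, SLn k F) := hP p (Fin m) (fun _ => SLn k F)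
        (fun _ => indec_of_simple _ (sln_center h1 h2)) (fun _ => hs.toNontrivial)
        (fun _ => good_sln hAN hCN hE p F k h1 h2)
      refine hg (RatFunc K) M X β hβ ⟨?_⟩
      exact (MulEquiv.subgroupCongr hβk).trans (e.trans (MulEquiv.piCongrRight fun _ =>
        f.trans (psln_equiv h1 h2).symm))
    · obtain ⟨hcn, hck⟩ := facS_cond h1 h2
      have hs : IsSimpleGroup (PSpM n' F) := psp_simple hSE hSS hcn
      have hfin : Finite (SpM n' F) := inferInstance
      have hfin2 : Finite (PSpM n' F) := Finite.of_surjective _ QuotientGroup.mk_surjective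
      have hg : GoodKerP p (∀ _ : Fin m, PSpM n' F) := hP p (Fin m) (fun _ => PSpM n' F)
        (fun _ => indec_of_simple _ (psp_center hSE hCen)) (fun _ => hs.toNontrivial)
        (fun _ => hGood p F n' k hcn h1 hck)
      refine hg (RatFunc K) M X β hβ ⟨?_⟩
      exact (MulEquiv.subgroupCongr hβk).trans (e.trans (MulEquiv.piCongrRight fun _ => f))

end Pool.Agent.Y60.DC
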