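import Pool.Agent.Y60.DC.SlA
import Pool.Agent.Y60.DC.Frame

/-!
# Split embedding problems with kernel `SL_2(F)` in characteristic `p`
-/

set_option autoImplicit false

open TensorProduct IntermediateField

namespace Pool.Agent.Y60.DC

open Pool.Agent.H391R2.T4 (RegSol)

/-- Cancellation of a left invertible factor. -/
theorem lcanc {T : Type} [Ring T] {a i x y : T} (hi : i * a = 1) (h : a * x = a * y) : x = y := by
  calc x = i * a * x := by rw [hi, one_mul]
    _ = i * (a * x) := mul_assoc _ _ _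
    _ = i * (a * y) := by rw [h]
    _ = i * a * y := (mul_assoc _ _ _).symm
    _ = y := by rw [hi, one_mul]

theorem det_of_ad {F : Type} [Field F] (n : Mt F) (h : n * ad n = 1) : n.det = 1 := by
  rw [mul_ad] at h
  have h2 := congrFun (congrFun h 0) 0
  simpa using h2

theorem ad_of_det {F : Type} [Field F] (n : Mt F) (h : n.det = 1) : ad n * n = 1 ∧ n * ad n = 1 := by
  rw [ad_mul_self, mul_ad, h, one_smul]
  exact ⟨rfl, rfl⟩

section yy

variable {p : ℕ} [Fact p.Prime] {F : Type} [Field F] [Finite F] [Algebra (ZMod p) F]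
  {U : Type} [Field U] [IsAlgClosed U] [Algebra (ZMod p) U]

/-- Solutions of the Frobenius equation have algebraic coordinates. -/
theorem inH_frob {R : Type} [Ring R] [Algebra (ZMod p) R] [Finite R] [CharP U p]
    (H : Subfield U) (hH : ∀ z : U, IsAlgebraic H z → z ∈ H) (Y X : U ⊗[ZMod p] R)
    (hX : InH H X) (h : fr Y = Y * X) : InH H Y := by
  intro k
  apply hH
  refine alg_of_frob H (fun k => cf Y k) (fun k i => cf (em (eb p R i) * X) k)
    (fun k i => ((inH_em H _).mul hX) k) (fun k => ?_) k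
  have h1 : cf (fr Y) k = (cf Y k) ^ p := cf_tm (frobenius U p) Y k
  rw [← h1, h]
  conv_lhs => rw [← sum_cf Y]
  rw [Finset.sum_mul, cf_sum]
  refine Finset.sum_congr rfl fun i _ => ?_
  rw [smul_mul_assoc, cf_smul, mul_comm]

end yy

theorem sl_reg (p : ℕ) [Fact p.Prime] (F : Type) [Field F] [Finite F] [CharP F p]
    (K L : Type) [Field K] [Infinite K] [CharP K p] [Field L] [Algebra K L]
    [FiniteDimensional K L] [IsGalois K L]
    (φ : (L ≃ₐ[K] L) →* MulAut (Matrix.SpecialLinearGroup (Fin 2) F))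
    (ρ : (L ≃ₐ[K] L) →* (Mt F ≃+* Mt F))
    (hρ : ∀ γ A, ρ γ (ad A) = ad (ρ γ A))
    (hφ : ∀ γ (n : Matrix.SpecialLinearGroup (Fin 2) F),
      ((φ γ n : Matrix.SpecialLinearGroup (Fin 2) F) : Mt F) = ρ γ (n : Mt F)) :
    RegSol K L (Matrix.SpecialLinearGroup (Fin 2) F ⋊[φ] (L ≃ₐ[K] L))
      SemidirectProduct.rightHom := by
  classical
  let _ : Algebra (ZMod p) F := ZMod.algebra F p
  obtain ⟨U, iU, icU, aKU, aLU, tU, u, hu⟩ :=
    exists_univ K L (Fin (Module.finrank (ZMod p) (Mt F)))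
  have cU : CharP U p := charP_of_injective_algebraMap (algebraMap K U).injective p
  have cL : CharP L p := charP_of_injective_algebraMap (algebraMap K L).injective p
  let _ : Algebra (ZMod p) U := ZMod.algebra U p
  let _ : Algebra (ZMod p) L := ZMod.algebra L p
  obtain ⟨A, hAt, hAH⟩ := exists_rat (p := p) K L U (Mt F) ρ
  have hLC : ∀ l, algebraMap L U l ∈ (algebraicClosure K U).toSubfield := fun l =>
    mem_algebraicClosure_iff.2 (Algebra.IsAlgebraic.isAlgebraic (R := K) l).algebraMap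
  obtain ⟨hA1, hA2⟩ := hAH _ hLC
  -- the generic element
  obtain ⟨Z, hZ⟩ : ∃ Z : U ⊗[ZMod p] Mt F, Z = ∑ j, u j • A j := ⟨_, rfl⟩
  obtain ⟨Zi, hZi, hiZ⟩ := unit_of_pc Z fun ε => by
    rw [hZ]; exact nz_det A hA1 hA2 hu ε
  obtain ⟨τ, hτ⟩ : ∃ τ : U ⊗[ZMod p] Mt F, τ = Z + st Z := ⟨_, rfl⟩
  obtain ⟨τi, hττ, hiτ⟩ := unit_of_pc τ fun ε => by
    rw [hτ, map_add, pc_st, add_ad, Matrix.det_smul, Matrix.det_one, mul_one]
    refine pow_ne_zero _ ?_
    rw [hZ]; exact nz_tr A hA1 hA2 hu ε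
  have hτc : ∀ w, τ * w = w * τ := fun w => by rw [hτ]; exact tr_comm _ _
  have hτs : st τ = τ := by rw [hτ, map_add, st_st, add_comm]
  have hst1 : st (1 : U ⊗[ZMod p] Mt F) = 1 := st_one st st_mul st_st
  have hsZ : st Zi * st Z = 1 := by rw [← st_mul, hZi, hst1]
  have hZs : st Z * st Zi = 1 := by rw [← st_mul, hiZ, hst1]
  -- the element of norm one
  obtain ⟨Y, hY⟩ : ∃ Y : U ⊗[ZMod p] Mt F, Y = st Zi * Z := ⟨_, rfl⟩
  have hsY : st Y = st Z * Zi := by rw [hY, st_mul, st_st]
  have hYs : Y * st Y = 1 := by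
    rw [hsY, hY, mul_assoc, ← mul_assoc Z, mul_st_self, mul_assoc (st Z), hZi, mul_one, hsZ]
  have hsYY : st Y * Y = 1 := by rw [← mul_st_self]; exact hYs
  have hZY : Z = st Z * Y := by rw [hY, ← mul_assoc, hZs, one_mul]
  have h1Y : 1 + Y = st Zi * τ := by
    rw [hτ, mul_add, ← hY, hsZ, add_comm]
  obtain ⟨D, hD⟩ : ∃ D : U ⊗[ZMod p] Mt F, D = τi * st Z := ⟨_, rfl⟩
  have hYD : (1 + Y) * D = 1 := by
    rw [h1Y, hD, mul_assoc, ← mul_assoc τ, hττ, one_mul, hsZ]
  have hDY : D * (1 + Y) = 1 := by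
    rw [h1Y, hD, mul_assoc, ← mul_assoc (st Z), hZs, one_mul, hiτ]
  have hZW : τ * D * Y = Z := by
    rw [hD, ← mul_assoc, hττ, one_mul, ← hZY]
  -- the Frobenius quotient
  obtain ⟨X, hX⟩ : ∃ X : U ⊗[ZMod p] Mt F, X = st Y * fr Y := ⟨_, rfl⟩
  have hfY : fr Y = Y * X := by rw [hX, ← mul_assoc, hYs, one_mul]
  have hfs : fr Y * st (fr Y) = 1 := by rw [st_fr, ← map_mul, hYs, map_one]
  have hXs : X * st X = 1 := by
    rw [hX, st_mul, st_st, mul_assoc, ← mul_assoc (fr Y), hfs, one_mul, hsYY]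
  have hsX : st X * X = 1 := by rw [← mul_st_self]; exact hXs
  obtain ⟨E, hXE, hEX⟩ := unit_of_pc (1 + X) fun ε => by
    have h := nzX A hA1 hA2 hu ε Z Zi hZ hZi (by rw [← hY, ← hX]; exact hXs)
    rw [← hY, ← hX] at h
    exact h
  obtain ⟨V, hV⟩ : ∃ V : U ⊗[ZMod p] Mt F, V = τ * E * X := ⟨_, rfl⟩
  obtain ⟨hV1, hV2, hV3⟩ := cayW st st_mul (fun a b => map_add st a b) st_st τ X E hτc hτs
    hXs hsX hXE hEX
  rw [← hV] at hV1 hV2 hV3
  -- the inverse of `st V`
  have hVi : st V * ((1 + X) * τi) = 1 := by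
    rw [hV1, mul_assoc, ← mul_assoc E, hEX, one_mul, hττ]
  have hiV : ((1 + X) * τi) * st V = 1 := by
    rw [hV1, mul_assoc, ← mul_assoc τi, hiτ, one_mul, hXE]
  let x : Fin (Module.finrank (ZMod p) (Mt F)) → U := fun j => A.repr V j
  have hVx : V = ∑ j, x j • A j := (A.sum_repr V).symm
  -- `x` is a transcendence basis
  have hx : IsTranscendenceBasis K x := by
    refine tb_of_alg hu x fun i => ?_
    rw [← mem_hull]
    let H : Subfield U := (hull K x).toSubfield
    have hLH : ∀ l, algebraMap L U l ∈ H := fun l => hull_alg x _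
      (Algebra.IsAlgebraic.isAlgebraic (R := K) l).algebraMap
    obtain ⟨hB1, hB2⟩ := hAH H hLH
    have hHc : ∀ z : U, IsAlgebraic H z → z ∈ H := by
      rintro z ⟨P, hP0, hP⟩
      refine hull_closed x (P.map (algebraMap H U)) ?_ ?_ z ?_
      · rwa [ne_eq, Polynomial.map_eq_zero_iff (algebraMap H U).injective]
      · intro n
        rw [Polynomial.coeff_map]
        exact (P.coeff n).2
      · rw [Polynomial.eval_map_algebraMap]
        exact hP
    have gV : InH H V := by
      rw [hVx]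
      exact InH.sum _ fun j _ => InH.smul (hull_x x j) (hB1 j)
    have gsV : InH H (st V) := gV.st'
    have gτ : InH H τ := by
      rw [← hV2]
      exact gV.add gsV
    have gX : InH H X := by
      have h1 : X = ((1 + X) * τi) * V := by
        conv_rhs => rw [hV3]
        rw [← mul_assoc, hiV, one_mul]
      rw [h1]
      exact (gsV.inv hVi hiV).mul gV
    have gY : InH H Y := inH_frob H hHc Y X gX hfY
    have g1 : InH H (1 + Y) := by
      have h1 : (1 : U ⊗[ZMod p] Mt F) = em 1 := (map_one _).symm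
      rw [h1]
      exact (inH_em H 1).add gY
    have gZ : InH H Z := by
      rw [← hZW]
      exact (gτ.mul (g1.inv hYD hDY)).mul gY
    have h2 : A.repr Z i = u i := by
      rw [hZ]
      exact congrFun (Module.Basis.repr_sum_self A u) i
    rw [← h2]
    exact hB2 Z gZ i
  -- the twisted action
  let bL := Module.finBasis K L
  have hsurj : Function.Surjective (SemidirectProduct.rightHom :
      Matrix.SpecialLinearGroup (Fin 2) F ⋊[φ] (L ≃ₐ[K] L) →* (L ≃ₐ[K] L)) :=
    SemidirectProduct.rightHom_surjective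
  have hfin : Finite (Matrix.SpecialLinearGroup (Fin 2) F ⋊[φ] (L ≃ₐ[K] L)) :=
    Finite.of_equiv _ SemidirectProduct.equivProd.symm
  refine frame K L _ SemidirectProduct.rightHom hsurj U _ x hx
    (fun σ g => (∀ l, σ (algebraMap L U l) = algebraMap L U (g.right l)) ∧
      Y = em (g.left : Mt F) * rm (ρ g.right : Mt F →+* Mt F) (tm (σ : U →+* U) Y))
    ?_ ?_ ?_ (fun σ g h => h.1)
    (Set.range (fun i => cf Y i) ∪ Set.range fun i => algebraMap L U (bL i))
    ((Set.finite_range _).union (Set.finite_range _)) ?_ ?_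
  · -- existence
    intro σ hσ
    obtain ⟨γ, hγ⟩ : ∃ γ : L ≃ₐ[K] L, γ = σ.restrictNormal L := ⟨_, rfl⟩
    have h1 : ∀ l, σ (algebraMap L U l) = algebraMap L U (γ l) := by
      intro l
      rw [hγ, AlgEquiv.restrictNormal_commutes]
    let θ : (U ⊗[ZMod p] Mt F) →+* (U ⊗[ZMod p] Mt F) :=
      (rm (ρ γ : Mt F →+* Mt F)).comp (tm (σ : U →+* U))
    have hθV : θ V = V := by
      conv_lhs => rw [hVx]
      rw [map_sum]
      conv_rhs => rw [hVx]
      refine Finset.sum_congr rfl fun j _ => ?_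
      change rm (ρ γ : Mt F →+* Mt F) (tm (σ : U →+* U) (x j • A j)) = _
      rw [tm_smul, rm_smul, hAt σ γ h1]
      congr 1
      exact hσ j
    have hθs : ∀ w, θ (st w) = st (θ w) := by
      intro w
      change rm (ρ γ : Mt F →+* Mt F) (tm (σ : U →+* U) (st w)) =
        st (rm (ρ γ : Mt F →+* Mt F) (tm (σ : U →+* U) w))
      rw [← st_tm, ← st_rm _ (hρ γ)]
    have hθf : ∀ w, fr (θ w) = θ (fr w) := by
      intro w
      change fr (rm (ρ γ : Mt F →+* Mt F) (tm (σ : U →+* U) w)) =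
        rm (ρ γ : Mt F →+* Mt F) (tm (σ : U →+* U) (fr w))
      rw [fr_rm, fr_tm]
    have hθX : θ X = X := by
      apply lcanc hiV
      rw [← hV3]
      have h2 : θ V = θ (st V) * θ X := by
        conv_lhs => rw [hV3]
        rw [map_mul]
      rw [hθs, hθV] at h2
      exact h2.symm
    have hθY : fr (θ Y) = θ Y * X := by
      rw [hθf, hfY, map_mul, hθX]
    have hθn : st (θ Y) * θ Y = 1 := by
      rw [← hθs, ← map_mul, hsYY, map_one]
    have hθn' : θ Y * st (θ Y) = 1 := by
      rw [← hθs, ← map_mul, hYs, map_one]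
    have hfix : fr (Y * st (θ Y)) = Y * st (θ Y) := by
      rw [map_mul, ← st_fr, hθY, hfY, st_mul, mul_assoc, ← mul_assoc X, hXs, one_mul]
    obtain ⟨n, hn⟩ := fr_fixed _ hfix
    have hnd : n.det = 1 := by
      apply det_of_ad
      apply em_injective (p := p) (U := U)
      rw [map_mul, ← st_em, hn, map_one, st_mul, st_st, mul_assoc, ← mul_assoc (st (θ Y)), hθn,
        one_mul, hYs]
    refine ⟨⟨⟨n, hnd⟩, γ⟩, h1, ?_⟩
    change Y = em n * θ Y
    rw [hn, mul_assoc, hθn, mul_one]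
  · -- uniqueness
    rintro σ g h ⟨h1, h2⟩ ⟨h3, h4⟩
    have h5 : g.right = h.right := by
      ext l
      apply (algebraMap L U).injective
      rw [← h1, ← h3]
    apply SemidirectProduct.ext _ h5
    apply Subtype.ext
    apply em_injective (p := p) (U := U)
    rw [← h5] at h4
    let θ : (U ⊗[ZMod p] Mt F) →+* (U ⊗[ZMod p] Mt F) :=
      (rm (ρ g.right : Mt F →+* Mt F)).comp (tm (σ : U →+* U))
    have h6 : em (g.left : Mt F) * θ Y = em (h.left : Mt F) * θ Y := h2.symm.trans h4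
    have h7 : θ Y * θ (st Y) = 1 := by rw [← map_mul, hYs, map_one]
    calc (em (g.left : Mt F) : U ⊗[ZMod p] Mt F) = em (g.left : Mt F) * θ Y * θ (st Y) := by
          rw [mul_assoc, h7, mul_one]
      _ = em (h.left : Mt F) * θ Y * θ (st Y) := by rw [h6]
      _ = em (h.left : Mt F) := by rw [mul_assoc, h7, mul_one]
  · -- products
    rintro σ σ' g h ⟨h1, h2⟩ ⟨h3, h4⟩
    refine ⟨fun l => ?_, ?_⟩
    · rw [AlgEquiv.mul_apply, h3, h1]
      rfl
    · have e1 : (((g * h).left : Matrix.SpecialLinearGroup (Fin 2) F) : Mt F) =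
          (g.left : Mt F) * ρ g.right (h.left : Mt F) := by
        rw [SemidirectProduct.mul_left, Matrix.SpecialLinearGroup.coe_mul, hφ]
      have e2 : ((ρ (g * h).right : Mt F ≃+* Mt F) : Mt F →+* Mt F) =
          ((ρ g.right : Mt F ≃+* Mt F) : Mt F →+* Mt F).comp
            ((ρ h.right : Mt F ≃+* Mt F) : Mt F →+* Mt F) := by
        rw [SemidirectProduct.mul_right, map_mul]
        rfl
      have e3 : ((σ * σ' : U ≃ₐ[K] U) : U →+* U) = (σ : U →+* U).comp (σ' : U →+* U) := rfl
      rw [e1, e2, e3, map_mul, ← tm_tm, ← rm_rm]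
      conv_lhs => rw [h2, h4]
      rw [map_mul, map_mul, tm_em, rm_em, tm_rm, mul_assoc]
      rfl
  · -- finiteness
    intro σ hσ hS
    refine ⟨fun l => ?_, ?_⟩
    · change σ (algebraMap L U l) = algebraMap L U l
      rw [← bL.sum_repr l, map_sum, map_sum]
      refine Finset.sum_congr rfl fun i _ => ?_
      rw [Algebra.smul_def, map_mul, map_mul, hS _ (Or.inr ⟨i, rfl⟩),
        ← IsScalarTower.algebraMap_apply K L U, AlgEquiv.commutes]
    · have e1 : tm (σ : U →+* U) Y = Y := by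
        apply cf_ext
        intro i
        rw [cf_tm]
        exact hS _ (Or.inl ⟨i, rfl⟩)
      have e2 : ((ρ (1 : Matrix.SpecialLinearGroup (Fin 2) F ⋊[φ] (L ≃ₐ[K] L)).right :
          Mt F ≃+* Mt F) : Mt F →+* Mt F) = RingHom.id (Mt F) := by
        rw [SemidirectProduct.one_right, map_one]
        rfl
      have e3 : (((1 : Matrix.SpecialLinearGroup (Fin 2) F ⋊[φ] (L ≃ₐ[K] L)).left :
          Matrix.SpecialLinearGroup (Fin 2) F) : Mt F) = 1 := by
        rw [SemidirectProduct.one_left, Matrix.SpecialLinearGroup.coe_one]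
      rw [e1, e2, e3, map_one, one_mul, rm_id]
  · -- the kernel
    intro g hg
    have hgr : g.right = 1 := hg
    let C := algebraicClosure K U
    have hCu : IsTranscendenceBasis C u := tb_up hu
    obtain ⟨B, hB⟩ : ∃ B : Mt F, B = ad (g.left : Mt F) := ⟨_, rfl⟩
    have hgd : (g.left : Mt F).det = 1 := g.left.2
    obtain ⟨hag, hga⟩ := ad_of_det _ hgd
    have hBd : B.det = 1 := by
      apply det_of_ad
      rw [hB, ad_ad, hag]
    obtain ⟨hB1, hB2⟩ := ad_of_det _ hBd
    obtain ⟨Y1, hY1⟩ : ∃ Y1 : U ⊗[ZMod p] Mt F, Y1 = em B * Y := ⟨_, rfl⟩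
    have eB : (em B : U ⊗[ZMod p] Mt F) * st (em B) = 1 := by
      rw [st_em, ← map_mul, hB2, map_one]
    have eB' : st (em B : U ⊗[ZMod p] Mt F) * em B = 1 := by
      rw [st_em, ← map_mul, hB1, map_one]
    have hYs1 : Y1 * st Y1 = 1 := by
      rw [hY1, st_mul, mul_assoc, ← mul_assoc Y, hYs, one_mul, eB]
    have hsY1 : st Y1 * Y1 = 1 := by rw [← mul_st_self]; exact hYs1
    obtain ⟨D1, hYD1, hDY1⟩ := unit_of_pc (1 + Y1) fun ε => by
      have h := nzB A hA1 hA2 hu ε B hBd Z Zi hZ hZi (by rw [← hY, ← hY1]; exact hYs1)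
      rw [← hY, ← hY1] at h
      exact h
    obtain ⟨W, hW⟩ : ∃ W : U ⊗[ZMod p] Mt F, W = τ * D1 * Y1 := ⟨_, rfl⟩
    obtain ⟨hW1, hW2, hW3⟩ := cayW st st_mul (fun a b => map_add st a b) st_st τ Y1 D1 hτc hτs
      hYs1 hsY1 hYD1 hDY1
    rw [← hW] at hW1 hW2 hW3
    have hWi : st W * ((1 + Y1) * τi) = 1 := by
      rw [hW1, mul_assoc, ← mul_assoc D1, hDY1, one_mul, hττ]
    have hiW : ((1 + Y1) * τi) * st W = 1 := by
      rw [hW1, mul_assoc, ← mul_assoc τi, hiτ, one_mul, hYD1]
    let u' : Fin (Module.finrank (ZMod p) (Mt F)) → U := fun j => A.repr W j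
    have hWu : W = ∑ j, u' j • A j := (A.sum_repr W).symm
    have hCu' : IsTranscendenceBasis C u' := by
      refine tb_of_alg hCu _ fun j => ?_
      let H : Subfield U := (IntermediateField.adjoin C (Set.range u')).toSubfield
      have hCH : ∀ z : U, z ∈ C → z ∈ H := fun z hz =>
        IntermediateField.algebraMap_mem (IntermediateField.adjoin C (Set.range u')) (⟨z, hz⟩ : C)
      obtain ⟨hG1, hG2⟩ := hAH H fun l => hCH _ (hLC l)
      have gW : InH H W := by
        rw [hWu]
        exact InH.sum _ fun j _ => InH.smul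
          (IntermediateField.subset_adjoin C _ ⟨j, rfl⟩) (hG1 j)
      have gsW : InH H (st W) := gW.st'
      have gτ : InH H τ := by
        rw [← hW2]
        exact gW.add gsW
      have gY1 : InH H Y1 := by
        have h1 : Y1 = ((1 + Y1) * τi) * W := by
          conv_rhs => rw [hW3]
          rw [← mul_assoc, hiW, one_mul]
        rw [h1]
        exact (gsW.inv hWi hiW).mul gW
      have gY : InH H Y := by
        have h1 : Y = st (em B) * Y1 := by rw [hY1, ← mul_assoc, eB', one_mul]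
        rw [h1]
        exact (inH_em H B).st'.mul gY1
      have g1 : InH H (1 + Y) := by
        have h1 : (1 : U ⊗[ZMod p] Mt F) = em 1 := (map_one _).symm
        rw [h1]
        exact (inH_em H 1).add gY
      have gZ : InH H Z := by
        rw [← hZW]
        exact (gτ.mul (g1.inv hYD hDY)).mul gY
      have h2 : A.repr Z j = u j := by
        rw [hZ]
        exact congrFun (Module.Basis.repr_sum_self A u) j
      have h4 : u j ∈ IntermediateField.adjoin C (Set.range u') := by
        rw [← h2]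
        exact hG2 Z gZ j
      exact isAlgebraic_algebraMap (⟨u j, h4⟩ : IntermediateField.adjoin C (Set.range u'))
    obtain ⟨σ0, hσ0⟩ := exists_iso C U U _ hCu hCu'
    obtain ⟨σ, hσσ⟩ : ∃ σ : U ≃ₐ[K] U, σ = σ0.restrictScalars K := ⟨_, rfl⟩
    have hfix : ∀ z, IsAlgebraic K z → σ z = z := fun z hz => by
      rw [hσσ]
      exact σ0.commutes ⟨z, mem_algebraicClosure_iff.2 hz⟩
    have hσu : ∀ j, σ (u j) = u' j := fun j => by
      rw [hσσ]
      exact hσ0 j
    have hσA : ∀ j, tm (σ : U →+* U) (A j) = A j := tm_A A hA1 σ hfix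
    have hσZ : tm (σ : U →+* U) Z = W := by
      rw [hZ, map_sum, hWu]
      refine Finset.sum_congr rfl fun j _ => ?_
      rw [tm_smul, hσA]
      congr 1
      exact hσu j
    have hσY : tm (σ : U →+* U) Y = Y1 := by
      apply lcanc hiW
      rw [← hW3, ← hσZ, st_tm, ← map_mul, ← hZY]
    have hστ : tm (σ : U →+* U) τ = τ := by
      rw [hτ, map_add, ← st_tm, hσZ, hW2, hτ]
    have hσX : tm (σ : U →+* U) X = X := by
      rw [hX, map_mul, ← st_tm, ← fr_tm, hσY, hY1, st_mul, map_mul, fr_em, mul_assoc,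
        ← mul_assoc (st (em B : U ⊗[ZMod p] Mt F)), eB', one_mul]
    have hσE : tm (σ : U →+* U) E = E := by
      apply lcanc hEX
      rw [hXE]
      have h1 : tm (σ : U →+* U) ((1 + X) * E) = 1 := by rw [hXE, map_one]
      rw [map_mul, map_add, map_one, hσX] at h1
      exact h1
    have hσV : tm (σ : U →+* U) V = V := by
      rw [hV, map_mul, map_mul, hστ, hσE, hσX]
    refine ⟨σ, hfix, fun j => ?_, fun l => ?_, ?_⟩
    · have h1 : ∑ j, σ (x j) • A j = V := by
        conv_rhs => rw [← hσV, hVx]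
        rw [map_sum]
        refine Finset.sum_congr rfl fun j _ => ?_
        rw [tm_smul, hσA]
        rfl
      have h2 : A.repr (∑ j, σ (x j) • A j) j = σ (x j) :=
        congrFun (Module.Basis.repr_sum_self A fun j => σ (x j)) j
      rw [← h2, h1]
    · rw [hgr]
      exact hfix _ (Algebra.IsAlgebraic.isAlgebraic (R := K) l).algebraMap
    · have e2 : ((ρ g.right : Mt F ≃+* Mt F) : Mt F →+* Mt F) = RingHom.id (Mt F) := by
        rw [hgr, map_one]
        rfl
      rw [e2, rm_id, hσY, hY1, ← mul_assoc, ← map_mul, hB, hga, map_one, one_mul]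

end Pool.Agent.Y60.DC
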