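import Pool.Agent.Y60.DC.SpRing
import Pool.Agent.Y60.DC.StarRegC
import Pool.Agent.Y60.DC.Stm3
import Pool.Agent.TH444.TW.RS

/-!
# Split embedding problems with kernel a central quotient of `Sp_2n(F)`, any action
-/

set_option autoImplicit false

open TensorProduct Matrix

namespace Pool.Agent.Y60.DC

open Pool.Agent.H391R2.T4 (RegSol)

section lift

variable {n : ℕ} {F : Type} [Field F] {G : Type} [Group G]

/-- Lifts of automorphisms of `G` to the ring of matrices. -/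
def IsLiftS (π : SpM n F →* G) (f : MulAut G) (ρ : M₀ n F ≃+* M₀ n F) : Prop :=
  (∀ A, ρ (sad A) = sad (ρ A)) ∧
    ∀ s s' : SpM n F, (s' : M₀ n F) = ρ (s : M₀ n F) → f (π s) = π s'

/-- The kernel of `π` consists of `±1`. -/
def KerPM (π : SpM n F →* G) : Prop :=
  ∀ s : SpM n F, π s = 1 → (s : M₀ n F) = 1 ∨ (s : M₀ n F) = -1

theorem map_sp {ρ : M₀ n F ≃+* M₀ n F} (h : ∀ A, ρ (sad A) = sad (ρ A)) (s : SpM n F) :
    ρ (s : M₀ n F) ∈ SpM n F := by
  rw [mem_sp_iff, ← h, ← map_mul, (mem_sp_iff _).1 s.2, map_one]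

theorem symm_sad {ρ : M₀ n F ≃+* M₀ n F} (h : ∀ A, ρ (sad A) = sad (ρ A)) (A : M₀ n F) :
    ρ.symm (sad A) = sad (ρ.symm A) := by
  apply ρ.injective
  rw [RingEquiv.apply_symm_apply, h, RingEquiv.apply_symm_apply]

theorem IsLiftS.unique (hn : 1 ≤ n) (hU : TaskSUNIQ) {π : SpM n F →* G} (hk : KerPM π)
    {f : MulAut G} {ρ ρ' : M₀ n F ≃+* M₀ n F} (h : IsLiftS π f ρ) (h' : IsLiftS π f ρ') :
    ρ = ρ' := by
  obtain ⟨h1, h2⟩ := h
  obtain ⟨h1', h2'⟩ := h'
  have h5 := hU n F hn (ρ'.trans ρ.symm) (fun A => by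
    rw [RingEquiv.trans_apply, RingEquiv.trans_apply, h1', symm_sad h1]) (fun s => by
    have e1 := h2 s ⟨_, map_sp h1 s⟩ rfl
    have e2 := h2' s ⟨_, map_sp h1' s⟩ rfl
    have e3 : π ((⟨_, map_sp h1 s⟩ : SpM n F)⁻¹ * ⟨_, map_sp h1' s⟩) = 1 := by
      rw [map_mul, map_inv, ← e1, ← e2, inv_mul_cancel]
    have e4 : (ρ' (s : M₀ n F)) = ρ (s : M₀ n F) *
        (((⟨_, map_sp h1 s⟩ : SpM n F)⁻¹ * ⟨_, map_sp h1' s⟩ : SpM n F) : M₀ n F) := by
      have e5 : (⟨_, map_sp h1' s⟩ : SpM n F) = ⟨_, map_sp h1 s⟩ *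
          ((⟨_, map_sp h1 s⟩ : SpM n F)⁻¹ * ⟨_, map_sp h1' s⟩) := by
        rw [mul_inv_cancel_left]
      exact congrArg Subtype.val e5
    rw [RingEquiv.trans_apply]
    rcases hk _ e3 with h | h
    · left
      rw [e4, h, mul_one, RingEquiv.symm_apply_apply]
    · right
      rw [e4, h, mul_neg, mul_one, map_neg, RingEquiv.symm_apply_apply])
  apply RingEquiv.ext
  intro A
  have h6 := h5 A
  rw [RingEquiv.trans_apply] at h6
  conv_lhs => rw [← h6]
  rw [RingEquiv.apply_symm_apply]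

theorem IsLiftS.one (π : SpM n F →* G) : IsLiftS π 1 1 :=
  ⟨fun _ => rfl, fun s s' h => by
    have h1 : s' = s := Subtype.ext h
    rw [h1]
    rfl⟩

theorem IsLiftS.mul {π : SpM n F →* G} {f f' : MulAut G} {ρ ρ' : M₀ n F ≃+* M₀ n F}
    (h : IsLiftS π f ρ) (h' : IsLiftS π f' ρ') : IsLiftS π (f * f') (ρ * ρ') := by
  obtain ⟨h1, h2⟩ := h
  obtain ⟨h1', h2'⟩ := h'
  refine ⟨fun A => ?_, fun s s' hs => ?_⟩
  · change ρ (ρ' (sad A)) = sad (ρ (ρ' A))
    rw [h1', h1]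
  · rw [MulAut.mul_apply, h2' s ⟨_, map_sp h1' s⟩ rfl]
    exact h2 _ _ hs

/-- The automorphism of the symplectic group given by an automorphism of the ring. -/
def spE (ρ : M₀ n F ≃+* M₀ n F) (h : ∀ A, ρ (sad A) = sad (ρ A)) : MulAut (SpM n F) where
  toFun s := ⟨ρ (s : M₀ n F), map_sp h s⟩
  invFun s := ⟨ρ.symm (s : M₀ n F), map_sp (symm_sad h) s⟩
  left_inv s := Subtype.ext (ρ.symm_apply_apply _)
  right_inv s := Subtype.ext (ρ.apply_symm_apply _)
  map_mul' s s' := Subtype.ext (map_mul ρ _ _)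

end lift

/-- **Split embedding problems with kernel a central quotient of `Sp_2n(F)`.** -/
theorem locSp (hE : TaskSEQV) (hG : TaskSGEN) (hT : TaskSTRV) (hU : TaskSUNIQ)
    (p : ℕ) [Fact p.Prime] (F : Type) [Field F] [Finite F] [CharP F p] (n : ℕ)
    (hn : 1 ≤ n) (G : Type) [Group G] (π : SpM n F →* G) (hπ : Function.Surjective π)
    (hk : KerPM π) (hL : ∀ f : MulAut G, ∃ ρ, IsLiftS π f ρ) : LocP p G := by
  intro K L _ _ _ _ _ _ _ β
  let _ : Algebra (ZMod p) F := ZMod.algebra F p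
  choose lf hlf using hL
  let ρ : (L ≃ₐ[K] L) →* (M₀ n F ≃+* M₀ n F) :=
    { toFun := fun γ => lf (β γ)
      map_one' := by
        rw [map_one]
        exact (hlf 1).unique hn hU hk (IsLiftS.one π)
      map_mul' := fun γ δ => by
        rw [map_mul]
        exact (hlf _).unique hn hU hk ((hlf _).mul (hlf _)) }
  have hρ : ∀ γ A, ρ γ (sad A) = sad (ρ γ A) := fun γ => (hlf (β γ)).1
  let φ : (L ≃ₐ[K] L) →* MulAut (SpM n F) :=
    { toFun := fun γ => spE (ρ γ) (hρ γ)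
      map_one' := by
        apply MulEquiv.ext
        intro a
        apply Subtype.ext
        change ρ 1 (a : M₀ n F) = a
        rw [map_one]
        rfl
      map_mul' := fun γ δ => by
        apply MulEquiv.ext
        intro a
        apply Subtype.ext
        change ρ (γ * δ) (a : M₀ n F) = ρ γ (ρ δ (a : M₀ n F))
        rw [map_mul]
        rfl }
  let ρ' : (L ≃ₐ[K] L) →* (SpR n F ≃+* SpR n F) := ρ
  have hfin : Finite (SpM n F) := inferInstance
  have h1 := starc_reg p (SpR n F) spR_half (SpM n F)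
    ((toR : M₀ n F ≃+* SpR n F).toMonoidHom.comp (SpM n F).subtype)
    (fun a b hab => Subtype.ext (toR.injective hab))
    (fun b => by
      obtain ⟨A, rfl⟩ := (toR : M₀ n F ≃+* SpR n F).surjective b
      rw [toR_mem]
      constructor
      · rintro ⟨s, hs⟩
        have h2 : (s : M₀ n F) = A := toR.injective hs
        rw [← h2]
        exact ⟨s.2, sp_conn hE hG hT _ s.2⟩
      · rintro ⟨h2, -⟩
        exact ⟨⟨A, h2⟩, rfl⟩)
    K L φ ρ' (fun γ A => hρ γ A) (fun γ n => rfl)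
  let q : SpM n F ⋊[φ] (L ≃ₐ[K] L) →* G ⋊[β] (L ≃ₐ[K] L) :=
    SemidirectProduct.map π (MonoidHom.id _) (by
      intro γ
      apply MonoidHom.ext
      intro a
      exact ((hlf (β γ)).2 a _ rfl).symm)
  have hq : Function.Surjective q := by
    rintro ⟨g, γ⟩
    obtain ⟨a, rfl⟩ := hπ g
    exact ⟨⟨a, γ⟩, rfl⟩
  refine Pool.Agent.W200.IJ.regSol_quot (L' := L) SemidirectProduct.rightHom
    SemidirectProduct.rightHom q hq ?_ ?_ h1
  · intro g
    rw [Pool.Agent.TH444.TW.restrictNormal_self]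
    rfl
  · intro σ hσ
    rw [Pool.Agent.TH444.TW.restrictNormal_self] at hσ
    exact ⟨1, map_one _, by rw [map_one, hσ]⟩

end Pool.Agent.Y60.DC
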