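import Pool.Agent.Y60.DC.Skew
import Pool.Agent.Y60.DC.Pts
import Pool.Agent.Y60.DC.Cay
import Pool.Agent.Y60.DC.Sl

/-!
# Split embedding problems whose kernel is the unitary group of a finite ring with involution
-/

set_option autoImplicit false

open TensorProduct IntermediateField

namespace Pool.Agent.Y60.DC

open Pool.Agent.H391R2.T4 (RegSol)

/-- The element `b` of the finite ring `R` with involution, of characteristic `p`, is connected to
`1`: over every infinite field `A` of characteristic `p` there is `v` in `A ⊗ R` such that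
`v + v* = 1` and `v* + b v` is a unit. -/
def Conn (p : ℕ) [Fact p.Prime] {R : Type} [Ring R] [Algebra (ZMod p) R] [StarRing R] (b : R) :
    Prop :=
  ∀ (A : Type) [Field A] [Infinite A] [Algebra (ZMod p) A], ∃ v y : A ⊗[ZMod p] R,
    v + su v = 1 ∧ (su v + em b * v) * y = 1

/-- **Unitary groups.** -/
theorem star_reg (p : ℕ) [Fact p.Prime] (R : Type) [Ring R] [Algebra (ZMod p) R] [StarRing R]
    [Finite R] (h1 : ∃ z : R, z + star z = 1) (hconn : ∀ b ∈ unitary R, Conn p b)
    (K L : Type) [Field K] [Infinite K] [CharP K p] [Field L] [Algebra K L]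
    [FiniteDimensional K L] [IsGalois K L]
    (φ : (L ≃ₐ[K] L) →* MulAut (unitary R)) (ρ : (L ≃ₐ[K] L) →* (R ≃+* R))
    (hρ : ∀ γ a, ρ γ (star a) = star (ρ γ a))
    (hφ : ∀ γ (n : unitary R), ((φ γ n : unitary R) : R) = ρ γ (n : R)) :
    RegSol K L (unitary R ⋊[φ] (L ≃ₐ[K] L)) SemidirectProduct.rightHom := by
  classical
  obtain ⟨z₀, hz₀⟩ := h1
  have cL : CharP L p := charP_of_injective_algebraMap (algebraMap K L).injective p
  let _ : Algebra (ZMod p) L := ZMod.algebra L p
  have infL : Infinite L := Infinite.of_injective _ (algebraMap K L).injective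
  obtain ⟨m, w₀, b, b1, b2, b3, b4, b5, b6⟩ := exists_skew (p := p) K L R ρ hρ z₀ hz₀
  obtain ⟨U, iU, icU, aKU, aLU, tU, u, hu⟩ := exists_univ K L (Fin m)
  have cU : CharP U p := charP_of_injective_algebraMap (algebraMap K U).injective p
  let _ : Algebra (ZMod p) U := ZMod.algebra U p
  obtain ⟨χ, c1, c2, c3⟩ := b6 U
  have hLu : IsTranscendenceBasis L u := tb_up hu
  have hLC : ∀ l, algebraMap L U l ∈ (algebraicClosure K U).toSubfield := fun l =>
    mem_algebraicClosure_iff.2 (Algebra.IsAlgebraic.isAlgebraic (R := K) l).algebraMap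
  -- the images over `U`
  obtain ⟨W0, hW0⟩ : ∃ W0 : U ⊗[ZMod p] R, W0 = tm (algebraMap L U) w₀ := ⟨_, rfl⟩
  obtain ⟨A, hA⟩ : ∃ A : Fin m → U ⊗[ZMod p] R, A = fun j => tm (algebraMap L U) (b j) :=
    ⟨_, rfl⟩
  have hAj : ∀ j, A j = tm (algebraMap L U) (b j) := fun j => by rw [hA]
  have d1 : ∀ c : Fin m → U, χ (W0 + ∑ j, c j • A j) = c := fun c => by
    rw [hW0]
    simp only [hAj]
    exact c1 c
  have d2 : ∀ z : U ⊗[ZMod p] R, z + su z = 1 → z = W0 + ∑ j, χ z j • A j := fun z hz => by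
    rw [hW0]
    simp only [hAj]
    exact c2 z hz
  have d3 : ∀ H : Subfield U, (∀ l, algebraMap L U l ∈ H) → InH H W0 ∧ ∀ j, InH H (A j) := by
    intro H hH
    refine ⟨fun i => ?_, fun j i => ?_⟩
    · rw [hW0, cf_tm]
      exact hH _
    · rw [hAj, cf_tm]
      exact hH _
  have d4 : W0 + su W0 = 1 := by rw [hW0, su_tm, ← map_add, b1, map_one]
  have d5 : ∀ j, A j + su (A j) = 0 := fun j => by rw [hAj, su_tm, ← map_add, b3, map_zero]
  have d6 : ∀ c : Fin m → U, (W0 + ∑ j, c j • A j) + su (W0 + ∑ j, c j • A j) = 1 := by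
    intro c
    have e1 : su (W0 + ∑ j, c j • A j) = su W0 + ∑ j, c j • su (A j) := by
      rw [map_add, map_sum]
      simp only [map_smul]
    rw [e1]
    calc W0 + ∑ j, c j • A j + (su W0 + ∑ j, c j • su (A j)) =
        (W0 + su W0) + (∑ j, c j • A j + ∑ j, c j • su (A j)) := by abel
      _ = 1 := by
        rw [d4, ← Finset.sum_add_distrib]
        simp only [← smul_add, d5, smul_zero, Finset.sum_const_zero, add_zero]
  -- the generic element over the polynomial ring
  have cP : CharP (MvPolynomial (Fin m) L) p :=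
    charP_of_injective_algebraMap (MvPolynomial.C_injective (Fin m) L) p
  let e : MvPolynomial (Fin m) L →+* U := (MvPolynomial.aeval u : _ →ₐ[L] U).toRingHom
  have he : Function.Injective e := hLu.1
  obtain ⟨Q, hQ⟩ : ∃ Q : MvPolynomial (Fin m) L ⊗[ZMod p] R,
      Q = tm (MvPolynomial.C : L →+* MvPolynomial (Fin m) L) w₀ +
        ∑ j, (MvPolynomial.X j : MvPolynomial (Fin m) L) •
          tm (MvPolynomial.C : L →+* MvPolynomial (Fin m) L) (b j) := ⟨_, rfl⟩
  obtain ⟨Z, hZ⟩ : ∃ Z : U ⊗[ZMod p] R, Z = W0 + ∑ j, u j • A j := ⟨_, rfl⟩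
  have heC : e.comp MvPolynomial.C = algebraMap L U := by
    apply RingHom.ext
    intro l
    exact MvPolynomial.aeval_C u l
  have heX : ∀ j, e (MvPolynomial.X j) = u j := fun j => MvPolynomial.aeval_X u j
  have hQe : tm e Q = Z := by
    rw [hQ, map_add, map_sum, tm_tm, heC, hZ, hW0]
    congr 1
    refine Finset.sum_congr rfl fun j _ => ?_
    rw [tm_smul, tm_tm, heC, heX, hAj]
  have hQc : ∀ c : Fin m → L, tm (MvPolynomial.eval c) Q = w₀ + ∑ j, c j • b j := by
    intro c
    have g1 : (MvPolynomial.eval c).comp (MvPolynomial.C : L →+* MvPolynomial (Fin m) L) =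
        RingHom.id L := by
      apply RingHom.ext
      intro l
      exact MvPolynomial.eval_C l
    rw [hQ, map_add, map_sum, tm_tm, g1, tm_id]
    congr 1
    refine Finset.sum_congr rfl fun j _ => ?_
    rw [tm_smul, tm_tm, g1, tm_id, MvPolynomial.eval_X]
  -- units
  obtain ⟨I, hI1, hI2⟩ : ∃ I, su Z * I = 1 ∧ I * su Z = 1 := by
    obtain ⟨v, y, hv, hy⟩ := pointA (p := p) (A := L) z₀ hz₀
    obtain ⟨c, hc⟩ := b5 v hv
    have h := unit_gen (su Q) e he (MvPolynomial.eval c) (y := y) (by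
      rw [← su_tm, hQc, ← hc]
      exact hy)
    rwa [← su_tm, hQe] at h
  obtain ⟨J, hJ1, hJ2⟩ : ∃ J, (fr (su Z) * Z + fr Z * su Z) * J = 1 ∧
      J * (fr (su Z) * Z + fr Z * su Z) = 1 := by
    obtain ⟨v, y, hv, hy⟩ := pointB (p := p) (A := L) z₀ hz₀
    obtain ⟨c, hc⟩ := b5 v hv
    have h := unit_gen (fr (su Q) * Q + fr Q * su Q) e he (MvPolynomial.eval c) (y := y) (by
      rw [map_add, map_mul, map_mul, ← fr_tm', ← fr_tm', ← su_tm, hQc, ← hc]
      exact hy)
    rwa [map_add, map_mul, map_mul, ← fr_tm', ← fr_tm', ← su_tm, hQe] at h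
  have hconnZ : ∀ n ∈ unitary R, ∃ J, (su Z + em n * Z) * J = 1 ∧
      J * (su Z + em n * Z) = 1 := by
    intro n hn
    obtain ⟨v, y, hv, hy⟩ := hconn n hn L
    obtain ⟨c, hc⟩ := b5 v hv
    have h := unit_gen (su Q + em n * Q) e he (MvPolynomial.eval c) (y := y) (by
      rw [map_add, map_mul, ← su_tm, hQc, ← hc, tm_em]
      exact hy)
    rwa [map_add, map_mul, ← su_tm, hQe, tm_em] at h
  have hZ1 : Z + su Z = 1 := by rw [hZ]; exact d6 u
  have hsZ : su Z = 1 - Z := eq_sub_of_add_eq' hZ1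
  have hZc : Z * su Z = su Z * Z := by rw [hsZ, mul_sub, sub_mul, mul_one, one_mul]
  -- inverse of `Z`
  have hsI1 : su I * Z = 1 := by
    have h := congrArg su hI1
    rwa [su_mul, su_su, su_one] at h
  have hsI2 : Z * su I = 1 := by
    have h := congrArg su hI2
    rwa [su_mul, su_su, su_one] at h
  have hZI : Z * I = I * Z := by
    calc Z * I = (I * su Z) * (Z * I) := by rw [hI2, one_mul]
      _ = I * (Z * su Z) * I := by rw [hZc]; simp only [mul_assoc]
      _ = I * Z * (su Z * I) := by simp only [mul_assoc]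
      _ = I * Z := by rw [hI1, mul_one]
  -- the element of norm one
  obtain ⟨Y, hY⟩ : ∃ Y : U ⊗[ZMod p] R, Y = Z * I := ⟨_, rfl⟩
  have hsY : su Y = su I * su Z := by rw [hY, su_mul]
  have hYs : Y * su Y = 1 := by
    rw [hsY, hY, hZI]
    calc I * Z * (su I * su Z) = I * (Z * su I) * su Z := by simp only [mul_assoc]
      _ = 1 := by rw [hsI2, mul_one, hI2]
  have hsYY : su Y * Y = 1 := by
    rw [hsY, hY]
    calc su I * su Z * (Z * I) = su I * (Z * su Z) * I := by rw [hZc]; simp only [mul_assoc]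
      _ = (su I * Z) * (su Z * I) := by simp only [mul_assoc]
      _ = 1 := by rw [hsI1, hI1, mul_one]
  have hZY : Z = su Z * Y := by rw [hY, hZI, ← mul_assoc, hI1, one_mul]
  have h1Y : 1 + Y = I := by
    calc 1 + Y = su Z * I + Z * I := by rw [hI1, hY]
      _ = (Z + su Z) * I := by rw [add_mul, add_comm]
      _ = I := by rw [hZ1, one_mul]
  -- the Frobenius quotient
  obtain ⟨X, hX⟩ : ∃ X : U ⊗[ZMod p] R, X = su Y * fr Y := ⟨_, rfl⟩
  have hfY : fr Y = Y * X := by rw [hX, ← mul_assoc, hYs, one_mul]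
  have hfs : fr Y * su (fr Y) = 1 := by rw [su_fr, ← map_mul, hYs, map_one]
  have hfs' : su (fr Y) * fr Y = 1 := by rw [su_fr, ← map_mul, hsYY, map_one]
  have hXs : X * su X = 1 := by
    rw [hX, su_mul, su_su, mul_assoc, ← mul_assoc (fr Y), hfs, one_mul, hsYY]
  have hsX : su X * X = 1 := by
    rw [hX, su_mul, su_su, mul_assoc, ← mul_assoc Y, hYs, one_mul, hfs']
  obtain ⟨E, hXE, hEX⟩ : ∃ E, (1 + X) * E = 1 ∧ E * (1 + X) = 1 := by
    have g1 : fr (su Z) * fr I = 1 := by rw [← map_mul, hI1, map_one]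
    have g2 : fr I * fr (su Z) = 1 := by rw [← map_mul, hI2, map_one]
    have g3 : Y + fr Y = fr I * (fr (su Z) * Z + fr Z * su Z) * I := by
      have g4 : fr Y = fr I * fr Z := by rw [hY, hZI, map_mul]
      calc Y + fr Y = fr I * fr (su Z) * (Z * I) + fr I * fr Z * (su Z * I) := by
            rw [g2, one_mul, hI1, mul_one, ← hY, g4]
        _ = fr I * (fr (su Z) * Z + fr Z * su Z) * I := by
            simp only [mul_add, add_mul, mul_assoc]
    have g5 : 1 + X = su Y * (Y + fr Y) := by rw [mul_add, hsYY, ← hX]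
    refine ⟨su Z * J * fr (su Z) * Y, ?_, ?_⟩
    · rw [g5, g3]
      calc su Y * (fr I * (fr (su Z) * Z + fr Z * su Z) * I) * (su Z * J * fr (su Z) * Y) =
          su Y * (fr I * ((fr (su Z) * Z + fr Z * su Z) * (I * su Z) * J) * fr (su Z)) * Y := by
            simp only [mul_assoc]
        _ = 1 := by
            rw [hI2, mul_one, hJ1, mul_one, g2, mul_one, hsYY]
    · rw [g5, g3]
      calc su Z * J * fr (su Z) * Y * (su Y * (fr I * (fr (su Z) * Z + fr Z * su Z) * I)) =
          su Z * (J * (fr (su Z) * ((Y * su Y) * fr I) * (fr (su Z) * Z + fr Z * su Z))) * I := by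
            simp only [mul_assoc]
        _ = 1 := by
            rw [hYs, one_mul, g1, one_mul, hJ2, mul_one, hI1]
  have cay : ∀ Y' D' : U ⊗[ZMod p] R, Y' * su Y' = 1 → su Y' * Y' = 1 → (1 + Y') * D' = 1 →
      D' * (1 + Y') = 1 → su (D' * Y') = D' ∧ D' * Y' + D' = 1 ∧ D' * Y' = D' * Y' := by
    intro Y' D' k1 k2 k3 k4
    obtain ⟨k5, k6, k7⟩ := cayW su su_mul (fun a b => map_add su a b) su_su 1 Y' D'
      (fun w => by rw [one_mul, mul_one]) su_one k1 k2 k3 k4
    rw [one_mul] at k5 k6 k7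
    rw [k5] at k6
    exact ⟨k5, k6, rfl⟩
  obtain ⟨V, hV⟩ : ∃ V : U ⊗[ZMod p] R, V = E * X := ⟨_, rfl⟩
  obtain ⟨hV1, hV2, -⟩ := cay X E hXs hsX hXE hEX
  rw [← hV] at hV1 hV2
  have hVs : V + su V = 1 := by rw [hV1]; exact hV2
  let x : Fin m → U := χ V
  have hVx : V = W0 + ∑ j, x j • A j := d2 V hVs
  -- `x` is a transcendence basis
  have hx : IsTranscendenceBasis K x := by
    refine tb_of_alg hu x fun i => ?_
    rw [← mem_hull]
    let H : Subfield U := (hull K x).toSubfield
    have hLH : ∀ l, algebraMap L U l ∈ H := fun l => hull_alg x _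
      (Algebra.IsAlgebraic.isAlgebraic (R := K) l).algebraMap
    obtain ⟨hB1, hB2⟩ := d3 H hLH
    have hHc : ∀ z : U, IsAlgebraic H z → z ∈ H := by
      rintro z ⟨P, hP0, hP⟩
      refine hull_closed x (P.map (algebraMap H U)) ?_ ?_ z ?_
      · rwa [ne_eq, Polynomial.map_eq_zero_iff (algebraMap H U).injective]
      · intro n
        rw [Polynomial.coeff_map]
        exact (P.coeff n).2
      · rw [Polynomial.eval_map_algebraMap]
        exact hP
    have gV : InH H V := by
      rw [hVx]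
      exact hB1.add (InH.sum _ fun j _ => InH.smul (hull_x x j) (hB2 j))
    have gE : InH H E := by
      rw [← hV1]
      exact gV.su'
    have g1X : InH H (1 + X) := gE.inv hEX hXE
    have gX : InH H X := by
      have h1 : X = (1 + X) * V := by rw [hV, ← mul_assoc, hXE, one_mul]
      rw [h1]
      exact g1X.mul gV
    have gY : InH H Y := inH_frob H hHc Y X gX hfY
    have g1 : InH H I := by
      have h1 : (1 : U ⊗[ZMod p] R) = em 1 := (map_one _).symm
      rw [← h1Y, h1]
      exact (inH_em H 1).add gY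
    have gZ : InH H Z := by
      rw [hZY]
      exact (g1.inv hI2 hI1).mul gY
    have h2 : χ Z i = u i := by
      rw [hZ, d1]
    rw [← h2]
    exact c3 H hLH Z gZ i
  -- the twisted action
  let bL := Module.finBasis K L
  have hsurj : Function.Surjective (SemidirectProduct.rightHom :
      unitary R ⋊[φ] (L ≃ₐ[K] L) →* (L ≃ₐ[K] L)) :=
    SemidirectProduct.rightHom_surjective
  have hfin : Finite (unitary R ⋊[φ] (L ≃ₐ[K] L)) :=
    Finite.of_equiv _ SemidirectProduct.equivProd.symm
  refine frame K L _ SemidirectProduct.rightHom hsurj U _ x hx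
    (fun σ g => (∀ l, σ (algebraMap L U l) = algebraMap L U (g.right l)) ∧
      Y = em (g.left : R) * rm (ρ g.right : R →+* R) (tm (σ : U →+* U) Y))
    ?_ ?_ ?_ (fun σ g h => h.1)
    (Set.range (fun i => cf Y i) ∪ Set.range fun i => algebraMap L U (bL i))
    ((Set.finite_range _).union (Set.finite_range _)) ?_ ?_
  · -- existence
    intro σ hσ
    obtain ⟨γ, hγ⟩ : ∃ γ : L ≃ₐ[K] L, γ = σ.restrictNormal L := ⟨_, rfl⟩
    have h1 : ∀ l, σ (algebraMap L U l) = algebraMap L U (γ l) := by
      intro l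
      rw [hγ, AlgEquiv.restrictNormal_commutes]
    have h1' : (σ : U →+* U).comp (algebraMap L U) = (algebraMap L U).comp (γ : L →+* L) :=
      RingHom.ext h1
    let θ : (U ⊗[ZMod p] R) →+* (U ⊗[ZMod p] R) :=
      (rm (ρ γ : R →+* R)).comp (tm (σ : U →+* U))
    have hθL : ∀ v : L ⊗[ZMod p] R, rm (ρ γ : R →+* R) (tm (γ : L →+* L) v) = v →
        θ (tm (algebraMap L U) v) = tm (algebraMap L U) v := by
      intro v hv
      change rm (ρ γ : R →+* R) (tm (σ : U →+* U) (tm (algebraMap L U) v)) = _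
      rw [tm_tm, h1', ← tm_tm, ← tm_rm, hv]
    have hθV : θ V = V := by
      conv_lhs => rw [hVx]
      rw [map_add, map_sum]
      conv_rhs => rw [hVx]
      congr 1
      · rw [hW0]
        exact hθL _ (b2 γ)
      · refine Finset.sum_congr rfl fun j _ => ?_
        have k1 : θ (x j • A j) = σ (x j) • θ (A j) := by
          change rm (ρ γ : R →+* R) (tm (σ : U →+* U) (x j • A j)) = _
          rw [tm_smul, rm_smul]
          rfl
        have k2 : θ (A j) = A j := by
          rw [hAj]
          exact hθL _ (b4 γ j)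
        rw [k1, k2, hσ j]
    have hθs : ∀ w, θ (su w) = su (θ w) := by
      intro w
      change rm (ρ γ : R →+* R) (tm (σ : U →+* U) (su w)) =
        su (rm (ρ γ : R →+* R) (tm (σ : U →+* U) w))
      rw [← su_tm, ← su_rm _ (hρ γ)]
    have hθf : ∀ w, fr (θ w) = θ (fr w) := by
      intro w
      change fr (rm (ρ γ : R →+* R) (tm (σ : U →+* U) w)) =
        rm (ρ γ : R →+* R) (tm (σ : U →+* U) (fr w))
      rw [fr_rm, fr_tm]
    have hθE : θ E = E := by rw [← hV1, hθs, hθV]
    have hθX : θ X = X := by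
      apply lcanc hXE
      rw [← hV]
      have h2 : θ V = θ E * θ X := by
        conv_lhs => rw [hV]
        rw [map_mul]
      rw [hθV, hθE] at h2
      exact h2.symm
    have hθY : fr (θ Y) = θ Y * X := by
      rw [hθf, hfY, map_mul, hθX]
    have hθn : su (θ Y) * θ Y = 1 := by
      rw [← hθs, ← map_mul, hsYY, map_one]
    have hθn' : θ Y * su (θ Y) = 1 := by
      rw [← hθs, ← map_mul, hYs, map_one]
    have hfix : fr (Y * su (θ Y)) = Y * su (θ Y) := by
      rw [map_mul, ← su_fr, hθY, hfY, su_mul, mul_assoc, ← mul_assoc X, hXs, one_mul]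
    obtain ⟨n, hn⟩ := fr_fixed _ hfix
    have hn1 : n * star n = 1 := by
      apply em_injective (p := p) (U := U)
      rw [map_mul, ← su_em, hn, map_one, su_mul, su_su, mul_assoc, ← mul_assoc (su (θ Y)), hθn,
        one_mul, hYs]
    have hn2 : star n * n = 1 := by
      apply em_injective (p := p) (U := U)
      rw [map_mul, ← su_em, hn, map_one, su_mul, su_su, mul_assoc, ← mul_assoc (su Y), hsYY,
        one_mul, hθn']
    refine ⟨⟨⟨n, hn2, hn1⟩, γ⟩, h1, ?_⟩
    change Y = em n * θ Y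
    rw [hn, mul_assoc, hθn, mul_one]
  · -- uniqueness
    rintro σ g h ⟨h1, h2⟩ ⟨h3, h4⟩
    have h5 : g.right = h.right := by
      ext l
      apply (algebraMap L U).injective
      rw [← h1, ← h3]
    apply SemidirectProduct.ext _ h5
    apply Subtype.ext
    apply em_injective (p := p) (U := U)
    rw [← h5] at h4
    let θ : (U ⊗[ZMod p] R) →+* (U ⊗[ZMod p] R) :=
      (rm (ρ g.right : R →+* R)).comp (tm (σ : U →+* U))
    have h6 : em (g.left : R) * θ Y = em (h.left : R) * θ Y := h2.symm.trans h4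
    have h7 : θ Y * θ (su Y) = 1 := by rw [← map_mul, hYs, map_one]
    calc (em (g.left : R) : U ⊗[ZMod p] R) = em (g.left : R) * θ Y * θ (su Y) := by
          rw [mul_assoc, h7, mul_one]
      _ = em (h.left : R) * θ Y * θ (su Y) := by rw [h6]
      _ = em (h.left : R) := by rw [mul_assoc, h7, mul_one]
  · -- products
    rintro σ σ' g h ⟨h1, h2⟩ ⟨h3, h4⟩
    refine ⟨fun l => ?_, ?_⟩
    · rw [AlgEquiv.mul_apply, h3, h1]
      rfl
    · have e1 : (((g * h).left : unitary R) : R) = (g.left : R) * ρ g.right (h.left : R) := by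
        rw [SemidirectProduct.mul_left, ← hφ]
        rfl
      have e2 : ((ρ (g * h).right : R ≃+* R) : R →+* R) =
          ((ρ g.right : R ≃+* R) : R →+* R).comp ((ρ h.right : R ≃+* R) : R →+* R) := by
        rw [SemidirectProduct.mul_right, map_mul]
        rfl
      have e3 : ((σ * σ' : U ≃ₐ[K] U) : U →+* U) = (σ : U →+* U).comp (σ' : U →+* U) := rfl
      rw [e1, e2, e3, map_mul, ← tm_tm, ← rm_rm]
      conv_lhs => rw [h2, h4]
      rw [map_mul, map_mul, tm_em, rm_em, tm_rm, mul_assoc]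
      rfl
  · -- finiteness
    intro σ hσ hS
    refine ⟨fun l => ?_, ?_⟩
    · change σ (algebraMap L U l) = algebraMap L U l
      rw [← bL.sum_repr l, map_sum, map_sum]
      refine Finset.sum_congr rfl fun i _ => ?_
      rw [Algebra.smul_def, map_mul, map_mul, hS _ (Or.inr ⟨i, rfl⟩),
        ← IsScalarTower.algebraMap_apply K L U, AlgEquiv.commutes]
    · have e1 : tm (σ : U →+* U) Y = Y := by
        apply cf_ext
        intro i
        rw [cf_tm]
        exact hS _ (Or.inl ⟨i, rfl⟩)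
      have e2 : ((ρ (1 : unitary R ⋊[φ] (L ≃ₐ[K] L)).right : R ≃+* R) : R →+* R) =
          RingHom.id R := by
        rw [SemidirectProduct.one_right, map_one]
        rfl
      have e3 : (((1 : unitary R ⋊[φ] (L ≃ₐ[K] L)).left : unitary R) : R) = 1 := by
        rw [SemidirectProduct.one_left]
        rfl
      rw [e1, e2, e3, map_one, one_mul, rm_id]
  · -- the kernel
    intro g hg
    have hgr : g.right = 1 := hg
    let C := algebraicClosure K U
    have hCu : IsTranscendenceBasis C u := tb_up hu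
    obtain ⟨hga, hgb⟩ : star (g.left : R) * (g.left : R) = 1 ∧
        (g.left : R) * star (g.left : R) = 1 := g.left.2
    obtain ⟨B, hB⟩ : ∃ B : R, B = star (g.left : R) := ⟨_, rfl⟩
    have hB1 : star B * B = 1 := by rw [hB, star_star, hgb]
    have hB2 : B * star B = 1 := by rw [hB, star_star, hga]
    have hBu : B ∈ unitary R := ⟨hB1, hB2⟩
    obtain ⟨Y1, hY1⟩ : ∃ Y1 : U ⊗[ZMod p] R, Y1 = em B * Y := ⟨_, rfl⟩
    have eB : (em B : U ⊗[ZMod p] R) * su (em B) = 1 := by
      rw [su_em, ← map_mul, hB2, map_one]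
    have eB' : su (em B : U ⊗[ZMod p] R) * em B = 1 := by
      rw [su_em, ← map_mul, hB1, map_one]
    have hYs1 : Y1 * su Y1 = 1 := by
      rw [hY1, su_mul, mul_assoc, ← mul_assoc Y, hYs, one_mul, eB]
    have hsY1 : su Y1 * Y1 = 1 := by
      rw [hY1, su_mul, mul_assoc, ← mul_assoc (su (em B : U ⊗[ZMod p] R)), eB', one_mul, hsYY]
    obtain ⟨D1, hYD1, hDY1⟩ : ∃ D1, (1 + Y1) * D1 = 1 ∧ D1 * (1 + Y1) = 1 := by
      obtain ⟨T, hT1, hT2⟩ := hconnZ B hBu
      have g1 : 1 + Y1 = (su Z + em B * Z) * I := by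
        rw [add_mul, hI1, hY1, hY, mul_assoc]
      refine ⟨su Z * T, ?_, ?_⟩
      · rw [g1, mul_assoc, ← mul_assoc I, hI2, one_mul, hT1]
      · rw [g1, mul_assoc, ← mul_assoc T, hT2, one_mul, hI1]
    obtain ⟨W, hW⟩ : ∃ W : U ⊗[ZMod p] R, W = D1 * Y1 := ⟨_, rfl⟩
    obtain ⟨hW1, hW2, -⟩ := cay Y1 D1 hYs1 hsY1 hYD1 hDY1
    rw [← hW] at hW1 hW2
    have hWs : W + su W = 1 := by rw [hW1]; exact hW2
    let u' : Fin m → U := χ W
    have hWu : W = W0 + ∑ j, u' j • A j := d2 W hWs
    have hCu' : IsTranscendenceBasis C u' := by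
      refine tb_of_alg hCu _ fun j => ?_
      let H : Subfield U := (IntermediateField.adjoin C (Set.range u')).toSubfield
      have hCH : ∀ z : U, z ∈ C → z ∈ H := fun z hz =>
        IntermediateField.algebraMap_mem (IntermediateField.adjoin C (Set.range u')) (⟨z, hz⟩ : C)
      have hLH : ∀ l, algebraMap L U l ∈ H := fun l => hCH _ (hLC l)
      obtain ⟨hG1, hG2⟩ := d3 H hLH
      have gW : InH H W := by
        rw [hWu]
        exact hG1.add (InH.sum _ fun j _ => InH.smul
          (IntermediateField.subset_adjoin C _ ⟨j, rfl⟩) (hG2 j))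
      have gD : InH H D1 := by
        rw [← hW1]
        exact gW.su'
      have gY1 : InH H Y1 := by
        have h1 : Y1 = (1 + Y1) * W := by rw [hW, ← mul_assoc, hYD1, one_mul]
        rw [h1]
        exact (gD.inv hDY1 hYD1).mul gW
      have gY : InH H Y := by
        have h1 : Y = su (em B) * Y1 := by rw [hY1, ← mul_assoc, eB', one_mul]
        rw [h1]
        exact (inH_em H B).su'.mul gY1
      have g1 : InH H I := by
        have h1 : (1 : U ⊗[ZMod p] R) = em 1 := (map_one _).symm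
        rw [← h1Y, h1]
        exact (inH_em H 1).add gY
      have gZ : InH H Z := by
        rw [hZY]
        exact (g1.inv hI2 hI1).mul gY
      have h2 : χ Z j = u j := by
        rw [hZ, d1]
      have h4 : u j ∈ IntermediateField.adjoin C (Set.range u') := by
        rw [← h2]
        exact c3 H hLH Z gZ j
      exact isAlgebraic_algebraMap (⟨u j, h4⟩ : IntermediateField.adjoin C (Set.range u'))
    obtain ⟨σ0, hσ0⟩ := exists_iso C U U _ hCu hCu'
    obtain ⟨σ, hσσ⟩ : ∃ σ : U ≃ₐ[K] U, σ = σ0.restrictScalars K := ⟨_, rfl⟩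
    have hfix : ∀ z, IsAlgebraic K z → σ z = z := fun z hz => by
      rw [hσσ]
      exact σ0.commutes ⟨z, mem_algebraicClosure_iff.2 hz⟩
    have hσu : ∀ j, σ (u j) = u' j := fun j => by
      rw [hσσ]
      exact hσ0 j
    have hσL : ∀ v : L ⊗[ZMod p] R, tm (σ : U →+* U) (tm (algebraMap L U) v) =
        tm (algebraMap L U) v := by
      intro v
      rw [tm_tm]
      congr 2
      apply RingHom.ext
      intro l
      exact hfix _ (Algebra.IsAlgebraic.isAlgebraic (R := K) l).algebraMap
    have hσA : ∀ j, tm (σ : U →+* U) (A j) = A j := fun j => by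
      rw [hAj]
      exact hσL _
    have hσW0 : tm (σ : U →+* U) W0 = W0 := by
      rw [hW0]
      exact hσL _
    have hσZ : tm (σ : U →+* U) Z = W := by
      rw [hZ, map_add, map_sum, hWu, hσW0]
      congr 1
      refine Finset.sum_congr rfl fun j _ => ?_
      rw [tm_smul, hσA]
      congr 1
      exact hσu j
    have hσY : tm (σ : U →+* U) Y = Y1 := by
      apply lcanc hYD1
      rw [← hW, ← hσZ, ← hW1, ← hσZ, su_tm, ← map_mul, ← hZY]
    have hσX : tm (σ : U →+* U) X = X := by
      rw [hX, map_mul, ← su_tm, ← fr_tm, hσY, hY1, su_mul, map_mul, fr_em, mul_assoc,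
        ← mul_assoc (su (em B : U ⊗[ZMod p] R)), eB', one_mul]
    have hσE : tm (σ : U →+* U) E = E := by
      apply lcanc hEX
      rw [hXE]
      have h1 : tm (σ : U →+* U) ((1 + X) * E) = 1 := by rw [hXE, map_one]
      rw [map_mul, map_add, map_one, hσX] at h1
      exact h1
    have hσV : tm (σ : U →+* U) V = V := by
      rw [hV, map_mul, hσE, hσX]
    refine ⟨σ, hfix, fun j => ?_, fun l => ?_, ?_⟩
    · have h1 : W0 + ∑ j, σ (x j) • A j = V := by
        conv_rhs => rw [← hσV, hVx]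
        rw [map_add, map_sum, hσW0]
        congr 1
        refine Finset.sum_congr rfl fun j _ => ?_
        rw [tm_smul, hσA]
        rfl
      have h2 : χ (W0 + ∑ j, σ (x j) • A j) = fun j => σ (x j) := d1 _
      have h3 := congrFun h2 j
      rw [h1] at h3
      exact h3.symm
    · rw [hgr]
      exact hfix _ (Algebra.IsAlgebraic.isAlgebraic (R := K) l).algebraMap
    · have e2 : ((ρ g.right : R ≃+* R) : R →+* R) = RingHom.id R := by
        rw [hgr, map_one]
        rfl
      rw [e2, rm_id, hσY, hY1, ← mul_assoc, ← map_mul, hB, hgb, map_one, one_mul]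

end Pool.Agent.Y60.DC
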